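import Pool.Agent.Helper32.SQ.Transport

/-!
# MP_309e91_co : closed axis-parallel squares
-/

set_option autoImplicit false

namespace Pool.Agent.Helper32.SQ

open Filter Topology

/-- A locally finite tiling of the plane by closed axis-parallel squares of bounded size. -/
structure Boxes (ι : Type*) where
  X : ι → ℝ
  Y : ι → ℝ
  p : ι → ℝ
  P : ℝ
  pos : ∀ i, 0 < p i
  bd : ∀ i, p i ≤ P
  cov : ∀ x y : ℝ, ∃ i, X i ≤ x ∧ x ≤ X i + p i ∧ Y i ≤ y ∧ y ≤ Y i + p i
  dis : ∀ (x y : ℝ) (i j : ι), X i < x → x < X i + p i → Y i < y → y < Y i + p i →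
    X j < x → x < X j + p j → Y j < y → y < Y j + p j → i = j
  lf : ∀ C : ℝ, {i | |X i| ≤ C ∧ |Y i| ≤ C}.Finite

namespace Boxes

variable {ι : Type*} (B : Boxes ι)

theorem P_nonneg [Nonempty ι] : 0 ≤ B.P :=
  (B.pos (Classical.arbitrary ι)).le.trans (B.bd _)

theorem ev_add (x : ℝ) {a : ℝ} (h : x < a) : ∀ᶠ t in 𝓝[>] (0 : ℝ), x + t < a := by
  have h1 : ContinuousAt (fun t : ℝ => x + t) 0 := by fun_prop
  have h2 : ∀ᶠ t in 𝓝 (0 : ℝ), x + t < a := by
    apply h1.eventually_lt continuousAt_const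
    simpa using h
  exact h2.filter_mono nhdsWithin_le_nhds

theorem ex1 (x y : ℝ) : ∃ i, B.X i ≤ x ∧ x < B.X i + B.p i ∧ B.Y i ≤ y ∧ y < B.Y i + B.p i := by
  by_contra hno
  push Not at hno
  obtain ⟨i₀, _⟩ := B.cov x y
  have hP : 0 ≤ B.P := (B.pos i₀).le.trans (B.bd _)
  have hfin := B.lf (|x| + |y| + 1 + B.P)
  have h1 : ∀ i ∈ {i | |B.X i| ≤ |x| + |y| + 1 + B.P ∧ |B.Y i| ≤ |x| + |y| + 1 + B.P},
      ∀ᶠ t in 𝓝[>] (0 : ℝ), ¬ (B.X i ≤ x + t ∧ x + t ≤ B.X i + B.p i ∧ B.Y i ≤ y + t ∧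
        y + t ≤ B.Y i + B.p i) := by
    intro i _
    by_cases hx1 : B.X i ≤ x
    · by_cases hx2 : x < B.X i + B.p i
      · by_cases hy1 : B.Y i ≤ y
        · have hy2 := hno i hx1 hx2 hy1
          filter_upwards [self_mem_nhdsWithin] with t ht hcon
          have ht0 : (0 : ℝ) < t := ht
          linarith [hcon.2.2.2]
        · push Not at hy1
          filter_upwards [ev_add y hy1] with t ht hcon
          linarith [hcon.2.2.1]
      · push Not at hx2
        filter_upwards [self_mem_nhdsWithin] with t ht hcon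
        have ht0 : (0 : ℝ) < t := ht
        linarith [hcon.2.1]
    · push Not at hx1
      filter_upwards [ev_add x hx1] with t ht hcon
      linarith [hcon.1]
  have h2 := (Filter.eventually_all_finite hfin).2 h1
  have h3 : ∀ᶠ t in 𝓝[>] (0 : ℝ), (0 : ℝ) + t < 1 := ev_add 0 one_pos
  have h4 : ∀ᶠ t in 𝓝[>] (0 : ℝ), (0 : ℝ) < t := self_mem_nhdsWithin
  obtain ⟨t, ht, ht1, ht0⟩ := (h2.and (h3.and h4)).exists
  obtain ⟨i, hi1, hi2, hi3, hi4⟩ := B.cov (x + t) (y + t)
  refine ht i ⟨?_, ?_⟩ ⟨hi1, hi2, hi3, hi4⟩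
  · have h5 := B.bd i
    have h6 := neg_abs_le x
    have h7 := le_abs_self x
    have h8 := abs_nonneg y
    rw [abs_le]
    constructor <;> linarith
  · have h5 := B.bd i
    have h6 := neg_abs_le y
    have h7 := le_abs_self y
    have h8 := abs_nonneg x
    rw [abs_le]
    constructor <;> linarith

theorem un1 (x y : ℝ) (i j : ι) (h1 : B.X i ≤ x) (h2 : x < B.X i + B.p i) (h3 : B.Y i ≤ y)
    (h4 : y < B.Y i + B.p i) (h5 : B.X j ≤ x) (h6 : x < B.X j + B.p j) (h7 : B.Y j ≤ y)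
    (h8 : y < B.Y j + B.p j) : i = j := by
  have h0 : ∀ᶠ t in 𝓝[>] (0 : ℝ), (0 : ℝ) < t := self_mem_nhdsWithin
  obtain ⟨t, ht0, ht2, ht4, ht6, ht8⟩ :=
    (h0.and ((ev_add x h2).and ((ev_add y h4).and ((ev_add x h6).and (ev_add y h8))))).exists
  exact B.dis (x + t) (y + t) i j (by linarith) ht2 (by linarith) ht4 (by linarith) ht6
    (by linarith) ht8

/-- The reflected tiling. -/
def refl : Boxes ι where
  X := B.X
  Y i := -(B.Y i + B.p i)
  p := B.p
  P := B.P
  pos := B.pos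
  bd := B.bd
  cov x y := by
    obtain ⟨i, h1, h2, h3, h4⟩ := B.cov x (-y)
    exact ⟨i, h1, h2, by linarith, by linarith⟩
  dis x y i j h1 h2 h3 h4 h5 h6 h7 h8 :=
    B.dis x (-y) i j h1 h2 (by linarith) (by linarith) h5 h6 (by linarith) (by linarith)
  lf C := by
    refine (B.lf (C + |B.P|)).subset ?_
    rintro i ⟨h1, h2⟩
    have h3 := B.bd i
    have h4 := B.pos i
    have h5 := le_abs_self B.P
    rw [abs_le] at h2
    refine ⟨by linarith [abs_nonneg B.P], ?_⟩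
    rw [abs_le]
    constructor <;> linarith [h2.1, h2.2]

theorem ex2 (x y : ℝ) : ∃ i, B.X i ≤ x ∧ x < B.X i + B.p i ∧ B.Y i < y ∧ y ≤ B.Y i + B.p i := by
  obtain ⟨i, h1, h2, h3, h4⟩ := B.refl.ex1 x (-y)
  change -(B.Y i + B.p i) ≤ -y at h3
  change -y < -(B.Y i + B.p i) + B.p i at h4
  exact ⟨i, h1, h2, by linarith, by linarith⟩

theorem un2 (x y : ℝ) (i j : ι) (h1 : B.X i ≤ x) (h2 : x < B.X i + B.p i) (h3 : B.Y i < y)
    (h4 : y ≤ B.Y i + B.p i) (h5 : B.X j ≤ x) (h6 : x < B.X j + B.p j) (h7 : B.Y j < y)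
    (h8 : y ≤ B.Y j + B.p j) : i = j := by
  refine B.refl.un1 x (-y) i j h1 h2 ?_ ?_ h5 h6 ?_ ?_
  · change -(B.Y i + B.p i) ≤ -y
    linarith
  · change -y < -(B.Y i + B.p i) + B.p i
    linarith
  · change -(B.Y j + B.p j) ≤ -y
    linarith
  · change -y < -(B.Y j + B.p j) + B.p j
    linarith

/-- The family of half-open squares. -/
def fam : Fam ι where
  X := B.X
  Y := B.Y
  p := B.p
  pos := B.pos
  inj i j hX hY := by
    have h1 := B.pos i
    have h2 := B.pos j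
    exact B.un1 (B.X i) (B.Y i) i j le_rfl (by linarith) le_rfl (by linarith) hX.ge
      (by linarith) hY.ge (by linarith)
  ex1 := B.ex1
  un1 := B.un1
  ex2 := B.ex2
  un2 := B.un2

theorem tch_finite (i : ι) : {j | B.fam.Tch i j}.Finite := by
  refine (B.lf (|B.X i| + |B.Y i| + B.P)).subset ?_
  rintro j ⟨h1, h2, h3⟩
  change B.Y j + B.p j = B.Y i at h1
  change B.X j < B.X i + B.p i at h2
  change B.X i < B.X j + B.p j at h3
  have h4 := B.bd i
  have h5 := B.bd j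
  have h6 := B.pos i
  have h7 := B.pos j
  have h8 := neg_abs_le (B.X i)
  have h9 := le_abs_self (B.X i)
  have h10 := neg_abs_le (B.Y i)
  have h11 := le_abs_self (B.Y i)
  have h12 := abs_nonneg (B.X i)
  have h13 := abs_nonneg (B.Y i)
  constructor
  · rw [abs_le]
    constructor <;> linarith
  · rw [abs_le]
    constructor <;> linarith

theorem tch_finite' (j : ι) : {i | B.fam.Tch i j}.Finite := by
  refine (B.lf (|B.X j| + |B.Y j| + B.P)).subset ?_
  rintro i ⟨h1, h2, h3⟩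
  change B.Y j + B.p j = B.Y i at h1
  change B.X j < B.X i + B.p i at h2
  change B.X i < B.X j + B.p j at h3
  have h4 := B.bd i
  have h5 := B.bd j
  have h6 := B.pos i
  have h7 := B.pos j
  have h8 := neg_abs_le (B.X j)
  have h9 := le_abs_self (B.X j)
  have h10 := neg_abs_le (B.Y j)
  have h11 := le_abs_self (B.Y j)
  have h12 := abs_nonneg (B.X j)
  have h13 := abs_nonneg (B.Y j)
  constructor
  · rw [abs_le]
    constructor <;> linarith
  · rw [abs_le]
    constructor <;> linarith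

/-- All sides are in the rational span of the second coordinates of the translations. -/
theorem p_mem {Λ : AddSubgroup (ℝ × ℝ)} (hΛ : B.fam.Inv Λ)
    (hfin : Finite (Quotient (B.fam.orb Λ hΛ))) (i : ι) :
    B.p i ∈ Submodule.span ℚ ((fun v : ℝ × ℝ => v.2) '' (Λ : Set (ℝ × ℝ))) := by
  by_contra hno
  obtain ⟨f, hf0, hf⟩ := Submodule.exists_le_ker_of_notMem hno
  let g : ℝ →+ ℝ := (Rat.castHom ℝ : ℚ →+* ℝ).toAddMonoidHom.comp f.toAddMonoidHom
  have hg : ∀ x, g x = ((f x : ℚ) : ℝ) := fun x => rfl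
  have h1 := Fam.vanish hΛ hfin B.tch_finite B.tch_finite' g (fun v hv => by
    have h2 : f v.2 = 0 := hf (Submodule.subset_span ⟨v, hv, rfl⟩)
    rw [hg, h2, Rat.cast_zero]) i
  rw [hg] at h1
  exact hf0 (by exact_mod_cast h1)

end Boxes

end Pool.Agent.Helper32.SQ
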