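import Pool.Agent.Helper32.SQ.Pigeon

/-!
# MP_309e91_co : the solution space of the bounded relations has dimension at most 2
-/

set_option autoImplicit false

namespace Pool.Agent.Helper32.SQ

open Module

/-- A separating set of functionals without three independent elements. -/
theorem dim_le {V : Type*} [AddCommGroup V] [Module ℚ V] [FiniteDimensional ℚ V]
    (Φ : Set (Dual ℚ V)) (hsep : ∀ f : V, (∀ φ ∈ Φ, φ f = 0) → f = 0)
    (hdep : ∀ φ : Fin 3 → Dual ℚ V, (∀ l, φ l ∈ Φ) → ¬ LinearIndependent ℚ φ) :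
    finrank ℚ V ≤ 2 := by
  classical
  obtain ⟨b, hb, hspan, hli⟩ := exists_linearIndependent ℚ Φ
  have hbfin : b.Finite := hli.setFinite
  have := hbfin.fintype
  have hcard : Fintype.card b ≤ 2 := by
    by_contra h
    push Not at h
    have h1 : Fintype.card (Fin 3) ≤ Fintype.card b := by rw [Fintype.card_fin]; omega
    obtain ⟨g⟩ := Function.Embedding.nonempty_of_card_le h1
    exact hdep (fun l => (g l : Dual ℚ V)) (fun l => hb (g l).2) (hli.comp g g.injective)
  have h1 : (Submodule.span ℚ Φ).dualCoannihilator = ⊥ := by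
    rw [Submodule.eq_bot_iff]
    intro f hf
    rw [Submodule.mem_dualCoannihilator] at hf
    exact hsep f fun φ hφ => hf φ (Submodule.subset_span hφ)
  have h2 := Subspace.finrank_add_finrank_dualCoannihilator_eq (Submodule.span ℚ Φ)
  rw [h1, finrank_bot, add_zero] at h2
  rw [← h2, ← hspan]
  calc finrank ℚ (Submodule.span ℚ b) = finrank ℚ (Submodule.span ℚ (Set.range ((↑) : b → Dual ℚ V))) := by
        rw [Subtype.range_coe]
    _ ≤ Fintype.card b := finrank_range_le_card _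
    _ ≤ 2 := hcard

variable {r : ℕ}

theorem ev_add_right {R : Type*} [CommRing R] (ρ : Fin r → ℤ) (f g : Fin r → R) :
    Dat.ev ρ (f + g) = Dat.ev ρ f + Dat.ev ρ g := by
  unfold Dat.ev
  rw [← Finset.sum_add_distrib]
  refine Finset.sum_congr rfl fun k _ => ?_
  rw [Pi.add_apply]
  ring

theorem ev_smul_right {R : Type*} [CommRing R] (ρ : Fin r → ℤ) (c : R) (f : Fin r → R) :
    Dat.ev ρ (c • f) = c * Dat.ev ρ f := by
  unfold Dat.ev
  rw [Finset.mul_sum]
  refine Finset.sum_congr rfl fun k _ => ?_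
  rw [Pi.smul_apply, smul_eq_mul]
  ring

/-- the solution space of a set of relations -/
def Vr (R : Set (Fin r → ℤ)) : Submodule ℚ (Fin r → ℚ) where
  carrier := {f | ∀ ρ ∈ R, Dat.ev ρ f = 0}
  zero_mem' ρ _ := by simp [Dat.ev]
  add_mem' hf hg ρ hρ := by rw [ev_add_right, hf ρ hρ, hg ρ hρ, add_zero]
  smul_mem' c _ hf ρ hρ := by rw [ev_smul_right, hf ρ hρ, mul_zero]

theorem mem_Vr {R : Set (Fin r → ℤ)} {f : Fin r → ℚ} : f ∈ Vr R ↔ ∀ ρ ∈ R, Dat.ev ρ f = 0 :=
  Iff.rfl

/-- the evaluation functional -/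
def evl (V : Submodule ℚ (Fin r → ℚ)) (ρ : Fin r → ℤ) : Dual ℚ V where
  toFun f := Dat.ev ρ (f : Fin r → ℚ)
  map_add' f g := ev_add_right ρ _ _
  map_smul' c f := ev_smul_right ρ c _

/-- the bounded relations of a vector of sizes -/
def rel (B : ℕ) (P : Fin r → ℝ) : Set (Fin r → ℤ) := {ρ | (∀ k, |ρ k| ≤ B) ∧ Dat.ev ρ P = 0}

/-- THE DIMENSION THEOREM -/
theorem Dat.dim {ι : Type*} (D : Dat ι r) (hk : Function.Surjective D.k) {n B : ℕ}
    (hn : 2 * Nat.card D.Q + 1 ≤ n) (hB : 3 * (36 * n ^ 2) * n ≤ B) :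
    finrank ℚ (Vr (rel B D.P)) ≤ 2 := by
  classical
  obtain ⟨b⟩ := D.exists_base
  set V := Vr (rel B D.P) with hV
  have hn1 : 1 ≤ n := by omega
  have hnB : n ≤ B := by
    refine le_trans ?_ hB
    have : 1 ≤ n ^ 2 := Nat.one_le_pow _ _ hn1
    nlinarith
  refine dim_le ((evl V) '' b.W n) ?_ ?_
  · intro f hf
    apply Subtype.ext
    funext k
    obtain ⟨i, rfl⟩ := hk k
    refine Dat.energy b hn (f : Fin r → ℚ) ?_ ?_ i
    · intro ρ hρ h
      refine f.2 ρ ⟨fun k => (hρ k).trans ?_, h⟩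
      exact_mod_cast (by omega : Nat.card D.Q ≤ B)
    · intro ρ hρ
      exact hf _ ⟨ρ, hρ, rfl⟩
  · intro φ hφ hli
    choose ρ hρ hρφ using hφ
    choose q m hm j hj hw using hρ
    -- the largest tile
    obtain ⟨i₁, -⟩ := D.F.ex1 0 0
    have : Nonempty (Fin r) := ⟨D.k i₁⟩
    obtain ⟨k₀, hk₀⟩ := Finite.exists_max D.P
    obtain ⟨i₀, hi₀⟩ := hk k₀
    have hmax : ∀ i, D.F.p i ≤ D.F.p i₀ := by
      intro i
      rw [D.hp, D.hp, hi₀]
      exact hk₀ _
    obtain ⟨c, hc0, hcb, hc⟩ := Dat.three hn1 i₀ hmax (fun l => b.o (q l)) j ρ m hm hj hw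
    have h1 : (∑ l, c l • ρ l) ∈ rel B D.P := by
      refine ⟨?_, hc⟩
      intro k
      rw [Finset.sum_apply]
      refine (Finset.abs_sum_le_sum_abs _ _).trans ?_
      have h2 : ∀ l ∈ (Finset.univ : Finset (Fin 3)), |(c l • ρ l) k| ≤ 36 * (n : ℤ) ^ 2 * n := by
        intro l _
        rw [Pi.smul_apply, smul_eq_mul, abs_mul]
        refine mul_le_mul (hcb l) ?_ (abs_nonneg _) (by positivity)
        exact ((hw l).bd k).trans (by exact_mod_cast hm l)
      refine (Finset.sum_le_sum h2).trans ?_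
      rw [Finset.sum_const, Finset.card_univ, Fintype.card_fin, nsmul_eq_mul]
      have h3 : ((3 * (36 * n ^ 2) * n : ℕ) : ℤ) ≤ (B : ℤ) := by exact_mod_cast hB
      push_cast at h3 ⊢
      linarith
    have h2 : ∑ l, (c l : ℚ) • φ l = 0 := by
      ext f
      rw [LinearMap.zero_apply, ← f.2 _ h1, LinearMap.sum_apply]
      have h3 : ∀ s : Finset (Fin 3), ∑ l ∈ s, ((c l : ℚ) • φ l) f =
          Dat.ev (∑ l ∈ s, c l • ρ l) (f : Fin r → ℚ) := by
        intro s
        induction s using Finset.induction_on with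
        | empty => simp [Dat.ev_zero]
        | insert a s ha ih =>
          rw [Finset.sum_insert ha, Finset.sum_insert ha, Dat.ev_add, Dat.ev_smul, ih,
            LinearMap.smul_apply, smul_eq_mul, ← hρφ a]
          rfl
      exact h3 _
    rw [Fintype.linearIndependent_iff] at hli
    apply hc0
    funext l
    have h3 := hli (fun l => (c l : ℚ)) h2 l
    exact_mod_cast h3

/-- the real vectors in the solution space -/
theorem decomp {R : Set (Fin r → ℤ)} {P : Fin r → ℝ} (hP : ∀ ρ ∈ R, Dat.ev ρ P = 0)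
    {a b : Fin r → ℤ}
    (hV : Vr R ≤ Submodule.span ℚ {fun k => (a k : ℚ), fun k => (b k : ℚ)}) :
    ∃ x y : ℝ, ∀ k, P k = a k * x + b k * y := by
  classical
  set S := Submodule.span ℚ (Set.range P) with hS
  have : FiniteDimensional ℚ S := FiniteDimensional.span_of_finite ℚ (Set.finite_range _)
  let e := Module.finBasis ℚ S
  have hmem : ∀ k, P k ∈ S := fun k => Submodule.subset_span ⟨k, rfl⟩
  set c : Fin (finrank ℚ S) → Fin r → ℚ := fun j k => e.repr ⟨P k, hmem k⟩ j with hc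
  have hPk : ∀ k, P k = ∑ j, (c j k : ℝ) * (e j : ℝ) := by
    intro k
    have h1 := e.sum_repr ⟨P k, hmem k⟩
    have h2 := congrArg (Submodule.subtype S) h1
    rw [map_sum] at h2
    rw [Submodule.subtype_apply] at h2
    dsimp only at h2
    rw [← h2]
    refine Finset.sum_congr rfl fun j _ => ?_
    rw [map_smul, Submodule.subtype_apply, Rat.smul_def]
  have hcV : ∀ j, c j ∈ Vr R := by
    intro j ρ hρ
    have h1 : ∑ k, (ρ k : ℚ) • (⟨P k, hmem k⟩ : S) = 0 := by
      apply Subtype.ext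
      rw [Submodule.coe_sum, Submodule.coe_zero, ← hP ρ hρ]
      refine Finset.sum_congr rfl fun k _ => ?_
      rw [Submodule.coe_smul, Rat.smul_def]
      push_cast
      rfl
    have h2 := congrArg (fun w => e.repr w j) h1
    rw [map_sum, map_zero, Finsupp.finset_sum_apply, Finsupp.zero_apply] at h2
    rw [← h2]
    refine Finset.sum_congr rfl fun k _ => ?_
    rw [map_smul, Finsupp.smul_apply, smul_eq_mul]
  have h3 : ∀ j, ∃ x y : ℚ, ∀ k, c j k = x * a k + y * b k := by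
    intro j
    obtain ⟨x, y, h⟩ := Submodule.mem_span_pair.1 (hV (hcV j))
    refine ⟨x, y, fun k => ?_⟩
    rw [← h, Pi.add_apply, Pi.smul_apply, Pi.smul_apply, smul_eq_mul, smul_eq_mul]
  choose x y hxy using h3
  refine ⟨∑ j, (x j : ℝ) * e j, ∑ j, (y j : ℝ) * e j, fun k => ?_⟩
  rw [hPk, Finset.mul_sum, Finset.mul_sum, ← Finset.sum_add_distrib]
  refine Finset.sum_congr rfl fun j _ => ?_
  rw [hxy]
  push_cast
  ring

/-- clearing the denominators of a vector -/
theorem clear_den (f : Fin r → ℚ) : ∃ (a : Fin r → ℤ) (c : ℚ), ∀ k, f k = c * a k := by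
  classical
  set N : ℕ := ∏ k, (f k).den with hN
  have hN0 : (N : ℚ) ≠ 0 := by
    rw [hN]
    push_cast
    exact Finset.prod_ne_zero_iff.2 fun k _ => by exact_mod_cast (f k).den_nz
  have h1 : ∀ k, ∃ m : ℤ, (N : ℚ) * f k = m := by
    intro k
    obtain ⟨d, hd⟩ : (f k).den ∣ N := Finset.dvd_prod_of_mem _ (Finset.mem_univ k)
    refine ⟨d * (f k).num, ?_⟩
    rw [hd]
    push_cast
    have := Rat.mul_den_eq_num (f k)
    rw [← this]
    ring
  choose a ha using h1
  refine ⟨a, (N : ℚ)⁻¹, fun k => ?_⟩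
  rw [← ha, inv_mul_cancel_left₀ hN0]

/-- integral spanning vectors -/
theorem exists_int_span (V : Submodule ℚ (Fin r → ℚ)) (h : finrank ℚ V ≤ 2) :
    ∃ a b : Fin r → ℤ, V ≤ Submodule.span ℚ {fun k => (a k : ℚ), fun k => (b k : ℚ)} := by
  classical
  -- two spanning vectors
  have h1 : ∃ f g : Fin r → ℚ, V ≤ Submodule.span ℚ {f, g} := by
    let e := Module.finBasis ℚ V
    set w : ℕ → (Fin r → ℚ) := fun j => if h : j < finrank ℚ V then (e ⟨j, h⟩ : Fin r → ℚ) else 0
      with hw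
    refine ⟨w 0, w 1, ?_⟩
    intro v hv
    have h2 := e.sum_repr ⟨v, hv⟩
    have h3 := congrArg (Submodule.subtype V) h2
    rw [map_sum] at h3
    rw [Submodule.subtype_apply] at h3
    dsimp only at h3
    rw [← h3]
    refine Submodule.sum_mem _ fun j _ => ?_
    rw [map_smul, Submodule.subtype_apply]
    refine Submodule.smul_mem _ _ (Submodule.subset_span ?_)
    have h4 : w j = (e j : Fin r → ℚ) := by
      rw [hw]
      dsimp only
      rw [dif_pos j.2]
    rw [← h4]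
    have h5 : (j : ℕ) = 0 ∨ (j : ℕ) = 1 := by
      have := j.2
      omega
    rcases h5 with h5 | h5
    · rw [h5]; exact Set.mem_insert _ _
    · rw [h5]; exact Set.mem_insert_of_mem _ rfl
  obtain ⟨f, g, hfg⟩ := h1
  obtain ⟨a, c, ha⟩ := clear_den f
  obtain ⟨b, d, hb⟩ := clear_den g
  refine ⟨a, b, hfg.trans (Submodule.span_le.2 ?_)⟩
  rintro v hv
  rw [Set.mem_insert_iff, Set.mem_singleton_iff] at hv
  rcases hv with rfl | rfl
  · have h2 : v = c • (fun k => (a k : ℚ)) := by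
      funext k
      rw [Pi.smul_apply, smul_eq_mul]
      exact ha k
    rw [h2]
    exact Submodule.smul_mem _ _ (Submodule.subset_span (Set.mem_insert _ _))
  · have h2 : v = d • (fun k => (b k : ℚ)) := by
      funext k
      rw [Pi.smul_apply, smul_eq_mul]
      exact hb k
    rw [h2]
    exact Submodule.smul_mem _ _ (Submodule.subset_span (Set.mem_insert_of_mem _ rfl))

/-- the finite list of families -/
theorem finite_list (r B : ℕ) : ∃ L : Finset ((Fin r → ℤ) × (Fin r → ℤ)), ∀ P : Fin r → ℝ,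
    finrank ℚ (Vr (rel B P)) ≤ 2 → ∃ ab ∈ L, ∃ x y : ℝ, ∀ k, P k = ab.1 k * x + ab.2 k * y := by
  classical
  have h1 : ∀ R : Finset (Fin r → ℤ), ∃ ab : (Fin r → ℤ) × (Fin r → ℤ),
      finrank ℚ (Vr (R : Set (Fin r → ℤ))) ≤ 2 → Vr (R : Set (Fin r → ℤ)) ≤
        Submodule.span ℚ {fun k => (ab.1 k : ℚ), fun k => (ab.2 k : ℚ)} := by
    intro R
    by_cases h : finrank ℚ (Vr (R : Set (Fin r → ℤ))) ≤ 2
    · obtain ⟨a, b, hab⟩ := exists_int_span _ h
      exact ⟨(a, b), fun _ => hab⟩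
    · exact ⟨0, fun h' => absurd h' h⟩
  choose ab hab using h1
  set box : Finset (Fin r → ℤ) := Fintype.piFinset fun _ => Finset.Icc (-(B : ℤ)) B with hbox
  refine ⟨box.powerset.image ab, ?_⟩
  intro P hP
  set R : Finset (Fin r → ℤ) := box.filter fun ρ => Dat.ev ρ P = 0 with hR
  have hRr : (R : Set (Fin r → ℤ)) = rel B P := by
    ext ρ
    rw [hR, Finset.mem_coe, Finset.mem_filter, hbox, Fintype.mem_piFinset]
    constructor
    · rintro ⟨h1, h2⟩
      exact ⟨fun k => abs_le.2 (Finset.mem_Icc.1 (h1 k)), h2⟩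
    · rintro ⟨h1, h2⟩
      exact ⟨fun k => Finset.mem_Icc.2 (abs_le.1 (h1 k)), h2⟩
  rw [← hRr] at hP
  refine ⟨ab R, Finset.mem_image_of_mem _ (Finset.mem_powerset.2 (Finset.filter_subset _ _)), ?_⟩
  refine decomp (R := (R : Set (Fin r → ℤ))) ?_ (hab R hP)
  intro ρ hρ
  rw [hRr] at hρ
  exact hρ.2

end Pool.Agent.Helper32.SQ
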