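import Pool.Agent.Helper32.SQ.Sim
import Pool.Agent.Helper32.SQ.Dim

/-!
# MP_309e91_co : the cells of dimension at most 2 are open cones with two generators
-/

set_option autoImplicit false

namespace Pool.Agent.Helper32.SQ

open Finset Module

variable {r : ℕ}

theorem fv_eq_ev (ρ : Fin r → ℤ) (x : Fin r → ℝ) : fv ρ x = Dat.ev ρ x := rfl

/-- A rational form which vanishes on the rational solutions vanishes on the real solutions. -/
theorem real_of_rat {R : Set (Fin r → ℤ)} {P : Fin r → ℝ} (hP : ∀ ρ ∈ R, Dat.ev ρ P = 0)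
    (ψ : Fin r → ℚ) (hψ : ∀ f ∈ Vr R, ∑ k, ψ k * f k = 0) : ∑ k, (ψ k : ℝ) * P k = 0 := by
  classical
  set S := Submodule.span ℚ (Set.range P) with hS
  have : FiniteDimensional ℚ S := FiniteDimensional.span_of_finite ℚ (Set.finite_range _)
  let e := Module.finBasis ℚ S
  have hmem : ∀ k, P k ∈ S := fun k => Submodule.subset_span ⟨k, rfl⟩
  set c : Fin (finrank ℚ S) → Fin r → ℚ := fun j k => e.repr ⟨P k, hmem k⟩ j with hc
  have hPk : ∀ k, P k = ∑ j, (c j k : ℝ) * (e j : ℝ) := by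
    intro k
    have h1 := e.sum_repr ⟨P k, hmem k⟩
    have h2 := congrArg (Submodule.subtype S) h1
    rw [map_sum] at h2
    rw [Submodule.subtype_apply] at h2
    dsimp only at h2
    rw [← h2]
    refine Finset.sum_congr rfl fun j _ => ?_
    rw [map_smul, Submodule.subtype_apply, Rat.smul_def]
  have hcV : ∀ j, c j ∈ Vr R := by
    intro j ρ hρ
    have h1 : ∑ k, (ρ k : ℚ) • (⟨P k, hmem k⟩ : S) = 0 := by
      apply Subtype.ext
      rw [Submodule.coe_sum, Submodule.coe_zero, ← hP ρ hρ]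
      refine Finset.sum_congr rfl fun k _ => ?_
      rw [Submodule.coe_smul, Rat.smul_def]
      push_cast
      rfl
    have h2 := congrArg (fun w => e.repr w j) h1
    rw [map_sum, map_zero, Finsupp.finsetSum_apply, Finsupp.zero_apply] at h2
    rw [← h2]
    refine Finset.sum_congr rfl fun k _ => ?_
    rw [map_smul, Finsupp.smul_apply, smul_eq_mul]
  have h1 : ∀ k, (ψ k : ℝ) * P k = ∑ j, (e j : ℝ) * ((ψ k * c j k : ℚ) : ℝ) := by
    intro k
    rw [hPk, Finset.mul_sum]
    refine Finset.sum_congr rfl fun j _ => ?_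
    push_cast
    ring
  rw [Finset.sum_congr rfl fun k _ => h1 k, Finset.sum_comm]
  refine Finset.sum_eq_zero fun j _ => ?_
  rw [← Finset.mul_sum, ← Rat.cast_sum, hψ _ (hcV j), Rat.cast_zero, mul_zero]

/-- clearing the denominators with a positive factor -/
theorem clear_den' (f : Fin r → ℚ) : ∃ (a : Fin r → ℤ) (c : ℚ), 0 < c ∧ ∀ k, f k = c * a k := by
  classical
  set N : ℕ := ∏ k, (f k).den with hN
  have hN1 : 0 < N := Finset.prod_pos fun k _ => (f k).den_pos
  have hN0 : (0 : ℚ) < N := by exact_mod_cast hN1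
  have h1 : ∀ k, ∃ m : ℤ, (N : ℚ) * f k = m := by
    intro k
    obtain ⟨d, hd⟩ : (f k).den ∣ N := Finset.dvd_prod_of_mem _ (Finset.mem_univ k)
    refine ⟨d * (f k).num, ?_⟩
    rw [hd]
    push_cast
    have := Rat.mul_den_eq_num (f k)
    rw [← this]
    ring
  choose a ha using h1
  refine ⟨a, (N : ℚ)⁻¹, inv_pos.2 hN0, fun k => ?_⟩
  rw [← ha, inv_mul_cancel_left₀ hN0.ne']

/-- the open cone with two generators -/
def cone (a b : Fin r → ℤ) : Set (Fin r → ℝ) :=
  {p | ∃ x y : ℝ, 0 < x ∧ 0 < y ∧ ∀ k, p k = a k * x + b k * y}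

theorem exists_pos_coord {V : Submodule ℚ (Fin r → ℚ)} {f : Fin r → ℚ} (hf : f ∈ V)
    (h0 : f ≠ 0) : ∃ (g : Fin r → ℚ) (i : Fin r), g ∈ V ∧ 0 < g i ∧ ∀ j, f j = 0 → g j = 0 := by
  obtain ⟨i, hi⟩ := Function.ne_iff.1 h0
  rcases lt_or_gt_of_ne hi with h | h
  · exact ⟨-f, i, V.neg_mem hf, by rw [Pi.neg_apply]; exact neg_pos.2 h,
      fun j hj => by rw [Pi.neg_apply, hj, neg_zero]⟩
  · exact ⟨f, i, hf, h, fun j hj => hj⟩

/-- two generators -/
theorem gens {R : Set (Fin r → ℤ)} (hV : finrank ℚ (Vr R) ≤ 2) (i₀ : Fin r) {p : Fin r → ℝ}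
    (hp : ∀ k, 0 < p k) (hr : ∀ ρ ∈ R, Dat.ev ρ p = 0) : ∃ a b : Fin r → ℤ,
      (∀ ρ ∈ R, Dat.ev ρ (fun k => (a k : ℚ)) = 0) ∧ (∀ ρ ∈ R, Dat.ev ρ (fun k => (b k : ℚ)) = 0) ∧
      ∀ p' : Fin r → ℝ, (∀ k, 0 < p' k) → (∀ ρ ∈ R, Dat.ev ρ p' = 0) → p' ∈ cone a b := by
  classical
  -- integral multiples stay in the solution space
  have hint : ∀ (f : Fin r → ℚ) (a : Fin r → ℤ) (c : ℚ), 0 < c → (∀ k, f k = c * a k) →
      f ∈ Vr R → ∀ ρ ∈ R, Dat.ev ρ (fun k => (a k : ℚ)) = 0 := by
    intro f a c hc hf hfV ρ hρ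
    have h1 := hfV ρ hρ
    have h2 : f = c • fun k => (a k : ℚ) := by
      funext k
      rw [Pi.smul_apply, smul_eq_mul]
      exact hf k
    rw [h2, ev_smul_right] at h1
    exact (mul_eq_zero.1 h1).resolve_left hc.ne'
  -- the space is not zero
  have h1 : ∃ f ∈ Vr R, f ≠ 0 := by
    by_contra hno
    push Not at hno
    have h2 := real_of_rat hr (Pi.single i₀ 1) (fun f hf => by rw [hno f hf]; simp)
    rw [sum_eq_single i₀] at h2
    · simp at h2
      exact (hp i₀).ne' h2
    · intro b _ hb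
      simp [hb]
    · intro h
      exact absurd (mem_univ _) h
  obtain ⟨f₀, hf₀, hf₀'⟩ := h1
  obtain ⟨a₁, i, ha₁, hi, -⟩ := exists_pos_coord hf₀ hf₀'
  by_cases hV0 : ∀ f ∈ Vr R, f i = 0 → f = 0
  · -- dimension one
    have h2 : ∀ f ∈ Vr R, ∀ k, f k = a₁ k / a₁ i * f i := by
      intro f hf k
      have h3 := hV0 (f - (f i / a₁ i) • a₁) ((Vr R).sub_mem hf ((Vr R).smul_mem _ ha₁)) (by
        rw [Pi.sub_apply, Pi.smul_apply, smul_eq_mul, div_mul_cancel₀ _ hi.ne', sub_self])
      have h4 := congrFun h3 k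
      rw [Pi.sub_apply, Pi.smul_apply, smul_eq_mul, Pi.zero_apply, sub_eq_zero] at h4
      rw [h4]
      ring
    obtain ⟨a, c, hc, ha⟩ := clear_den' a₁
    refine ⟨a, 0, hint a₁ a c hc ha ha₁, ?_, ?_⟩
    · intro ρ _
      simp [Dat.ev]
    · intro p' hp' hr'
      have hi' : (0 : ℝ) < a₁ i := by exact_mod_cast hi
      have hc' : (0 : ℝ) < c := by exact_mod_cast hc
      refine ⟨c * p' i / a₁ i, 1, by have := hp' i; positivity, one_pos, fun k => ?_⟩
      have h3 := real_of_rat hr' (Pi.single k 1 - Pi.single i (a₁ k / a₁ i)) (by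
        intro f hf
        simp only [Pi.sub_apply, sub_mul, sum_sub_distrib]
        rw [sum_eq_single k, sum_eq_single i]
        · rw [Pi.single_eq_same, Pi.single_eq_same, one_mul, h2 f hf k]
          ring
        · intro b _ hb
          simp [hb]
        · intro h
          exact absurd (mem_univ _) h
        · intro b _ hb
          simp [hb]
        · intro h
          exact absurd (mem_univ _) h)
      simp only [Pi.sub_apply, Rat.cast_sub, sub_mul, sum_sub_distrib] at h3
      rw [sum_eq_single k, sum_eq_single i] at h3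
      · rw [Pi.single_eq_same, Pi.single_eq_same, Rat.cast_one, one_mul, sub_eq_zero] at h3
        rw [h3, ha k]
        push_cast
        rw [Pi.zero_apply, Int.cast_zero, zero_mul, add_zero]
        ring
      · intro b _ hb
        simp [hb]
      · intro h
        exact absurd (mem_univ _) h
      · intro b _ hb
        simp [hb]
      · intro h
        exact absurd (mem_univ _) h
  · -- dimension two
    push Not at hV0
    obtain ⟨b₀, hb₀, hb₀i, hb₀'⟩ := hV0
    obtain ⟨b₁, j, hb₁, hj, hb₁'⟩ := exists_pos_coord hb₀ hb₀'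
    have hb₁i : b₁ i = 0 := hb₁' i hb₀i
    set a₂ : Fin r → ℚ := b₁ j • a₁ - a₁ j • b₁ with ha₂
    have ha₂V : a₂ ∈ Vr R := (Vr R).sub_mem ((Vr R).smul_mem _ ha₁) ((Vr R).smul_mem _ hb₁)
    have ha₂i : 0 < a₂ i := by
      rw [ha₂, Pi.sub_apply, Pi.smul_apply, Pi.smul_apply, smul_eq_mul, smul_eq_mul, hb₁i,
        mul_zero, sub_zero]
      exact mul_pos hj hi
    have ha₂j : a₂ j = 0 := by
      rw [ha₂, Pi.sub_apply, Pi.smul_apply, Pi.smul_apply, smul_eq_mul, smul_eq_mul]
      ring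
    have h2 : ∀ f ∈ Vr R, ∀ k, f k = a₂ k / a₂ i * f i + b₁ k / b₁ j * f j := by
      intro f hf k
      set d : Fin r → ℚ := f - (f i / a₂ i) • a₂ - (f j / b₁ j) • b₁ with hd
      have hdV : d ∈ Vr R := (Vr R).sub_mem ((Vr R).sub_mem hf ((Vr R).smul_mem _ ha₂V))
        ((Vr R).smul_mem _ hb₁)
      have hdi : d i = 0 := by
        simp only [hd, Pi.sub_apply, Pi.smul_apply, smul_eq_mul, hb₁i, mul_zero,
          div_mul_cancel₀ _ ha₂i.ne', sub_self]
      have hdj : d j = 0 := by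
        simp only [hd, Pi.sub_apply, Pi.smul_apply, smul_eq_mul, ha₂j, mul_zero, sub_zero,
          div_mul_cancel₀ _ hj.ne', sub_self]
      have hd0 : d = 0 := by
        by_contra hne
        have hli : LinearIndependent ℚ ![(⟨a₂, ha₂V⟩ : Vr R), ⟨b₁, hb₁⟩, ⟨d, hdV⟩] := by
          rw [Fintype.linearIndependent_iff]
          intro g hg
          rw [Fin.sum_univ_three] at hg
          have h3 : ∀ k, g 0 * a₂ k + g 1 * b₁ k + g 2 * d k = 0 := by
            intro k
            have h4 := congrFun (congrArg Subtype.val hg) k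
            simpa using h4
          have g0 : g 0 = 0 := by
            have h4 := h3 i
            rw [hb₁i, hdi, mul_zero, mul_zero, add_zero, add_zero] at h4
            exact (mul_eq_zero.1 h4).resolve_right ha₂i.ne'
          have g1 : g 1 = 0 := by
            have h4 := h3 j
            rw [ha₂j, hdj, mul_zero, mul_zero, add_zero, zero_add] at h4
            exact (mul_eq_zero.1 h4).resolve_right hj.ne'
          have g2 : g 2 = 0 := by
            obtain ⟨l, hl⟩ := Function.ne_iff.1 hne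
            have h4 := h3 l
            rw [g0, g1, zero_mul, zero_mul, zero_add, zero_add] at h4
            exact (mul_eq_zero.1 h4).resolve_right hl
          intro l
          fin_cases l
          · exact g0
          · exact g1
          · exact g2
        have h3 := hli.fintype_card_le_finrank
        rw [Fintype.card_fin] at h3
        omega
      have h3 := congrFun hd0 k
      simp only [hd, Pi.sub_apply, Pi.smul_apply, smul_eq_mul, Pi.zero_apply] at h3
      linear_combination h3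
    obtain ⟨a, c, hc, ha⟩ := clear_den' a₂
    obtain ⟨b, c', hc', hb⟩ := clear_den' b₁
    refine ⟨a, b, hint a₂ a c hc ha ha₂V, hint b₁ b c' hc' hb hb₁, ?_⟩
    intro p' hp' hr'
    have hi' : (0 : ℝ) < a₂ i := by exact_mod_cast ha₂i
    have hj' : (0 : ℝ) < b₁ j := by exact_mod_cast hj
    have hcr : (0 : ℝ) < c := by exact_mod_cast hc
    have hcr' : (0 : ℝ) < c' := by exact_mod_cast hc'
    refine ⟨c * p' i / a₂ i, c' * p' j / b₁ j, by have := hp' i; positivity,
      by have := hp' j; positivity, fun k => ?_⟩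
    have h3 := real_of_rat hr' (Pi.single k 1 - Pi.single i (a₂ k / a₂ i) -
        Pi.single j (b₁ k / b₁ j)) (by
      intro f hf
      simp only [Pi.sub_apply, sub_mul, sum_sub_distrib]
      rw [sum_eq_single k, sum_eq_single i, sum_eq_single j]
      · rw [Pi.single_eq_same, Pi.single_eq_same, Pi.single_eq_same, one_mul, h2 f hf k]
        ring
      · intro b _ hb
        simp [hb]
      · intro h
        exact absurd (mem_univ _) h
      · intro b _ hb
        simp [hb]
      · intro h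
        exact absurd (mem_univ _) h
      · intro b _ hb
        simp [hb]
      · intro h
        exact absurd (mem_univ _) h)
    simp only [Pi.sub_apply, Rat.cast_sub, sub_mul, sum_sub_distrib] at h3
    rw [sum_eq_single k, sum_eq_single i, sum_eq_single j] at h3
    · rw [Pi.single_eq_same, Pi.single_eq_same, Pi.single_eq_same, Rat.cast_one, one_mul] at h3
      have h4 : p' k = ((a₂ k / a₂ i : ℚ) : ℝ) * p' i + ((b₁ k / b₁ j : ℚ) : ℝ) * p' j := by
        linear_combination h3
      rw [h4, ha k, hb k]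
      push_cast
      ring
    · intro b _ hb
      simp [hb]
    · intro h
      exact absurd (mem_univ _) h
    · intro b _ hb
      simp [hb]
    · intro h
      exact absurd (mem_univ _) h
    · intro b _ hb
      simp [hb]
    · intro h
      exact absurd (mem_univ _) h

theorem fv_cone (ρ : Fin r → ℤ) (a b : Fin r → ℤ) {p : Fin r → ℝ} {x y : ℝ}
    (h : ∀ k, p k = a k * x + b k * y) :
    fv ρ p = (∑ k, ρ k * a k : ℤ) * x + (∑ k, ρ k * b k : ℤ) * y := by
  unfold fv
  push_cast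
  rw [sum_mul, sum_mul, ← sum_add_distrib]
  refine sum_congr rfl fun k _ => ?_
  rw [h k]
  ring

/-- cutting a cone by forms -/
theorem cut (a b : Fin r → ℤ) {p : Fin r → ℝ} (hp : p ∈ cone a b) (Φ : Finset (Fin r → ℤ))
    (hΦ : ∀ ρ ∈ Φ, 0 < fv ρ p) : ∃ a' b' : Fin r → ℤ,
      cone a' b' = {p' | p' ∈ cone a b ∧ ∀ ρ ∈ Φ, 0 < fv ρ p'} := by
  classical
  induction Φ using Finset.induction_on with
  | empty => exact ⟨a, b, by simp⟩
  | insert ρ Φ hρ ih =>
    obtain ⟨a', b', hab⟩ := ih (fun σ hσ => hΦ σ (mem_insert_of_mem hσ))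
    have hp' : p ∈ cone a' b' := by
      rw [hab]
      exact ⟨hp, fun σ hσ => hΦ σ (mem_insert_of_mem hσ)⟩
    have hset : {p' | p' ∈ cone a b ∧ ∀ σ ∈ insert ρ Φ, 0 < fv σ p'} =
        {p' | p' ∈ cone a' b' ∧ 0 < fv ρ p'} := by
      ext p'
      rw [hab]
      simp only [Set.mem_ofPred_eq, forall_mem_insert]
      tauto
    rw [hset]
    set α : ℤ := ∑ k, ρ k * a' k with hα
    set β : ℤ := ∑ k, ρ k * b' k with hβ
    obtain ⟨x₀, y₀, hx₀, hy₀, hxy₀⟩ := hp'
    have h0 := hΦ ρ (mem_insert_self _ _)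
    rw [fv_cone ρ a' b' hxy₀, ← hα, ← hβ] at h0
    rcases le_or_gt 0 α with h1 | h1
    · rcases le_or_gt 0 β with h2 | h2
      · -- no cut
        refine ⟨a', b', ?_⟩
        ext p'
        constructor
        · intro hp'
          refine ⟨hp', ?_⟩
          obtain ⟨x, y, hx, hy, hxy⟩ := hp'
          rw [fv_cone ρ a' b' hxy, ← hα, ← hβ]
          have h3 : (0 : ℝ) ≤ α := by exact_mod_cast h1
          have h4 : (0 : ℝ) ≤ β := by exact_mod_cast h2
          rcases h3.eq_or_lt with h5 | h5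
          · rw [← h5] at h0 ⊢
            rw [zero_mul, zero_add] at h0 ⊢
            have h6 : (0 : ℝ) < β := (pos_iff_pos_of_mul_pos h0).2 hy₀
            exact mul_pos h6 hy
          · have h6 := mul_pos h5 hx
            have h7 := mul_nonneg h4 hy.le
            linarith
        · rintro ⟨hp', -⟩
          exact hp'
      · -- `0 < α`, `β < 0`
        have h4 : (β : ℝ) < 0 := by exact_mod_cast h2
        have h3 : (0 : ℝ) < α := by
          by_contra hcon
          have h5 : (α : ℝ) = 0 := le_antisymm (not_lt.1 hcon) (by exact_mod_cast h1)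
          rw [h5, zero_mul, zero_add] at h0
          have h6 := mul_neg_of_neg_of_pos h4 hy₀
          linarith
        refine ⟨a', fun k => -β * a' k + α * b' k, ?_⟩
        ext p'
        constructor
        · rintro ⟨x, y, hx, hy, hxy⟩
          have h5 : ∀ k, p' k = a' k * (x + -β * y) + b' k * (α * y) := by
            intro k
            rw [hxy]
            push_cast
            ring
          have h6 : (0 : ℝ) < -β * y := mul_pos (by linarith) hy
          refine ⟨⟨_, _, by linarith, mul_pos h3 hy, h5⟩, ?_⟩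
          rw [fv_cone ρ a' b' h5, ← hα, ← hβ]
          have h7 := mul_pos h3 hx
          nlinarith
        · rintro ⟨⟨x, y, hx, hy, hxy⟩, hpos⟩
          rw [fv_cone ρ a' b' hxy, ← hα, ← hβ] at hpos
          refine ⟨x + β * (y / α), y / α, ?_, div_pos hy h3, fun k => ?_⟩
          · have h5 : x + β * (y / α) = (α * x + β * y) / α := by
              field_simp
            rw [h5]
            exact div_pos hpos h3
          · rw [hxy]
            push_cast
            field_simp
            ring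
    · -- `α < 0`, `0 < β`
      have h3 : (α : ℝ) < 0 := by exact_mod_cast h1
      have h4 : (0 : ℝ) < β := by
        by_contra hcon
        rw [not_lt] at hcon
        have h5 := mul_neg_of_neg_of_pos h3 hx₀
        have h6 := mul_nonpos_of_nonpos_of_nonneg hcon hy₀.le
        linarith
      refine ⟨fun k => β * a' k + -α * b' k, b', ?_⟩
      ext p'
      constructor
      · rintro ⟨x, y, hx, hy, hxy⟩
        have h5 : ∀ k, p' k = a' k * (β * x) + b' k * (-α * x + y) := by
          intro k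
          rw [hxy]
          push_cast
          ring
        have h6 : (0 : ℝ) < -α * x := mul_pos (by linarith) hx
        refine ⟨⟨_, _, mul_pos h4 hx, by linarith, h5⟩, ?_⟩
        rw [fv_cone ρ a' b' h5, ← hα, ← hβ]
        have h7 := mul_pos h4 hy
        nlinarith
      · rintro ⟨⟨x, y, hx, hy, hxy⟩, hpos⟩
        rw [fv_cone ρ a' b' hxy, ← hα, ← hβ] at hpos
        refine ⟨x / β, y + α * (x / β), div_pos hx h4, ?_, fun k => ?_⟩
        · have h5 : y + α * (x / β) = (α * x + β * y) / β := by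
            field_simp
            ring
          rw [h5]
          exact div_pos hpos h4
        · rw [hxy]
          push_cast
          field_simp
          ring

/-- the relations of bounded size -/
def rel1 (B : ℤ) (P : Fin r → ℝ) : Set (Fin r → ℤ) := {ρ | fn ρ ≤ B ∧ Dat.ev ρ P = 0}

/-- the cells -/
theorem cell (i₀ : Fin r) {B : ℤ} (hB : 1 ≤ B) {p : Fin r → ℝ} (hp : ∀ k, 0 < p k)
    (hdim : finrank ℚ (Vr (rel1 B p)) ≤ 2) :
    ∃ a b : Fin r → ℤ, ∀ p', Sim B p p' ↔ p' ∈ cone a b := by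
  classical
  obtain ⟨a₀, b₀, ha₀, hb₀, hab₀⟩ := gens hdim i₀ hp (fun ρ hρ => hρ.2)
  set Φ : Finset (Fin r → ℤ) := (finite_ball (Fin r) B).toFinset.filter fun ρ => 0 < fv ρ p with hΦ
  have hmem : ∀ ρ, ρ ∈ Φ ↔ fn ρ ≤ B ∧ 0 < fv ρ p := by
    intro ρ
    rw [hΦ, mem_filter, Set.Finite.mem_toFinset]
    exact Iff.rfl
  obtain ⟨a, b, hab⟩ := cut a₀ b₀ (hab₀ p hp (fun ρ hρ => hρ.2)) Φ (fun ρ hρ => ((hmem ρ).1 hρ).2)
  refine ⟨a, b, fun p' => ?_⟩
  rw [hab]
  constructor
  · intro h
    refine ⟨hab₀ p' ?_ ?_, ?_⟩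
    · intro k
      have h1 := (h.lt_iff (IsLin.zero (κ := Fin r)) (IsLin.proj k) (by linarith)).1 (hp k)
      exact h1
    · rintro ρ ⟨h1, h2⟩
      rw [← fv_eq_ev] at h2 ⊢
      have h3 := (h ρ h1)
      have h4 := (h (-ρ) (by rw [fn_neg]; exact h1))
      rw [fv_neg, fv_neg] at h4
      refine le_antisymm ?_ ?_
      · by_contra hcon
        rw [not_le] at hcon
        have := h3.2 hcon
        linarith
      · by_contra hcon
        rw [not_le] at hcon
        have := h4.2 (by linarith)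
        linarith
    · intro ρ hρ
      obtain ⟨h1, h2⟩ := (hmem ρ).1 hρ
      exact (h ρ h1).1 h2
  · rintro ⟨⟨x, y, hx, hy, hxy⟩, hpos⟩ ρ hρ
    constructor
    · intro h1
      exact hpos ρ ((hmem ρ).2 ⟨hρ, h1⟩)
    · intro h1
      rcases lt_trichotomy (fv ρ p) 0 with h2 | h2 | h2
      · have h3 := hpos (-ρ) ((hmem _).2 ⟨by rw [fn_neg]; exact hρ, by rw [fv_neg]; linarith⟩)
        rw [fv_neg] at h3
        linarith
      · exfalso
        have h3 := ha₀ ρ ⟨hρ, h2⟩
        have h4 := hb₀ ρ ⟨hρ, h2⟩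
        have h5 : (∑ k, ρ k * a₀ k : ℤ) = 0 := by
          simp only [Dat.ev] at h3
          exact_mod_cast h3
        have h6 : (∑ k, ρ k * b₀ k : ℤ) = 0 := by
          simp only [Dat.ev] at h4
          exact_mod_cast h4
        rw [fv_cone ρ a₀ b₀ hxy, h5, h6, Int.cast_zero, zero_mul, zero_mul, add_zero] at h1
        exact lt_irrefl _ h1
      · exact h2

/-- THE LIST OF CONES -/
theorem cone_list (i₀ : Fin r) {B : ℤ} (hB : 1 ≤ B) (S : Set (Fin r → ℝ))
    (hpos : ∀ p ∈ S, ∀ k, 0 < p k) (hdim : ∀ p ∈ S, finrank ℚ (Vr (rel1 B p)) ≤ 2)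
    (hS : ∀ p ∈ S, ∀ p', Sim B p p' → p' ∈ S) :
    ∃ L : Finset ((Fin r → ℤ) × (Fin r → ℤ)), (∀ p, p ∈ S ↔ ∃ ab ∈ L, p ∈ cone ab.1 ab.2) ∧
      ∀ ab ∈ L, ∀ p ∈ cone ab.1 ab.2, ∀ q, q ∈ cone ab.1 ab.2 ↔ Sim B p q := by
  classical
  set ball : Finset (Fin r → ℤ) := (finite_ball (Fin r) B).toFinset with hball
  have hmem : ∀ ρ, ρ ∈ ball ↔ fn ρ ≤ B := by
    intro ρ
    rw [hball, Set.Finite.mem_toFinset]
    exact Iff.rfl
  set sg : (Fin r → ℝ) → Finset (Fin r → ℤ) := fun p => ball.filter fun ρ => 0 < fv ρ p with hsg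
  have hsim : ∀ p p' : Fin r → ℝ, sg p = sg p' → Sim B p p' := by
    intro p p' h ρ hρ
    have h1 : ρ ∈ sg p ↔ ρ ∈ sg p' := by rw [h]
    rw [hsg] at h1
    simp only [mem_filter, hmem, hρ, true_and] at h1
    exact h1
  have h1 : ∀ W : Finset (Fin r → ℤ), ∃ ab : (Fin r → ℤ) × (Fin r → ℤ),
      (∃ p ∈ S, sg p = W) → ∃ p ∈ S, sg p = W ∧ ∀ p', Sim B p p' ↔ p' ∈ cone ab.1 ab.2 := by
    intro W
    by_cases h : ∃ p ∈ S, sg p = W
    · obtain ⟨p, hp, hps⟩ := h
      obtain ⟨a, b, hab⟩ := cell i₀ hB (hpos p hp) (hdim p hp)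
      exact ⟨(a, b), fun _ => ⟨p, hp, hps, hab⟩⟩
    · exact ⟨0, fun h' => absurd h' h⟩
  choose ab hab using h1
  refine ⟨(ball.powerset.filter fun W => ∃ p ∈ S, sg p = W).image ab, fun p => ?_, ?_⟩
  swap
  · rintro ab' hab' p hp q
    obtain ⟨W, hW, rfl⟩ := mem_image.1 hab'
    obtain ⟨p₀, -, -, h2⟩ := hab W (mem_filter.1 hW).2
    have h3 := (h2 p).2 hp
    rw [← h2 q]
    exact ⟨fun h4 ρ hρ => (h3 ρ hρ).symm.trans (h4 ρ hρ),
      fun h4 ρ hρ => (h3 ρ hρ).trans (h4 ρ hρ)⟩
  constructor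
  · intro hp
    obtain ⟨p₀, hp₀, hps, h2⟩ := hab (sg p) ⟨p, hp, rfl⟩
    refine ⟨ab (sg p), mem_image_of_mem _ (mem_filter.2 ⟨mem_powerset.2 (filter_subset _ _),
      ⟨p, hp, rfl⟩⟩), ?_⟩
    exact (h2 p).1 (hsim _ _ hps)
  · rintro ⟨ab', hab', hp⟩
    obtain ⟨W, hW, rfl⟩ := mem_image.1 hab'
    obtain ⟨p₀, hp₀, -, h2⟩ := hab W (mem_filter.1 hW).2
    exact hS p₀ hp₀ p ((h2 p).2 hp)

end Pool.Agent.Helper32.SQ
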