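import Mathlib

/-!
# MP_309e91_co : the core of the rank theorem

A family of axis-parallel squares in the plane, given by the lower left corner `(X i, Y i)` and the
side `p i`.  If the half-open squares tile the plane (in two ways), if the family is invariant under
a group of translations with finitely many orbits, and if `f` is an additive function which vanishes
on the second coordinates of the translations, then `f` vanishes on all the sides.
-/

set_option autoImplicit false

namespace Pool.Agent.Helper32.SQ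

open Finset

/-- Additive functions and partitions of an interval into finitely many half-open intervals. -/
theorem add_partition {ι : Type*} (f : ℝ →+ ℝ) (J : Finset ι) (u v : ι → ℝ) :
    ∀ (a b : ℝ), a ≤ b → (∀ j ∈ J, u j < v j) → (∀ j ∈ J, a ≤ u j ∧ v j ≤ b) →
    (∀ x, a ≤ x → x < b → ∃ j ∈ J, u j ≤ x ∧ x < v j) →
    (∀ j ∈ J, ∀ k ∈ J, j ≠ k → v j ≤ u k ∨ v k ≤ u j) →
    ∑ j ∈ J, f (v j - u j) = f (b - a) := by
  classical
  induction J using Finset.strongInduction with
  | H J ih =>
    intro a b hab hpos hin hcov hdis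
    rcases eq_or_lt_of_le hab with h | h
    · -- the interval is empty
      have hJ : J = ∅ := by
        rw [Finset.eq_empty_iff_forall_notMem]
        intro j hj
        have h1 := hpos j hj
        have h2 := hin j hj
        linarith
      rw [hJ, Finset.sum_empty, h, sub_self, map_zero]
    · obtain ⟨j, hj, hj1, hj2⟩ := hcov a le_rfl h
      have hja : u j = a := le_antisymm hj1 (hin j hj).1
      have h1 : ∑ k ∈ J.erase j, f (v k - u k) = f (b - v j) := by
        refine ih (J.erase j) (Finset.erase_ssubset hj) (v j) b (hin j hj).2 ?_ ?_ ?_ ?_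
        · intro k hk
          exact hpos k (Finset.mem_of_mem_erase hk)
        · intro k hk
          have hkJ := Finset.mem_of_mem_erase hk
          refine ⟨?_, (hin k hkJ).2⟩
          rcases hdis j hj k hkJ (Finset.ne_of_mem_erase hk).symm with h2 | h2
          · exact h2
          · have h3 := hpos k hkJ
            have h4 := (hin k hkJ).1
            linarith
        · intro x hx1 hx2
          have h2 := hpos j hj
          obtain ⟨k, hk, hk1, hk2⟩ := hcov x (by linarith) hx2
          refine ⟨k, Finset.mem_erase.2 ⟨?_, hk⟩, hk1, hk2⟩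
          rintro rfl
          linarith
        · intro k hk l hl hkl
          exact hdis k (Finset.mem_of_mem_erase hk) l (Finset.mem_of_mem_erase hl) hkl
      rw [← Finset.add_sum_erase J _ hj, h1, ← map_add]
      congr 1
      rw [hja]
      ring

/-- A family of squares with half-open partition properties. -/
structure Fam (ι : Type*) where
  X : ι → ℝ
  Y : ι → ℝ
  p : ι → ℝ
  pos : ∀ i, 0 < p i
  inj : ∀ i j, X i = X j → Y i = Y j → i = j
  ex1 : ∀ x y : ℝ, ∃ i, X i ≤ x ∧ x < X i + p i ∧ Y i ≤ y ∧ y < Y i + p i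
  un1 : ∀ (x y : ℝ) (i j : ι), X i ≤ x → x < X i + p i → Y i ≤ y → y < Y i + p i →
    X j ≤ x → x < X j + p j → Y j ≤ y → y < Y j + p j → i = j
  ex2 : ∀ x y : ℝ, ∃ i, X i ≤ x ∧ x < X i + p i ∧ Y i < y ∧ y ≤ Y i + p i
  un2 : ∀ (x y : ℝ) (i j : ι), X i ≤ x → x < X i + p i → Y i < y → y ≤ Y i + p i →
    X j ≤ x → x < X j + p j → Y j < y → y ≤ Y j + p j → i = j

namespace Fam

variable {ι : Type*} (F : Fam ι)

/-- `j` touches `i` from below along a segment. -/
def Tch (i j : ι) : Prop :=
  F.Y j + F.p j = F.Y i ∧ F.X j < F.X i + F.p i ∧ F.X i < F.X j + F.p j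

/-- The length of the common segment. -/
noncomputable def ov (i j : ι) : ℝ :=
  min (F.X i + F.p i) (F.X j + F.p j) - max (F.X i) (F.X j)

/-- The bottom side of `i` is divided by the squares below. -/
theorem sum_below (f : ℝ →+ ℝ) (i : ι) (B : Finset ι) (hB : ∀ j, j ∈ B ↔ F.Tch i j) :
    ∑ j ∈ B, f (F.ov i j) = f (F.p i) := by
  have h := add_partition f B (fun j => max (F.X i) (F.X j))
    (fun j => min (F.X i + F.p i) (F.X j + F.p j)) (F.X i) (F.X i + F.p i)
    (by linarith [F.pos i]) ?_ ?_ ?_ ?_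
  · rw [add_sub_cancel_left] at h
    exact h
  · intro j hj
    obtain ⟨h1, h2, h3⟩ := (hB j).1 hj
    have h4 := F.pos i
    have h5 := F.pos j
    exact lt_min (max_lt (by linarith) h2) (max_lt h3 (by linarith))
  · intro j _
    exact ⟨le_max_left _ _, min_le_left _ _⟩
  · intro x hx1 hx2
    obtain ⟨j, hj1, hj2, hj3, hj4⟩ := F.ex2 x (F.Y i)
    have hY : F.Y j + F.p j = F.Y i := by
      by_contra hne
      have h1 : F.Y i < F.Y j + F.p j := lt_of_le_of_ne hj4 (Ne.symm hne)
      have h2 := F.un1 x (F.Y i) i j hx1 hx2 le_rfl (by linarith [F.pos i]) hj1 hj2 hj3.le h1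
      rw [h2] at hj3
      exact lt_irrefl _ hj3
    refine ⟨j, (hB j).2 ⟨hY, by linarith, by linarith⟩, max_le hx1 hj1, lt_min hx2 hj2⟩
  · intro j hj k hk hjk
    obtain ⟨h1, h2, h3⟩ := (hB j).1 hj
    obtain ⟨h1', h2', h3'⟩ := (hB k).1 hk
    by_contra hcon
    push Not at hcon
    obtain ⟨hc1, hc2⟩ := hcon
    -- a common point of the two intervals
    have hx1 : max (max (F.X i) (F.X j)) (max (F.X i) (F.X k)) < F.X j + F.p j := by
      refine max_lt (max_lt h3 (by linarith [F.pos j])) ?_
      exact lt_of_lt_of_le hc1 (min_le_right _ _)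
    have hx2 : max (max (F.X i) (F.X j)) (max (F.X i) (F.X k)) < F.X k + F.p k := by
      refine max_lt ?_ (max_lt h3' (by linarith [F.pos k]))
      exact lt_of_lt_of_le hc2 (min_le_right _ _)
    have hx3 : F.X j ≤ max (max (F.X i) (F.X j)) (max (F.X i) (F.X k)) :=
      le_trans (le_max_right _ _) (le_max_left _ _)
    have hx4 : F.X k ≤ max (max (F.X i) (F.X j)) (max (F.X i) (F.X k)) :=
      le_trans (le_max_right _ _) (le_max_right _ _)
    exact hjk (F.un2 _ (F.Y i) j k hx3 hx1 (by linarith [F.pos j]) h1.ge hx4 hx2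
      (by linarith [F.pos k]) h1'.ge)

/-- The top side of `j` is divided by the squares above. -/
theorem sum_above (f : ℝ →+ ℝ) (j : ι) (T : Finset ι) (hT : ∀ i, i ∈ T ↔ F.Tch i j) :
    ∑ i ∈ T, f (F.ov i j) = f (F.p j) := by
  have h := add_partition f T (fun i => max (F.X i) (F.X j))
    (fun i => min (F.X i + F.p i) (F.X j + F.p j)) (F.X j) (F.X j + F.p j)
    (by linarith [F.pos j]) ?_ ?_ ?_ ?_
  · rw [add_sub_cancel_left] at h
    exact h
  · intro i hi
    obtain ⟨h1, h2, h3⟩ := (hT i).1 hi
    have h4 := F.pos i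
    have h5 := F.pos j
    exact lt_min (max_lt (by linarith) h2) (max_lt h3 (by linarith))
  · intro i _
    exact ⟨le_max_right _ _, min_le_right _ _⟩
  · intro x hx1 hx2
    obtain ⟨i, hi1, hi2, hi3, hi4⟩ := F.ex1 x (F.Y j + F.p j)
    have hY : F.Y j + F.p j = F.Y i := by
      by_contra hne
      have h1 : F.Y i < F.Y j + F.p j := lt_of_le_of_ne hi3 (Ne.symm hne)
      have h2 := F.un2 x (F.Y j + F.p j) i j hi1 hi2 h1 hi4.le hx1 hx2
        (by linarith [F.pos j]) le_rfl
      rw [h2] at hi4
      exact lt_irrefl _ hi4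
    refine ⟨i, (hT i).2 ⟨hY, by linarith, by linarith⟩, max_le hi1 hx1, lt_min hi2 hx2⟩
  · intro i hi k hk hik
    obtain ⟨h1, h2, h3⟩ := (hT i).1 hi
    obtain ⟨h1', h2', h3'⟩ := (hT k).1 hk
    by_contra hcon
    push Not at hcon
    obtain ⟨hc1, hc2⟩ := hcon
    have hx1 : max (max (F.X i) (F.X j)) (max (F.X k) (F.X j)) < F.X i + F.p i := by
      refine max_lt (max_lt (by linarith [F.pos i]) h2) ?_
      exact lt_of_lt_of_le hc1 (min_le_left _ _)
    have hx2 : max (max (F.X i) (F.X j)) (max (F.X k) (F.X j)) < F.X k + F.p k := by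
      refine max_lt ?_ (max_lt (by linarith [F.pos k]) h2')
      exact lt_of_lt_of_le hc2 (min_le_left _ _)
    have hx3 : F.X i ≤ max (max (F.X i) (F.X j)) (max (F.X k) (F.X j)) :=
      le_trans (le_max_left _ _) (le_max_left _ _)
    have hx4 : F.X k ≤ max (max (F.X i) (F.X j)) (max (F.X k) (F.X j)) :=
      le_trans (le_max_left _ _) (le_max_right _ _)
    exact hik (F.un1 _ (F.Y j + F.p j) i k hx3 hx1 h1.ge (by linarith [F.pos i]) hx4 hx2
      h1'.ge (by linarith [F.pos k]))

end Fam

end Pool.Agent.Helper32.SQ
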