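import Pool.Agent.Helper32.SQ.Sq2

/-!
# MP_309e91_co : vertices, edges, sides; unilateral tilings
-/

set_option autoImplicit false

namespace Pool.Agent.Helper32.SQ

open Complex Filter Topology

/-- a vertex: a point lying in three or more tiles -/
def IsVert (𝒯 : Set (Set ℂ)) (z : ℂ) : Prop :=
  ∃ T₁ ∈ 𝒯, ∃ T₂ ∈ 𝒯, ∃ T₃ ∈ 𝒯, T₁ ≠ T₂ ∧ T₁ ≠ T₃ ∧ T₂ ≠ T₃ ∧ z ∈ T₁ ∧ z ∈ T₂ ∧ z ∈ T₃

/-- an edge: a segment of a tile boundary that joins two vertices and contains no other vertex -/
def IsEdge (𝒯 : Set (Set ℂ)) (e : Set ℂ) : Prop :=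
  ∃ z w : ℂ, z ≠ w ∧ IsVert 𝒯 z ∧ IsVert 𝒯 w ∧ e = segment ℝ z w ∧ (∃ T ∈ 𝒯, e ⊆ frontier T) ∧
    ∀ v ∈ e, IsVert 𝒯 v → v = z ∨ v = w

/-- a side of a square -/
def IsSide (e T : Set ℂ) : Prop :=
  ∃ (s : ℝ) (b a : ℂ), 0 < s ∧ ‖a‖ = 1 ∧ T = sq b a s ∧ e = segment ℝ b (b + a * s)

/-- unilateral: every edge is a side of at most one tile -/
def Uni (𝒯 : Set (Set ℂ)) : Prop :=
  ∀ e, IsEdge 𝒯 e → ∀ T ∈ 𝒯, ∀ T' ∈ 𝒯, IsSide e T → IsSide e T' → T = T'

namespace Frm

variable {𝒯 : Set (Set ℂ)} (F : Frm 𝒯)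

/-- the rotated frame -/
noncomputable def rot : Frm 𝒯 where
  a := I * F.a
  b T := F.b T + F.a * F.s T
  s := F.s
  δ := F.δ
  D := F.D
  ha := by rw [norm_mul, norm_I, F.ha, one_mul]
  hδ := F.hδ
  hs := F.hs
  hD := F.hD
  eq T hT := by
    rw [sq_I, add_sub_cancel_right]
    exact F.eq T hT
  cov := F.cov
  dis := F.dis

theorem co_eq {z w : ℂ} (h1 : (co F.a z).re = (co F.a w).re) (h2 : (co F.a z).im = (co F.a w).im) :
    z = w := by
  rw [← a_mul_co F.ha z, ← a_mul_co F.ha w, Complex.ext h1 h2]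

/-- two tiles with a common interior point -/
theorem same {T T' : Set ℂ} (hT : T ∈ 𝒯) (hT' : T' ∈ 𝒯) {x y : ℝ}
    (h1 : (co F.a (F.b T)).re < x) (h2 : x < (co F.a (F.b T)).re + F.s T)
    (h3 : (co F.a (F.b T)).im < y) (h4 : y < (co F.a (F.b T)).im + F.s T)
    (h5 : (co F.a (F.b T')).re < x) (h6 : x < (co F.a (F.b T')).re + F.s T')
    (h7 : (co F.a (F.b T')).im < y) (h8 : y < (co F.a (F.b T')).im + F.s T') : T = T' :=
  congrArg Subtype.val (F.boxes.dis x y ⟨T, hT⟩ ⟨T', hT'⟩ h1 h2 h3 h4 h5 h6 h7 h8)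

/-- In a unilateral tiling two congruent tiles do not share a side. -/
theorem no_side (hu : Uni 𝒯) {T T' : Set ℂ} (hT : T ∈ 𝒯) (hT' : T' ∈ 𝒯) (hs : F.s T' = F.s T)
    (hb : F.b T' = F.b T + F.a * F.s T) : False := by
  have hpos := F.pos hT
  have ha := F.ha
  have hane := a_ne_zero ha
  set s := F.s T with hsdef
  set c := F.b T' with hc
  have hne : T ≠ T' := by
    intro h
    rw [hc, ← h] at hb
    have h1 : F.a * (s : ℂ) = 0 := by linear_combination -hb
    rcases mul_eq_zero.1 h1 with h2 | h2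
    · exact hane h2
    · exact hpos.ne' (by exact_mod_cast h2)
  -- coordinates
  have hcob : co F.a (F.b T) = co F.a c - s := by
    rw [hb, co_add, co_a_mul ha]
    ring
  have hre : (co F.a (F.b T)).re = (co F.a c).re - s := by
    rw [hcob]; simp
  have him : (co F.a (F.b T)).im = (co F.a c).im := by
    rw [hcob]; simp
  have hcot : ∀ t : ℝ, (co F.a (c + F.a * (t * I))).re = (co F.a c).re ∧
      (co F.a (c + F.a * (t * I))).im = (co F.a c).im + t := by
    intro t
    rw [co_add, co_a_mul ha]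
    constructor <;> simp
  have memT : ∀ t : ℝ, 0 ≤ t → t ≤ s → c + F.a * (t * I) ∈ T := by
    intro t h1 h2
    rw [F.mem_iff hT, (hcot t).1, (hcot t).2, hre, him, ← hsdef]
    exact ⟨⟨by linarith, by linarith⟩, by linarith, by linarith⟩
  have memT' : ∀ t : ℝ, 0 ≤ t → t ≤ s → c + F.a * (t * I) ∈ T' := by
    intro t h1 h2
    rw [F.mem_iff hT', (hcot t).1, (hcot t).2, ← hc, hs]
    exact ⟨⟨by linarith, by linarith⟩, by linarith, by linarith⟩
  have hc0 : c + F.a * (((0 : ℝ) : ℂ) * I) = c := by simp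
  -- the two vertices
  have v1 : IsVert 𝒯 c := by
    obtain ⟨i, h1, h2, h3, h4⟩ := F.boxes.ex2 (co F.a c).re (co F.a c).im
    change (co F.a (F.b i)).re ≤ _ at h1
    change _ < (co F.a (F.b i)).re + F.s i at h2
    change (co F.a (F.b i)).im < _ at h3
    change _ ≤ (co F.a (F.b i)).im + F.s i at h4
    refine ⟨T, hT, T', hT', i, i.2, hne, ?_, ?_, ?_, ?_, ?_⟩
    · intro h
      rw [← h, him] at h3
      exact lt_irrefl _ h3
    · intro h
      rw [← h, ← hc] at h3
      exact lt_irrefl _ h3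
    · have := memT 0 le_rfl hpos.le
      rwa [hc0] at this
    · have := memT' 0 le_rfl hpos.le
      rwa [hc0] at this
    · rw [F.mem_iff i.2]
      exact ⟨⟨h1, h2.le⟩, h3.le, h4⟩
  have v2 : IsVert 𝒯 (c + F.a * (s * I)) := by
    obtain ⟨i, h1, h2, h3, h4⟩ := F.boxes.ex1 (co F.a c).re ((co F.a c).im + s)
    change (co F.a (F.b i)).re ≤ _ at h1
    change _ < (co F.a (F.b i)).re + F.s i at h2
    change (co F.a (F.b i)).im ≤ _ at h3
    change _ < (co F.a (F.b i)).im + F.s i at h4
    refine ⟨T, hT, T', hT', i, i.2, hne, ?_, ?_, memT s hpos.le le_rfl, memT' s hpos.le le_rfl, ?_⟩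
    · intro h
      rw [← h, him, ← hsdef] at h4
      exact lt_irrefl _ h4
    · intro h
      rw [← h, ← hc, hs] at h4
      exact lt_irrefl _ h4
    · rw [F.mem_iff i.2, (hcot s).1, (hcot s).2]
      exact ⟨⟨h1, h2.le⟩, h3, h4.le⟩
  -- points of the segment
  have hseg : ∀ v ∈ segment ℝ c (c + F.a * (s * I)), ∃ t : ℝ, 0 ≤ t ∧ t ≤ s ∧
      v = c + F.a * (t * I) := by
    rintro v ⟨p, q, hp, hq, hpq, rfl⟩
    refine ⟨q * s, mul_nonneg hq hpos.le, ?_, ?_⟩
    · nlinarith
    · rw [real_smul, real_smul]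
      have h1 : (p : ℂ) = 1 - q := by
        have h2 : p = 1 - q := by linarith
        rw [h2]
        push_cast
        ring
      rw [h1]
      push_cast
      ring
  have hedge : IsEdge 𝒯 (segment ℝ c (c + F.a * (s * I))) := by
    refine ⟨c, c + F.a * (s * I), ?_, v1, v2, rfl, ⟨T, hT, ?_⟩, ?_⟩
    · intro h
      have h1 : F.a * ((s : ℂ) * I) = 0 := by linear_combination -h
      rcases mul_eq_zero.1 h1 with h2 | h2
      · exact hane h2
      · rcases mul_eq_zero.1 h2 with h3 | h3
        · exact hpos.ne' (by exact_mod_cast h3)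
        · exact I_ne_zero h3
    · intro v hv
      obtain ⟨t, ht0, ht1, rfl⟩ := hseg v hv
      have hcl : IsClosed T := by
        rw [F.eq T hT]
        exact isClosed_sq ha
      rw [hcl.frontier_eq]
      refine ⟨memT t ht0 ht1, ?_⟩
      intro hint
      rw [F.eq T hT] at hint
      have h1 := (of_mem_interior_sq ha hint).1.2
      rw [co_sub, sub_re, (hcot t).1, hre] at h1
      linarith
    · intro v hv hvert
      obtain ⟨t, ht0, ht1, rfl⟩ := hseg v hv
      by_contra hcon
      push Not at hcon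
      have ht0' : 0 < t := by
        rcases eq_or_lt_of_le ht0 with h | h
        · exfalso
          apply hcon.1
          rw [← h]
          exact hc0
        · exact h
      have ht1' : t < s := by
        rcases eq_or_lt_of_le ht1 with h | h
        · exfalso
          apply hcon.2
          rw [h]
        · exact h
      -- a tile through the point is one of the two
      have two : ∀ U ∈ 𝒯, c + F.a * (t * I) ∈ U → U = T ∨ U = T' := by
        intro U hU hm
        have hUpos := F.pos hU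
        rw [F.mem_iff hU, (hcot t).1, (hcot t).2] at hm
        obtain ⟨⟨m1, m2⟩, m3, m4⟩ := hm
        obtain ⟨y, y1, y2⟩ := exists_between (show max (co F.a (F.b U)).im (co F.a c).im <
          min ((co F.a (F.b U)).im + F.s U) ((co F.a c).im + s) by
            refine max_lt (lt_min ?_ ?_) (lt_min ?_ ?_) <;> linarith)
        rw [max_lt_iff] at y1
        rw [lt_min_iff] at y2
        rcases eq_or_lt_of_le m1 with m1' | m1'
        · -- the tile is to the right
          right
          obtain ⟨x, x1, x2⟩ := exists_between (show (co F.a c).re <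
            min ((co F.a (F.b U)).re + F.s U) ((co F.a c).re + s) by
              refine lt_min ?_ ?_ <;> linarith)
          rw [lt_min_iff] at x2
          refine F.same hU hT' (x := x) (y := y) ?_ x2.1 y1.1 y2.1 ?_ ?_ ?_ ?_
          · rw [m1']; exact x1
          · exact x1
          · rw [hs]; exact x2.2
          · exact y1.2
          · rw [hs]; exact y2.2
        · left
          obtain ⟨x, x1, x2⟩ := exists_between (show max (co F.a (F.b U)).re ((co F.a c).re - s) <
            (co F.a c).re by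
              refine max_lt ?_ ?_ <;> linarith)
          rw [max_lt_iff] at x1
          refine F.same hU hT (x := x) (y := y) x1.1 ?_ y1.1 y2.1 ?_ ?_ ?_ ?_
          · linarith
          · rw [hre]; exact x1.2
          · rw [hre]; linarith
          · rw [him]; exact y1.2
          · rw [him]; exact y2.2
      obtain ⟨T₁, h₁, T₂, h₂, T₃, h₃, h12, h13, h23, m1, m2, m3⟩ := hvert
      rcases two T₁ h₁ m1 with e1 | e1 <;> rcases two T₂ h₂ m2 with e2 | e2 <;>
        rcases two T₃ h₃ m3 with e3 | e3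
      · exact h12 (e1.trans e2.symm)
      · exact h12 (e1.trans e2.symm)
      · exact h13 (e1.trans e3.symm)
      · exact h23 (e2.trans e3.symm)
      · exact h23 (e2.trans e3.symm)
      · exact h13 (e1.trans e3.symm)
      · exact h12 (e1.trans e2.symm)
      · exact h12 (e1.trans e2.symm)
  have s1 : IsSide (segment ℝ c (c + F.a * (s * I))) T := by
    refine ⟨s, c, I * F.a, hpos, by rw [norm_mul, norm_I, ha, one_mul], ?_, ?_⟩
    · rw [sq_I]
      have h1 : c - F.a * s = F.b T := by rw [hb]; ring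
      rw [h1]
      exact F.eq T hT
    · congr 1
      ring
  have s2 : IsSide (segment ℝ c (c + F.a * (s * I))) T' := by
    refine ⟨s, c + F.a * (s * I), -(I * F.a), hpos, by
      rw [norm_neg, norm_mul, norm_I, ha, one_mul], ?_, ?_⟩
    · have h1 := sq_I c (-(I * F.a)) s
      have h2 : I * -(I * F.a) = F.a := by
        linear_combination -F.a * I_sq
      rw [h2] at h1
      have h3 : c - -(I * F.a) * s = c + F.a * (s * I) := by ring
      rw [h3] at h1
      rw [← h1]
      have h4 := F.eq T' hT'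
      rw [hs] at h4
      exact h4
    · rw [segment_symm]
      congr 1
      ring
  exact hne (hu _ hedge T hT T' hT' s1 s2)

/-- The same for the sides in the other direction. -/
theorem no_side' (hu : Uni 𝒯) {T T' : Set ℂ} (hT : T ∈ 𝒯) (hT' : T' ∈ 𝒯) (hs : F.s T' = F.s T)
    (hb : F.b T' = F.b T + F.a * (F.s T * I)) : False := by
  refine F.rot.no_side hu hT hT' hs ?_
  show F.b T' + F.a * F.s T' = F.b T + F.a * F.s T + I * F.a * F.s T
  rw [hb, hs]
  ring

end Frm

end Pool.Agent.Helper32.SQ
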