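import Pool.Agent.Helper32.SQ.Walk

/-!
# MP_309e91_co : the energy identity with bounded relations
-/

set_option autoImplicit false

namespace Pool.Agent.Helper32.SQ

open Finset

namespace Dat

variable {ι : Type*} {r : ℕ} (D : Dat ι r)

/-- base tiles of the components of the contact graph -/
structure Base where
  o : D.Q → ι
  eq : ∀ q q', D.G.Reachable q q' → o q = o q'
  conn : ∀ q, D.G.Reachable (D.cl (o q)) q

theorem exists_base : Nonempty D.Base := by
  classical
  refine ⟨{ o := fun q => (Quot.out (D.G.connectedComponentMk q) : D.Q).out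
            eq := ?_
            conn := ?_ }⟩
  · intro q q' h
    rw [SimpleGraph.ConnectedComponent.eq.2 h]
  · intro q
    rw [cl_out]
    exact SimpleGraph.ConnectedComponent.eq.1 (Quot.out_eq _)

variable {D}

/-- the displacements of short closed walks -/
def Base.W (b : D.Base) (n : ℕ) : Set (Fin r → ℤ) :=
  {ρ | ∃ q, ∃ m, m ≤ n ∧ ∃ j, D.cl j = D.cl (b.o q) ∧ D.Wk m (b.o q) j ρ}

theorem ev_sum {R κ : Type*} [CommRing R] (s : Finset κ) (e : κ → ℤ) (k : κ → Fin r)
    (g : Fin r → R) :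
    ev (∑ q ∈ s, e q • (Pi.single (k q) (1 : ℤ) : Fin r → ℤ)) g = ∑ q ∈ s, (e q : R) * g (k q) := by
  classical
  induction s using Finset.induction_on with
  | empty => simp [ev_zero]
  | insert a s ha ih => rw [sum_insert ha, sum_insert ha, ev_add, ev_smul, ev_single, ih]

theorem bd_sum {κ : Type*} [Fintype κ] (e : κ → ℤ) (he : ∀ q, |e q| ≤ 1) (k : κ → Fin r)
    (l : Fin r) :
    |(∑ q, e q • (Pi.single (k q) (1 : ℤ) : Fin r → ℤ)) l| ≤ Fintype.card κ := by
  rw [Finset.sum_apply]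
  refine (Finset.abs_sum_le_sum_abs _ _).trans ?_
  have h : ∀ q ∈ (univ : Finset κ),
      |(e q • (Pi.single (k q) (1 : ℤ) : Fin r → ℤ)) l| ≤ 1 := by
    intro q _
    rw [Pi.smul_apply, smul_eq_mul, abs_mul]
    have h1 : |(Pi.single (k q) (1 : ℤ) : Fin r → ℤ) l| ≤ 1 := by
      rw [Pi.single_apply]
      split_ifs <;> simp
    exact mul_le_one₀ (he q) (abs_nonneg _) h1
  refine (Finset.sum_le_sum h).trans ?_
  simp

/-- THE ENERGY IDENTITY -/
theorem energy (b : D.Base) {n : ℕ} (hn : 2 * Nat.card D.Q + 1 ≤ n) (f : Fin r → ℚ)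
    (hf : ∀ ρ : Fin r → ℤ, (∀ k, |ρ k| ≤ Nat.card D.Q) → ev ρ D.P = 0 → ev ρ f = 0)
    (hW : ∀ ρ ∈ b.W n, ev ρ f = 0) (i : ι) : f (D.k i) = 0 := by
  classical
  have := D.fin
  have : Fintype D.Q := Fintype.ofFinite _
  -- the potential
  have h1 : ∀ q : D.Q, ∃ (m : ℕ) (j : ι) (ρ : Fin r → ℤ),
      m ≤ Nat.card D.Q ∧ D.cl j = q ∧ D.Wk m (b.o q) j ρ :=
    fun q => short_walk (b.conn q) _ rfl
  choose m j ρ hm hj hw using h1
  set u : D.Q → ℚ := fun q => ev (ρ q) f with hu_def
  have hu : ∀ i₁ j₁, D.F.Tch i₁ j₁ → u (D.cl i₁) = u (D.cl j₁) + f (D.k j₁) := by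
    intro i₁ j₁ ht
    obtain ⟨v, hv, hv1⟩ := cl_eq.1 (hj (D.cl j₁)).symm
    obtain ⟨i₂, hi₂, -⟩ := D.inv v hv i₁
    have ht2 : D.F.Tch i₂ (j (D.cl j₁)) := ht.congr D.inv hv hi₂ hv1
    have hcl : D.cl i₂ = D.cl i₁ := (cl_eq.2 ⟨v, hv, hi₂⟩).symm
    obtain ⟨w, hw', hw1⟩ := cl_eq.1 ((hj (D.cl i₁)).trans hcl.symm)
    obtain ⟨o', ho', -⟩ := D.inv w hw' (b.o (D.cl i₁))
    have w1 := (hw (D.cl j₁)).up ht2
    have w2 := (hw (D.cl i₁)).symm.tr hw' hw1 ho'
    have w3 := w1.trans w2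
    have hb : b.o (D.cl j₁) = b.o (D.cl i₁) := by
      apply b.eq
      by_cases h : D.cl j₁ = D.cl i₁
      · rw [h]
      · exact SimpleGraph.Adj.reachable ⟨h, j₁, i₁, rfl, rfl, Or.inr ht⟩
    have h2 : D.cl o' = D.cl (b.o (D.cl j₁)) := by
      rw [hb]
      exact (cl_eq.2 ⟨w, hw', ho'⟩).symm
    have h3 := hW _ ⟨D.cl j₁, _, by
      have := hm (D.cl j₁)
      have := hm (D.cl i₁)
      omega, o', h2, w3⟩
    rw [ev_add, ev_add, ev_neg, ev_single, k_eq (hj (D.cl j₁))] at h3
    rw [hu_def]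
    dsimp only
    linarith
  have hB : ∀ i j, j ∈ (D.lf i).toFinset ↔ D.F.Tch i j := fun i j => by
    rw [Set.Finite.mem_toFinset, Set.mem_ofPred_eq]
  have hT : ∀ i j, i ∈ (D.lf' j).toFinset ↔ D.F.Tch i j := fun i j => by
    rw [Set.Finite.mem_toFinset, Set.mem_ofPred_eq]
  -- the top values
  set t : D.Q → ℚ := fun q => u q + f (D.k q.out) with ht_def
  set e : ℚ → D.Q → ℤ := fun c q => (if u q = c then 1 else 0) - (if t q = c then 1 else 0)
    with he_def
  have he1 : ∀ c q, |e c q| ≤ 1 := by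
    intro c q
    simp only [he_def]
    split_ifs <;> simp
  have key : ∀ c : ℚ, ∑ q : D.Q, (e c q : ℝ) * D.P (D.k q.out) = 0 := by
    intro c
    have h2 := Fam.transport D.inv (fun i => (D.lf i).toFinset) (fun j => (D.lf' j).toFinset)
      hB hT (fun i j => if u (D.cl i) = c then D.F.ov i j else 0) (by
        intro v hv i j i' j' hi hj _
        have h3 : D.cl i' = D.cl i := (cl_eq.2 ⟨v, hv, hi⟩).symm
        rw [h3, Fam.ov_congr D.inv hv hi hj])
    have h3 : ∀ q : D.Q, ∑ j ∈ (D.lf q.out).toFinset,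
        (if u (D.cl q.out) = c then D.F.ov q.out j else 0) =
          (if u q = c then 1 else 0) * D.P (D.k q.out) := by
      intro q
      rw [cl_out]
      split_ifs with h
      · have := D.F.sum_below (AddMonoidHom.id ℝ) q.out _ (hB q.out)
        simp only [AddMonoidHom.id_apply] at this
        rw [this, one_mul, D.hp]
      · simp
    have h4 : ∀ q : D.Q, ∑ i ∈ (D.lf' q.out).toFinset,
        (if u (D.cl i) = c then D.F.ov i q.out else 0) =
          (if t q = c then 1 else 0) * D.P (D.k q.out) := by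
      intro q
      have h5 : ∀ i ∈ (D.lf' q.out).toFinset,
          (if u (D.cl i) = c then D.F.ov i q.out else 0) =
            (if t q = c then D.F.ov i q.out else 0) := by
        intro i hi
        rw [hu _ _ ((hT _ _).1 hi), cl_out]
      rw [sum_congr rfl h5]
      split_ifs with h
      · have := D.F.sum_above (AddMonoidHom.id ℝ) q.out _ (fun i => hT i q.out)
        simp only [AddMonoidHom.id_apply] at this
        rw [this, one_mul, D.hp]
      · simp
    have h5 := (sum_congr rfl fun q _ => (h3 q).symm).trans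
      (h2.trans (sum_congr rfl fun q _ => h4 q))
    rw [← sub_eq_zero, ← sum_sub_distrib] at h5
    rw [← h5]
    refine sum_congr rfl fun q _ => ?_
    rw [he_def]
    push_cast
    ring
  have key2 : ∀ c : ℚ, ∑ q : D.Q, (e c q : ℚ) * f (D.k q.out) = 0 := by
    intro c
    have h2 := hf (∑ q : D.Q, e c q • (Pi.single (D.k q.out) (1 : ℤ) : Fin r → ℤ)) (by
      intro k
      rw [Nat.card_eq_fintype_card]
      exact bd_sum _ (he1 c) _ k) (by rw [ev_sum]; exact key c)
    rwa [ev_sum] at h2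
  set S : Finset ℚ := univ.image u ∪ univ.image t with hS
  have h2 : ∑ c ∈ S, c * ∑ q : D.Q, (e c q : ℚ) * f (D.k q.out) = 0 :=
    sum_eq_zero fun c _ => by rw [key2, mul_zero]
  have h3 : ∀ q : D.Q, ∑ c ∈ S, c * ((e c q : ℚ) * f (D.k q.out)) =
      -(f (D.k q.out) * f (D.k q.out)) := by
    intro q
    have h4 : u q ∈ S := mem_union_left _ (mem_image_of_mem _ (mem_univ q))
    have h5 : t q ∈ S := mem_union_right _ (mem_image_of_mem _ (mem_univ q))
    have h6 : ∀ c ∈ S, c * ((e c q : ℚ) * f (D.k q.out)) =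
        (if u q = c then c else 0) * f (D.k q.out) -
          (if t q = c then c else 0) * f (D.k q.out) := by
      intro c _
      rw [he_def]
      push_cast
      split_ifs <;> ring
    rw [sum_congr rfl h6, sum_sub_distrib, ← sum_mul, ← sum_mul, sum_ite_eq, sum_ite_eq,
      if_pos h4, if_pos h5, ht_def]
    ring
  simp only [mul_sum] at h2
  rw [sum_comm, sum_congr rfl fun q _ => h3 q, sum_neg_distrib, neg_eq_zero] at h2
  have h4 := (sum_eq_zero_iff_of_nonneg (fun q _ => mul_self_nonneg _)).1 h2 (D.cl i) (mem_univ _)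
  have h5 : f (D.k (D.cl i).out) = 0 := mul_self_eq_zero.1 h4
  rwa [k_eq (cl_out (D.cl i))] at h5

end Dat

end Pool.Agent.Helper32.SQ
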