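import Pool.Agent.Helper32.SQ.Pic

/-!
# MP_309e91_co : a tiling has a good finite presentation
-/

set_option autoImplicit false

namespace Pool.Agent.Helper32.SQ

namespace Per

variable {ι Q : Type} {r : ℕ} (p : Per ι Q r)

theorem sepΛ (top : Fin r) {v : ℝ × ℝ} (hv : v ∈ p.Λ) (h1 : |v.1| < p.P top)
    (h2 : |v.2| < p.P top) : v = 0 := by
  obtain ⟨i, hi⟩ := p.surj top
  obtain ⟨i', hx, hy, hk⟩ := p.tr v hv i
  rw [abs_lt] at h1 h2
  by_cases h : i = i'
  · subst h
    exact Prod.ext (by rw [Prod.fst_zero]; linarith) (by rw [Prod.snd_zero]; linarith)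
  · have g := p.sep i i' h
    rw [hk, hi, hx, hy] at g
    exfalso
    rcases g with g | g | g | g <;> linarith [h1.1, h1.2, h2.1, h2.2]

theorem exists_u₁ [Fintype Q] {top : Fin r} (htop : ∀ i, p.P i ≤ p.P top) : ∃ v ∈ p.Λ,
    3 * p.P top ≤ v.1 ∧ v.1 ≤ (4 * Fintype.card Q + 1 : ℕ) * p.P top ∧ |v.2| ≤ p.P top := by
  have hM := p.pos top
  have h1 : ∀ j : Fin (Fintype.card Q + 1), ∃ i, p.X i ≤ 4 * j * p.P top ∧
      4 * j * p.P top ≤ p.X i + p.P (p.k i) ∧ p.Y i ≤ 0 ∧ 0 ≤ p.Y i + p.P (p.k i) :=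
    fun j => p.cov _ _
  choose i hi1 hi2 hi3 hi4 using h1
  choose q v hv hX hY _hk using fun j => p.hrep (i j)
  obtain ⟨j, j', hne, heq⟩ := Fintype.exists_ne_map_eq_of_card_lt q (by simp)
  have key : ∀ j j' : Fin (Fintype.card Q + 1), j < j' → q j = q j' → ∃ v ∈ p.Λ,
      3 * p.P top ≤ v.1 ∧ v.1 ≤ (4 * Fintype.card Q + 1 : ℕ) * p.P top ∧ |v.2| ≤ p.P top := by
    intro j j' hlt heq
    refine ⟨v j' - v j, p.Λ.sub_mem (hv j') (hv j), ?_⟩
    have hX' := hX j'
    have hY' := hY j'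
    rw [← heq] at hX' hY'
    have e1 : (v j' - v j).1 = p.X (i j') - p.X (i j) := by
      rw [Prod.fst_sub, hX', hX j]
      ring
    have e2 : (v j' - v j).2 = p.Y (i j') - p.Y (i j) := by
      rw [Prod.snd_sub, hY', hY j]
      ring
    rw [e1, e2]
    have g1 := htop (p.k (i j))
    have g2 := htop (p.k (i j'))
    have g3 : (j : ℝ) + 1 ≤ j' := by
      have : (j : ℕ) + 1 ≤ j' := hlt
      exact_mod_cast this
    have g4 : (j' : ℝ) ≤ Fintype.card Q := by
      have : (j' : ℕ) ≤ Fintype.card Q := by have := j'.2; omega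
      exact_mod_cast this
    have g5 : (0 : ℝ) ≤ j := by positivity
    have a1 := hi1 j
    have a2 := hi2 j
    have a3 := hi1 j'
    have a4 := hi2 j'
    have a5 := hi3 j
    have a6 := hi4 j
    have a7 := hi3 j'
    have a8 := hi4 j'
    refine ⟨?_, ?_, ?_⟩
    · nlinarith
    · push_cast
      nlinarith
    · rw [abs_le]
      constructor <;> linarith
  rcases lt_or_gt_of_ne hne with h | h
  · exact key j j' h heq
  · exact key j' j h heq.symm

theorem exists_u₂ [Fintype Q] {top : Fin r} (htop : ∀ i, p.P i ≤ p.P top) : ∃ v ∈ p.Λ,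
    3 * p.P top ≤ v.2 ∧ v.2 ≤ (4 * Fintype.card Q + 1 : ℕ) * p.P top ∧ |v.1| ≤ p.P top := by
  have hM := p.pos top
  have h1 : ∀ j : Fin (Fintype.card Q + 1), ∃ i, p.X i ≤ 0 ∧ 0 ≤ p.X i + p.P (p.k i) ∧
      p.Y i ≤ 4 * j * p.P top ∧ 4 * j * p.P top ≤ p.Y i + p.P (p.k i) :=
    fun j => p.cov _ _
  choose i hi3 hi4 hi1 hi2 using h1
  choose q v hv hX hY _hk using fun j => p.hrep (i j)
  obtain ⟨j, j', hne, heq⟩ := Fintype.exists_ne_map_eq_of_card_lt q (by simp)
  have key : ∀ j j' : Fin (Fintype.card Q + 1), j < j' → q j = q j' → ∃ v ∈ p.Λ,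
      3 * p.P top ≤ v.2 ∧ v.2 ≤ (4 * Fintype.card Q + 1 : ℕ) * p.P top ∧ |v.1| ≤ p.P top := by
    intro j j' hlt heq
    refine ⟨v j' - v j, p.Λ.sub_mem (hv j') (hv j), ?_⟩
    have hX' := hX j'
    have hY' := hY j'
    rw [← heq] at hX' hY'
    have e1 : (v j' - v j).1 = p.X (i j') - p.X (i j) := by
      rw [Prod.fst_sub, hX', hX j]
      ring
    have e2 : (v j' - v j).2 = p.Y (i j') - p.Y (i j) := by
      rw [Prod.snd_sub, hY', hY j]
      ring
    rw [e1, e2]
    have g1 := htop (p.k (i j))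
    have g2 := htop (p.k (i j'))
    have g3 : (j : ℝ) + 1 ≤ j' := by
      have : (j : ℕ) + 1 ≤ j' := hlt
      exact_mod_cast this
    have g4 : (j' : ℝ) ≤ Fintype.card Q := by
      have : (j' : ℕ) ≤ Fintype.card Q := by have := j'.2; omega
      exact_mod_cast this
    have g5 : (0 : ℝ) ≤ j := by positivity
    have a1 := hi1 j
    have a2 := hi2 j
    have a3 := hi1 j'
    have a4 := hi2 j'
    have a5 := hi3 j
    have a6 := hi4 j
    have a7 := hi3 j'
    have a8 := hi4 j'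
    refine ⟨?_, ?_, ?_⟩
    · nlinarith
    · push_cast
      nlinarith
    · rw [abs_le]
      constructor <;> linarith
  rcases lt_or_gt_of_ne hne with h | h
  · exact key j j' h heq
  · exact key j' j h heq.symm

/-- THE EXTRACTION -/
theorem good [Fintype Q] {c : ℕ} (hcQ : 4 * Fintype.card Q + 1 ≤ c) (hc2 : 2 ≤ c) :
    ∃ (k' : Q → Fin r) (top : Fin r) (S : Sys Q r), S.P = p.P ∧ Function.Surjective k' ∧
      Good k' top c ((12 * c + 1) ^ 2) S := by
  classical
  obtain ⟨i₁, -⟩ := p.cov 0 0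
  have : Nonempty (Fin r) := ⟨p.k i₁⟩
  obtain ⟨top, htop⟩ := Finite.exists_max p.P
  set M := p.P top with hMdef
  have hM : 0 < M := p.pos top
  have hc1 : (2 : ℝ) ≤ c := by exact_mod_cast hc2
  have hcM : 2 * M ≤ c * M := by nlinarith
  have hsep : ∀ v ∈ p.Λ, |v.1| < M → |v.2| < M → v = 0 := fun v hv h1 h2 => p.sepΛ top hv h1 h2
  have hcQ' : ((4 * Fintype.card Q + 1 : ℕ) : ℝ) ≤ c := by exact_mod_cast hcQ
  obtain ⟨w₁, hw₁, a1, a2, a3⟩ := p.exists_u₁ htop
  obtain ⟨w₂, hw₂, b1, b2, b3⟩ := p.exists_u₂ htop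
  obtain ⟨u, v, hu, hv, hd, ⟨hu1, hu2⟩, ⟨hv1, hv2⟩, hbas⟩ := lat_basis hM hsep (by omega) hw₁ hw₂
    a1 (a2.trans (mul_le_mul_of_nonneg_right hcQ' hM.le)) a3
    b1 (b2.trans (mul_le_mul_of_nonneg_right hcQ' hM.le)) b3
  -- bounded coefficients
  have hcoef : ∀ m n : ℤ, |(cmb u v m n).1| ≤ 5 * c * M → |(cmb u v m n).2| ≤ 5 * c * M →
      |m| < ((12 * c + 1) ^ 2 : ℕ) ∧ |n| < ((12 * c + 1) ^ 2 : ℕ) := by
    intro m n h1 h2
    have h3 := lat_coefs hM hsep (c := c) (C := 5 * c) hu hv hd hu1 hu2 hv1 hv2 (m := m) (n := n)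
      (by push_cast; exact h1) (by push_cast; exact h2)
    have h4 : (2 * ((5 * c : ℕ) + (c : ℤ)) + 1) ^ 2 = (((12 * c + 1) ^ 2 : ℕ) : ℤ) := by
      push_cast
      ring
    have h5 : ((2 * (((5 * c : ℕ) : ℤ) + (c : ℤ)) + 1) ^ 2 : ℤ) = (((12 * c + 1) ^ 2 : ℕ) : ℤ) := h4
    rw [h5] at h3
    exact h3
  -- representatives near the origin
  have hnear : ∀ q : Q, ∃ i : ι, p.k i = p.k (p.rep q) ∧
      (∃ w ∈ p.Λ, p.X i = p.X (p.rep q) + w.1 ∧ p.Y i = p.Y (p.rep q) + w.2) ∧
      |p.X i| ≤ c * M ∧ |p.Y i| ≤ c * M := by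
    intro q
    obtain ⟨s, t, hs, ht⟩ := dt_solve hd (p.X (p.rep q), p.Y (p.rep q))
    dsimp only at hs ht
    obtain ⟨i, hx, hy, hk⟩ := p.tr _ (p.Λ.neg_mem (cmb_mem hu hv (round s) (round t))) (p.rep q)
    refine ⟨i, hk, ⟨_, p.Λ.neg_mem (cmb_mem hu hv (round s) (round t)), hx, hy⟩, ?_, ?_⟩
    · have e1 : p.X i = (s - round s) * u.1 + (t - round t) * v.1 := by
        rw [hx, hs, Prod.fst_neg]
        simp only [cmb]
        ring
      rw [e1]
      have g1 := abs_half (abs_sub_round s) hu1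
      have g2 := abs_half (abs_sub_round t) hv1
      have g3 := abs_add_le ((s - round s) * u.1) ((t - round t) * v.1)
      linarith
    · have e1 : p.Y i = (s - round s) * u.2 + (t - round t) * v.2 := by
        rw [hy, ht, Prod.snd_neg]
        simp only [cmb]
        ring
      rw [e1]
      have g1 := abs_half (abs_sub_round s) hu2
      have g2 := abs_half (abs_sub_round t) hv2
      have g3 := abs_add_le ((s - round s) * u.2) ((t - round t) * v.2)
      linarith
  choose nr hnk hnw hnX hnY using hnear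
  -- every tile is a translate of a near representative
  have htile : ∀ i : ι, ∃ (q : Q) (m n : ℤ), p.X i = p.X (nr q) + (cmb u v m n).1 ∧
      p.Y i = p.Y (nr q) + (cmb u v m n).2 ∧ p.k i = p.k (nr q) := by
    intro i
    obtain ⟨q, w, hw, hX, hY, hk⟩ := p.hrep i
    obtain ⟨w', hw', hX', hY'⟩ := hnw q
    obtain ⟨m, n, hmn⟩ := hbas (w - w') (p.Λ.sub_mem hw hw')
    refine ⟨q, m, n, ?_, ?_, ?_⟩
    · rw [← hmn, Prod.fst_sub, hX, hX']
      ring
    · rw [← hmn, Prod.snd_sub, hY, hY']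
      ring
    · rw [hk, hnk]
  have hmk : ∀ (q : Q) (m n : ℤ), ∃ i : ι, p.X i = p.X (nr q) + (cmb u v m n).1 ∧
      p.Y i = p.Y (nr q) + (cmb u v m n).2 ∧ p.k i = p.k (nr q) := by
    intro q m n
    exact p.tr _ (cmb_mem hu hv m n) (nr q)
  set S : Sys Q r := ⟨p.P, fun q => p.X (nr q), fun q => p.Y (nr q), u, v⟩ with hS
  refine ⟨fun q => p.k (nr q), top, S, rfl, ?_, ?_⟩
  · intro j
    obtain ⟨i, hi⟩ := p.surj j
    obtain ⟨q, m, n, -, -, hk⟩ := htile i
    exact ⟨q, by rw [← hi, hk]⟩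
  · refine { pos := p.pos, top_le := htop, u1 := hu1, u2 := hu2, v1 := hv1, v2 := hv2,
             bx := hnX, by' := hnY, far := ?_, cov := ?_, sep := ?_, sym := ?_, uni := ?_ }
    · intro m n _ _ hmn
      by_contra hcon
      push Not at hcon
      obtain ⟨h1, h2⟩ := hcoef m n hcon.1 hcon.2
      rcases hmn with h | h
      · exact absurd h1 (not_lt.2 h)
      · exact absurd h2 (not_lt.2 h)
    · intro x y hx hy
      obtain ⟨i, h1, h2, h3, h4⟩ := p.cov x y
      obtain ⟨q, m, n, hX, hY, hk⟩ := htile i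
      have g1 := htop (p.k i)
      have g2 := abs_le.1 (hnX q)
      have g3 := abs_le.1 (hnY q)
      have hx' := abs_le.1 hx
      have hy' := abs_le.1 hy
      change -(c * M) ≤ x ∧ x ≤ c * M at hx'
      change -(c * M) ≤ y ∧ y ≤ c * M at hy'
      obtain ⟨k1, k2⟩ := hcoef m n (by
        have e : (cmb u v m n).1 = p.X i - p.X (nr q) := by rw [hX]; ring
        rw [e, abs_le]
        constructor <;> linarith [g2.1, g2.2, hx'.1, hx'.2]) (by
        have e : (cmb u v m n).2 = p.Y i - p.Y (nr q) := by rw [hY]; ring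
        rw [e, abs_le]
        constructor <;> linarith [g3.1, g3.2, hy'.1, hy'.2])
      refine ⟨q, m, n, k1.le, k2.le, ?_, ?_, ?_, ?_⟩
      · show p.X (nr q) + (cmb u v m n).1 ≤ x
        rw [← hX]; exact h1
      · show x ≤ p.X (nr q) + (cmb u v m n).1 + p.P (p.k (nr q))
        rw [← hX, ← hk]; exact h2
      · show p.Y (nr q) + (cmb u v m n).2 ≤ y
        rw [← hY]; exact h3
      · show y ≤ p.Y (nr q) + (cmb u v m n).2 + p.P (p.k (nr q))
        rw [← hY, ← hk]; exact h4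
    · intro q q' m n _ _ hne
      obtain ⟨i, hX, hY, hk⟩ := hmk q m n
      have hii : i ≠ nr q' := by
        rintro rfl
        obtain ⟨w, hw, hX1, hY1⟩ := hnw q
        obtain ⟨w', hw', hX2, hY2⟩ := hnw q'
        have hqq : q' = q := by
          refine p.inj q' q ⟨w + cmb u v m n - w',
            p.Λ.sub_mem (p.Λ.add_mem hw (cmb_mem hu hv m n)) hw', ?_, ?_⟩
          · rw [Prod.fst_sub, Prod.fst_add]
            linarith
          · rw [Prod.snd_sub, Prod.snd_add]
            linarith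
        subst hqq
        have e1 : (m : ℝ) * u.1 + n * v.1 = 0 := by
          have : (cmb u v m n).1 = 0 := by linarith
          exact this
        have e2 : (m : ℝ) * u.2 + n * v.2 = 0 := by
          have : (cmb u v m n).2 = 0 := by linarith
          exact this
        obtain ⟨e3, e4⟩ := dt_indep hd e1 e2
        exact hne ⟨rfl, by exact_mod_cast e3, by exact_mod_cast e4⟩
      have g := p.sep i (nr q') hii
      rw [hX, hY, hk] at g
      exact g
    · intro q q' hkq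
      obtain ⟨A, σ, hAΛ, hσ⟩ := p.sym (nr q) (nr q') hkq
      have hA5 : ∀ w : ℝ × ℝ, w ∈ p.Λ → |w.1| ≤ c * M → |w.2| ≤ c * M → ∃ m n : ℤ,
          |m| ≤ ((12 * c + 1) ^ 2 : ℕ) ∧ |n| ≤ ((12 * c + 1) ^ 2 : ℕ) ∧
          A.fst w.1 w.2 = (cmb u v m n).1 ∧ A.snd w.1 w.2 = (cmb u v m n).2 := by
        intro w hw h1 h2
        obtain ⟨m, n, hmn⟩ := hbas _ (hAΛ w hw)
        have e1 : A.fst w.1 w.2 = (cmb u v m n).1 := congrArg Prod.fst hmn
        have e2 : A.snd w.1 w.2 = (cmb u v m n).2 := congrArg Prod.snd hmn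
        obtain ⟨k1, k2⟩ := hcoef m n (by
          rw [← e1]
          have := A.abs_fst h1 h2
          nlinarith) (by
          rw [← e2]
          have := A.abs_snd h1 h2
          nlinarith)
        exact ⟨m, n, k1.le, k2.le, e1, e2⟩
      refine ⟨A, hA5 u hu hu1 hu2, hA5 v hv hv1 hv2, ?_⟩
      intro t
      obtain ⟨h1, h2, h3⟩ := hσ (nr t)
      obtain ⟨t', m, n, hX, hY, hk⟩ := htile (σ (nr t))
      have b1 := abs_le.1 (hnX t)
      have b2 := abs_le.1 (hnY t)
      have b3 := abs_le.1 (hnX q)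
      have b4 := abs_le.1 (hnY q)
      have b5 := abs_le.1 (hnX q')
      have b6 := abs_le.1 (hnY q')
      have b7 := abs_le.1 (hnX t')
      have b8 := abs_le.1 (hnY t')
      have c1 := htop (p.k (nr t))
      have c2 := htop (p.k (nr q))
      have c3 := htop (p.k (nr q'))
      have d1 := p.pos (p.k (nr t))
      have d2 := p.pos (p.k (nr q))
      have d3 := p.pos (p.k (nr q'))
      have f1 : |2 * p.X (nr t) + p.P (p.k (nr t)) - (2 * p.X (nr q) + p.P (p.k (nr q)))| ≤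
          4 * (c * M) + M := by
        rw [abs_le]
        constructor <;> linarith [b1.1, b1.2, b3.1, b3.2]
      have f2 : |2 * p.Y (nr t) + p.P (p.k (nr t)) - (2 * p.Y (nr q) + p.P (p.k (nr q)))| ≤
          4 * (c * M) + M := by
        rw [abs_le]
        constructor <;> linarith [b2.1, b2.2, b4.1, b4.2]
      have g1 := abs_le.1 (A.abs_fst f1 f2)
      have g2 := abs_le.1 (A.abs_snd f1 f2)
      obtain ⟨k1, k2⟩ := hcoef m n (by
        have e : (cmb u v m n).1 = p.X (σ (nr t)) - p.X (nr t') := by rw [hX]; ring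
        rw [e, abs_le]
        constructor <;> nlinarith [b5.1, b5.2, b7.1, b7.2, g1.1, g1.2]) (by
        have e : (cmb u v m n).2 = p.Y (σ (nr t)) - p.Y (nr t') := by rw [hY]; ring
        rw [e, abs_le]
        constructor <;> nlinarith [b6.1, b6.2, b8.1, b8.2, g2.1, g2.2])
      refine ⟨t', m, n, k1.le, k2.le, ?_, ?_, ?_⟩
      · show p.k (nr t') = p.k (nr t)
        rw [← hk, h1]
      · rw [hX] at h2
        exact h2
      · rw [hY] at h3
        exact h3
    · intro q q' m n _ _ hkq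
      obtain ⟨i, hX, hY, hk⟩ := hmk q m n
      have hki : p.k i = p.k (nr q') := by rw [hk]; exact hkq
      have g := p.uni i (nr q') hki
      rw [hX, hY, hk] at g
      exact g

end Per

end Pool.Agent.Helper32.SQ
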