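import Pool.Agent.Helper32.SQ.Til
import Pool.Agent.Helper32.SQ.Dim

/-!
# MP_309e91_co : finitely many families of sizes
-/

set_option autoImplicit false

namespace Pool.Agent.Helper32.SQ

open Complex

namespace Frm

variable {𝒯 : Set (Set ℂ)} (F : Frm 𝒯)

/-- the data of the walks -/
noncomputable def dat {r : ℕ} (P : Fin r → ℝ) (hP : Function.Injective P)
    (hr : Set.range P = F.s '' 𝒯)
    (heq : ∀ T ∈ 𝒯, ∀ T' ∈ 𝒯, F.s T = F.s T' → ∃ g : ℂ ≃ᵢ ℂ, IsSym 𝒯 g ∧ g '' T = T') :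
    Dat 𝒯 r :=
  have h : ∀ T : 𝒯, ∃ k, P k = F.s T := fun T => by
    have h1 : F.s T ∈ Set.range P := by
      rw [hr]
      exact ⟨T, T.2, rfl⟩
    exact h1
  { F := F.boxes.fam
    Λ := F.Λ
    inv := F.inv
    P := P
    k := fun T => (h T).choose
    hp := fun T => (h T).choose_spec.symm
    kinv := by
      intro v hv i i' hi
      apply hP
      rw [(h i).choose_spec, (h i').choose_spec]
      exact Fam.Is.p_eq F.inv hv hi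
    lf := F.boxes.tch_finite
    lf' := F.boxes.tch_finite'
    fin := F.finite_orb (by rw [← hr]; exact Set.finite_range _) heq }

theorem dat_surj {r : ℕ} (P : Fin r → ℝ) (hP : Function.Injective P)
    (hr : Set.range P = F.s '' 𝒯)
    (heq : ∀ T ∈ 𝒯, ∀ T' ∈ 𝒯, F.s T = F.s T' → ∃ g : ℂ ≃ᵢ ℂ, IsSym 𝒯 g ∧ g '' T = T') :
    Function.Surjective (F.dat P hP hr heq).k := by
  intro k
  have h1 : P k ∈ F.s '' 𝒯 := by
    rw [← hr]
    exact ⟨k, rfl⟩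
  obtain ⟨T, hT, h2⟩ := h1
  refine ⟨⟨T, hT⟩, hP ?_⟩
  have h3 : (F.dat P hP hr heq).F.p ⟨T, hT⟩ = P ((F.dat P hP hr heq).k ⟨T, hT⟩) :=
    (F.dat P hP hr heq).hp ⟨T, hT⟩
  rw [← h3]
  exact h2

/-- the bound for the relations -/
def bnd (r : ℕ) : ℕ := 3 * (36 * (32 * r + 1) ^ 2) * (32 * r + 1)

theorem dim_rel {r : ℕ} (P : Fin r → ℝ) (hP : Function.Injective P)
    (hr : Set.range P = F.s '' 𝒯)
    (heq : ∀ T ∈ 𝒯, ∀ T' ∈ 𝒯, F.s T = F.s T' → ∃ g : ℂ ≃ᵢ ℂ, IsSym 𝒯 g ∧ g '' T = T') :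
    Module.finrank ℚ (Vr (rel (bnd r) P)) ≤ 2 := by
  refine (F.dat P hP hr heq).dim (F.dat_surj P hP hr heq) (n := 32 * r + 1) ?_ le_rfl
  have h1 : Nat.card (F.dat P hP hr heq).Q ≤ 16 * (F.s '' 𝒯).ncard :=
    F.card_orb (by rw [← hr]; exact Set.finite_range _) heq
  have h2 : (F.s '' 𝒯).ncard = r := by
    rw [← hr, Set.ncard_range_of_injective hP, Nat.card_eq_fintype_card, Fintype.card_fin]
  omega

end Frm

/-- THE FINITENESS THEOREM -/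
theorem finite_families (r : ℕ) : ∃ L : Finset ((Fin r → ℤ) × (Fin r → ℤ)),
    ∀ 𝒯 : Set (Set ℂ), Til 𝒯 →
    (∀ s, ∀ T ∈ 𝒯, ∀ T' ∈ 𝒯, IsSq T s → IsSq T' s →
      ∃ g : ℂ ≃ᵢ ℂ, (fun S : Set ℂ => g '' S) '' 𝒯 = 𝒯 ∧ g '' T = T') →
    ∀ p : Fin r → ℝ, Function.Injective p → Set.range p = sz 𝒯 →
    ∃ ab ∈ L, ∃ x y : ℝ, ∀ i, p i = ab.1 i * x + ab.2 i * y := by
  obtain ⟨L, hL⟩ := finite_list r (Frm.bnd r)
  refine ⟨L, ?_⟩
  intro 𝒯 h he p hp hr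
  have hf : (sz 𝒯).Finite := by rw [← hr]; exact Set.finite_range _
  obtain ⟨F, hF⟩ := h.exists_frm hf
  have h1 : F.s '' 𝒯 = sz 𝒯 := by
    ext x
    constructor
    · rintro ⟨T, hT, rfl⟩
      exact ⟨T, hT, hF T hT⟩
    · rintro ⟨T, hT, hx⟩
      exact ⟨T, hT, (hF T hT).unique hx⟩
  refine hL p (F.dim_rel p hp (hr.trans h1.symm) ?_)
  intro T hT T' hT' hs
  obtain ⟨g, hg, hgT⟩ := he (F.s T) T hT T' hT' (hF T hT) (hs ▸ hF T' hT')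
  exact ⟨g, isSym_of_image hg, hgT⟩

end Pool.Agent.Helper32.SQ
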