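import Pool.Agent.Helper32.SQ.Par
import Pool.Agent.Helper32.SQ.Boxes

/-!
# MP_309e91_co : all tiles in one frame
-/

set_option autoImplicit false

namespace Pool.Agent.Helper32.SQ

open Complex Filter Topology

theorem pow_four_cases {u : ℂ} (h : u ^ 4 = 1) : u = 1 ∨ u = -1 ∨ u = I ∨ u = -I := by
  have h1 : (u - 1) * ((u + 1) * ((u - I) * (u + I))) = 0 := by
    linear_combination h + (1 - u ^ 2) * I_sq
  rcases mul_eq_zero.1 h1 with h2 | h2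
  · exact Or.inl (sub_eq_zero.1 h2)
  · rcases mul_eq_zero.1 h2 with h3 | h3
    · exact Or.inr (Or.inl (eq_neg_of_add_eq_zero_left h3))
    · rcases mul_eq_zero.1 h3 with h4 | h4
      · exact Or.inr (Or.inr (Or.inl (sub_eq_zero.1 h4)))
      · exact Or.inr (Or.inr (Or.inr (eq_neg_of_add_eq_zero_left h4)))

/-- a square in a parallel frame -/
theorem sq_rot {a a₀ : ℂ} (ha₀ : ‖a₀‖ = 1) (h4 : a ^ 4 = a₀ ^ 4) (b : ℂ) (s : ℝ) :
    ∃ b', sq b a s = sq b' a₀ s := by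
  have h0 := a_ne_zero ha₀
  have hu : (a / a₀) ^ 4 = 1 := by
    rw [div_pow, h4, div_self (pow_ne_zero 4 h0)]
  have hI := I_sq
  rcases pow_four_cases hu with h | h | h | h
  · refine ⟨b, ?_⟩
    rw [div_eq_iff h0, one_mul] at h
    rw [h]
  · rw [div_eq_iff h0] at h
    subst h
    refine ⟨b - a₀ * (s + s * I), ?_⟩
    ext z
    constructor
    · rintro ⟨x, y, hx, hy, rfl⟩
      refine ⟨s - x, s - y, ⟨by linarith, by linarith⟩, ⟨by linarith, by linarith⟩, ?_⟩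
      push_cast
      ring
    · rintro ⟨x, y, hx, hy, rfl⟩
      refine ⟨s - x, s - y, ⟨by linarith, by linarith⟩, ⟨by linarith, by linarith⟩, ?_⟩
      push_cast
      ring
  · rw [div_eq_iff h0] at h
    subst h
    refine ⟨b - a₀ * s, ?_⟩
    ext z
    constructor
    · rintro ⟨x, y, hx, hy, rfl⟩
      refine ⟨s - y, x, ⟨by linarith, by linarith⟩, ⟨by linarith, by linarith⟩, ?_⟩
      push_cast
      linear_combination (a₀ * y) * hI
    · rintro ⟨x, y, hx, hy, rfl⟩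
      refine ⟨y, s - x, ⟨by linarith, by linarith⟩, ⟨by linarith, by linarith⟩, ?_⟩
      push_cast
      linear_combination -(a₀ * (s - x)) * hI
  · rw [div_eq_iff h0] at h
    subst h
    refine ⟨b - a₀ * (s * I), ?_⟩
    ext z
    constructor
    · rintro ⟨x, y, hx, hy, rfl⟩
      refine ⟨y, s - x, ⟨by linarith, by linarith⟩, ⟨by linarith, by linarith⟩, ?_⟩
      push_cast
      linear_combination -(a₀ * y) * hI
    · rintro ⟨x, y, hx, hy, rfl⟩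
      refine ⟨s - y, x, ⟨by linarith, by linarith⟩, ⟨by linarith, by linarith⟩, ?_⟩
      push_cast
      linear_combination (a₀ * x) * hI

theorem sq_b_inj {b b' a : ℂ} (ha : ‖a‖ = 1) {s s' : ℝ} (hs : 0 < s) (hs' : 0 < s')
    (h : sq b a s = sq b' a s') : b = b' ∧ s = s' := by
  obtain ⟨h1, -⟩ := sq_inj ha ha hs hs' h
  refine ⟨?_, h1⟩
  have m1 : b ∈ sq b' a s' := by
    rw [← h]
    exact ⟨0, 0, ⟨le_rfl, hs.le⟩, ⟨le_rfl, hs.le⟩, by simp⟩
  have m2 : b' ∈ sq b a s := by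
    rw [h]
    exact ⟨0, 0, ⟨le_rfl, hs'.le⟩, ⟨le_rfl, hs'.le⟩, by simp⟩
  rw [mem_sq ha] at m1 m2
  have h2 : co a (b' - b) = - co a (b - b') := by
    unfold co; ring
  rw [h2, neg_re, neg_im] at m2
  have h3 : co a (b - b') = 0 := by
    apply Complex.ext
    · rw [zero_re]; linarith [m1.1.1, m2.1.1]
    · rw [zero_im]; linarith [m1.2.1, m2.2.1]
  have h4 := a_mul_co ha (b - b')
  rw [h3, mul_zero] at h4
  exact (sub_eq_zero.1 h4.symm)

/-- A tiling of the plane by squares in the frame of `a₀`. -/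
structure Frm (𝒯 : Set (Set ℂ)) where
  a : ℂ
  b : Set ℂ → ℂ
  s : Set ℂ → ℝ
  δ : ℝ
  D : ℝ
  ha : ‖a‖ = 1
  hδ : 0 < δ
  hs : ∀ T ∈ 𝒯, δ ≤ s T
  hD : ∀ T ∈ 𝒯, s T ≤ D
  eq : ∀ T ∈ 𝒯, T = sq (b T) a (s T)
  cov : ∀ z, ∃ T ∈ 𝒯, z ∈ T
  dis : ∀ T ∈ 𝒯, ∀ T' ∈ 𝒯, T ≠ T' → Disjoint (interior T) (interior T')

namespace Frm

variable {𝒯 : Set (Set ℂ)} (F : Frm 𝒯)

theorem pos {T : Set ℂ} (hT : T ∈ 𝒯) : 0 < F.s T := F.hδ.trans_le (F.hs T hT)

/-- the associated family -/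
def sqs : Sqs 𝒯 where
  b T := F.b T
  a _ := F.a
  s T := F.s T
  δ := F.δ
  D := F.D
  ha _ := F.ha
  hδ := F.hδ
  hs T := F.hs T T.2
  hD T := F.hD T T.2
  cov z := by
    obtain ⟨T, hT, hz⟩ := F.cov z
    refine ⟨⟨T, hT⟩, ?_⟩
    show z ∈ sq (F.b T) F.a (F.s T)
    rw [← F.eq T hT]
    exact hz
  dis T T' h := by
    rw [← F.eq T T.2, ← F.eq T' T'.2]
    exact F.dis T T.2 T' T'.2 (fun h' => h (Subtype.ext h'))

theorem mem_iff {T : Set ℂ} (hT : T ∈ 𝒯) (z : ℂ) : z ∈ T ↔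
    ((co F.a (F.b T)).re ≤ (co F.a z).re ∧ (co F.a z).re ≤ (co F.a (F.b T)).re + F.s T) ∧
    ((co F.a (F.b T)).im ≤ (co F.a z).im ∧ (co F.a z).im ≤ (co F.a (F.b T)).im + F.s T) := by
  have h1 : z ∈ T ↔ z ∈ sq (F.b T) F.a (F.s T) := by
    conv_lhs => rw [F.eq T hT]
  rw [h1, mem_sq F.ha, co_sub, sub_re, sub_im]
  constructor
  · rintro ⟨⟨h1, h2⟩, h3, h4⟩
    exact ⟨⟨by linarith, by linarith⟩, by linarith, by linarith⟩
  · rintro ⟨⟨h1, h2⟩, h3, h4⟩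
    exact ⟨⟨by linarith, by linarith⟩, by linarith, by linarith⟩

theorem mem_int {T : Set ℂ} (hT : T ∈ 𝒯) (z : ℂ)
    (h1 : (co F.a (F.b T)).re < (co F.a z).re) (h2 : (co F.a z).re < (co F.a (F.b T)).re + F.s T)
    (h3 : (co F.a (F.b T)).im < (co F.a z).im) (h4 : (co F.a z).im < (co F.a (F.b T)).im + F.s T) :
    z ∈ interior T := by
  rw [F.eq T hT]
  apply mem_interior_sq F.ha <;> rw [co_sub]
  · rw [sub_re]; linarith
  · rw [sub_re]; linarith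
  · rw [sub_im]; linarith
  · rw [sub_im]; linarith

theorem co_pt (x y : ℝ) : (co F.a (F.a * (x + y * I))).re = x ∧
    (co F.a (F.a * (x + y * I))).im = y := by
  rw [co_a_mul F.ha]
  constructor <;> simp

/-- the boxes -/
noncomputable def boxes : Boxes 𝒯 where
  X T := (co F.a (F.b T)).re
  Y T := (co F.a (F.b T)).im
  p T := F.s T
  P := F.D
  pos T := F.pos T.2
  bd T := F.hD T T.2
  cov x y := by
    obtain ⟨T, hT, hz⟩ := F.cov (F.a * (x + y * I))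
    rw [F.mem_iff hT, (F.co_pt x y).1, (F.co_pt x y).2] at hz
    exact ⟨⟨T, hT⟩, hz.1.1, hz.1.2, hz.2.1, hz.2.2⟩
  dis x y i j h1 h2 h3 h4 h5 h6 h7 h8 := by
    by_contra hij
    obtain ⟨e1, e2⟩ := F.co_pt x y
    refine Set.disjoint_left.1 (F.dis i i.2 j j.2 (fun h => hij (Subtype.ext h)))
      (F.mem_int i.2 (F.a * (x + y * I)) ?_ ?_ ?_ ?_)
      (F.mem_int j.2 (F.a * (x + y * I)) ?_ ?_ ?_ ?_)
    · rw [e1]; exact h1
    · rw [e1]; exact h2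
    · rw [e2]; exact h3
    · rw [e2]; exact h4
    · rw [e1]; exact h5
    · rw [e1]; exact h6
    · rw [e2]; exact h7
    · rw [e2]; exact h8
  lf C := by
    refine (F.sqs.fin_meet (C + C)).subset ?_
    rintro T ⟨h1, h2⟩
    refine ⟨F.b T, ?_, ?_⟩
    · have := F.pos T.2
      exact ⟨0, 0, ⟨le_rfl, this.le⟩, ⟨le_rfl, this.le⟩, by simp [Frm.sqs]⟩
    · rw [Metric.mem_closedBall, dist_zero_right, ← norm_co F.ha]
      refine (norm_le_abs_re_add_abs_im _).trans ?_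
      exact add_le_add h1 h2

/-- the translation with coordinates `v` -/
noncomputable def tr (v : ℝ × ℝ) (z : ℂ) : ℂ := z + F.a * (v.1 + v.2 * I)

theorem tr_zero (z : ℂ) : F.tr 0 z = z := by
  simp [tr]

theorem tr_tr (v w : ℝ × ℝ) (z : ℂ) : F.tr v (F.tr w z) = F.tr (v + w) z := by
  simp only [tr, Prod.fst_add, Prod.snd_add]
  push_cast
  ring

theorem tr_image_tr (v w : ℝ × ℝ) (T : Set ℂ) : F.tr v '' (F.tr w '' T) = F.tr (v + w) '' T := by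
  rw [Set.image_image]
  congr 1
  funext z
  exact F.tr_tr v w z

theorem tr_image_zero (T : Set ℂ) : F.tr 0 '' T = T := by
  have : F.tr 0 = id := funext F.tr_zero
  rw [this, Set.image_id]

theorem tr_sq (v : ℝ × ℝ) (b : ℂ) (s : ℝ) : F.tr v '' sq b F.a s = sq (F.tr v b) F.a s := by
  ext z
  constructor
  · rintro ⟨_, ⟨x, y, hx, hy, rfl⟩, rfl⟩
    exact ⟨x, y, hx, hy, by simp only [tr]; ring⟩
  · rintro ⟨x, y, hx, hy, rfl⟩
    exact ⟨_, ⟨x, y, hx, hy, rfl⟩, by simp only [tr]; ring⟩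

/-- the lattice of the tiling -/
noncomputable def Λ : AddSubgroup (ℝ × ℝ) where
  carrier := {v | ∀ T, T ∈ 𝒯 ↔ F.tr v '' T ∈ 𝒯}
  zero_mem' T := by rw [F.tr_image_zero]
  add_mem' {v w} hv hw T := by
    rw [← F.tr_image_tr, ← hv, ← hw]
  neg_mem' {v} hv T := by
    rw [hv (F.tr (-v) '' T), F.tr_image_tr, add_neg_cancel, F.tr_image_zero]

theorem mem_Λ {v : ℝ × ℝ} : v ∈ F.Λ ↔ ∀ T, T ∈ 𝒯 ↔ F.tr v '' T ∈ 𝒯 := Iff.rfl

theorem tr_b {v : ℝ × ℝ} (hv : v ∈ F.Λ) {T : Set ℂ} (hT : T ∈ 𝒯) :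
    F.b (F.tr v '' T) = F.tr v (F.b T) ∧ F.s (F.tr v '' T) = F.s T := by
  have hT' := (hv T).1 hT
  have h1 := F.eq _ hT'
  have h2 : F.tr v '' T = sq (F.tr v (F.b T)) F.a (F.s T) := by
    conv_lhs => rw [F.eq T hT]
    exact F.tr_sq v _ _
  obtain ⟨e1, e2⟩ := sq_b_inj F.ha (F.pos hT') (F.pos hT) (h1.symm.trans h2)
  exact ⟨e1, e2⟩

theorem co_tr (v : ℝ × ℝ) (z : ℂ) : co F.a (F.tr v z) = co F.a z + (v.1 + v.2 * I) := by
  rw [tr, co_add, co_a_mul F.ha]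

theorem is_iff {v : ℝ × ℝ} {T T' : 𝒯} :
    F.boxes.fam.Is v T T' ↔ F.b T' = F.tr v (F.b T) := by
  constructor
  · rintro ⟨h1, h2⟩
    change (co F.a (F.b T')).re = (co F.a (F.b T)).re + v.1 at h1
    change (co F.a (F.b T')).im = (co F.a (F.b T)).im + v.2 at h2
    have h3 : co F.a (F.b T') = co F.a (F.tr v (F.b T)) := by
      rw [co_tr]
      apply Complex.ext
      · rw [h1]; simp
      · rw [h2]; simp
    rw [← a_mul_co F.ha (F.b T'), h3, a_mul_co F.ha]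
  · intro h
    constructor
    · change (co F.a (F.b T')).re = (co F.a (F.b T)).re + v.1
      rw [h, co_tr]; simp
    · change (co F.a (F.b T')).im = (co F.a (F.b T)).im + v.2
      rw [h, co_tr]; simp

theorem inv : F.boxes.fam.Inv F.Λ := by
  intro v hv T
  refine ⟨⟨F.tr v '' T, (hv T).1 T.2⟩, ?_, ?_⟩
  · rw [F.is_iff]
    exact (F.tr_b hv T.2).1
  · exact (F.tr_b hv T.2).2

/-- the lattice is discrete -/
theorem Λ_sep {v : ℝ × ℝ} (hv : v ∈ F.Λ) (h0 : v ≠ 0) : F.δ ≤ |v.1| + |v.2| := by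
  obtain ⟨T, hT, -⟩ := F.cov 0
  have hT' := (hv T).1 hT
  obtain ⟨e1, e2⟩ := F.tr_b hv hT
  have hne : (⟨T, hT⟩ : 𝒯) ≠ ⟨F.tr v '' T, hT'⟩ := by
    intro h
    have h1 : T = F.tr v '' T := congrArg Subtype.val h
    rw [← h1] at e1
    apply h0
    have h2 : F.a * ((v.1 : ℂ) + v.2 * I) = 0 := by
      have h3 : F.b T = F.b T + F.a * ((v.1 : ℂ) + v.2 * I) := e1
      linear_combination -h3
    have h4 := (mul_eq_zero.1 h2).resolve_left (a_ne_zero F.ha)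
    have h5 := congrArg Complex.re h4
    have h6 := congrArg Complex.im h4
    simp at h5 h6
    exact Prod.ext h5 h6
  have h1 := F.sqs.sep hne
  refine h1.trans ?_
  have h2 : F.sqs.c ⟨F.tr v '' T, hT'⟩ = F.sqs.c ⟨T, hT⟩ + F.a * ((v.1 : ℂ) + v.2 * I) := by
    show ctr (F.b (F.tr v '' T)) F.a (F.s (F.tr v '' T)) = ctr (F.b T) F.a (F.s T) + _
    rw [e1, e2]
    unfold ctr tr
    ring
  rw [h2, dist_eq_norm]
  have h3 : F.sqs.c ⟨T, hT⟩ - (F.sqs.c ⟨T, hT⟩ + F.a * ((v.1 : ℂ) + v.2 * I)) =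
      -(F.a * ((v.1 : ℂ) + v.2 * I)) := by ring
  rw [h3, norm_neg, norm_mul, F.ha, one_mul]
  refine (norm_le_abs_re_add_abs_im _).trans (le_of_eq ?_)
  simp

end Frm

end Pool.Agent.Helper32.SQ
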