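import Pool.Agent.Helper32.SQ.Lat

/-!
# MP_309e91_co : combinatorial pictures of tilings, and their finite presentations
-/

set_option autoImplicit false

namespace Pool.Agent.Helper32.SQ

/-- signed permutations of the two coordinates -/
structure Sg where
  sw : Bool
  e : ℤ
  e' : ℤ
  he : e = 1 ∨ e = -1
  he' : e' = 1 ∨ e' = -1

namespace Sg

variable (A : Sg)

/-- first coordinate -/
def fst (x y : ℝ) : ℝ := A.e * (if A.sw then y else x)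

/-- second coordinate -/
def snd (x y : ℝ) : ℝ := A.e' * (if A.sw then x else y)

theorem fst_add (x y x' y' : ℝ) : A.fst (x + x') (y + y') = A.fst x y + A.fst x' y' := by
  unfold fst
  split_ifs <;> ring

theorem snd_add (x y x' y' : ℝ) : A.snd (x + x') (y + y') = A.snd x y + A.snd x' y' := by
  unfold snd
  split_ifs <;> ring

theorem fst_mul (c x y : ℝ) : A.fst (c * x) (c * y) = c * A.fst x y := by
  unfold fst
  split_ifs <;> ring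

theorem snd_mul (c x y : ℝ) : A.snd (c * x) (c * y) = c * A.snd x y := by
  unfold snd
  split_ifs <;> ring

theorem abs_e : |(A.e : ℝ)| = 1 := by
  rcases A.he with h | h <;> rw [h] <;> norm_num

theorem abs_e' : |(A.e' : ℝ)| = 1 := by
  rcases A.he' with h | h <;> rw [h] <;> norm_num

theorem abs_fst {x y R : ℝ} (hx : |x| ≤ R) (hy : |y| ≤ R) : |A.fst x y| ≤ R := by
  unfold fst
  rw [abs_mul, A.abs_e, one_mul]
  split_ifs
  · exact hy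
  · exact hx

theorem abs_snd {x y R : ℝ} (hx : |x| ≤ R) (hy : |y| ≤ R) : |A.snd x y| ≤ R := by
  unfold snd
  rw [abs_mul, A.abs_e', one_mul]
  split_ifs
  · exact hx
  · exact hy

end Sg

/-- A unilateral equitransitive tiling in coordinates. -/
structure Pic (ι : Type) (r : ℕ) where
  k : ι → Fin r
  P : Fin r → ℝ
  X : ι → ℝ
  Y : ι → ℝ
  pos : ∀ i, 0 < P i
  surj : Function.Surjective k
  cov : ∀ x y : ℝ, ∃ i, X i ≤ x ∧ x ≤ X i + P (k i) ∧ Y i ≤ y ∧ y ≤ Y i + P (k i)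
  sep : ∀ i j, i ≠ j → X i + P (k i) ≤ X j ∨ X j + P (k j) ≤ X i ∨
    Y i + P (k i) ≤ Y j ∨ Y j + P (k j) ≤ Y i
  sym : ∀ i j, k i = k j → ∃ (A : Sg) (σ : ι → ι), ∀ t, k (σ t) = k t ∧
    2 * X (σ t) + P (k t) = A.fst (2 * X t + P (k t) - (2 * X i + P (k i)))
      (2 * Y t + P (k t) - (2 * Y i + P (k i))) + (2 * X j + P (k j)) ∧
    2 * Y (σ t) + P (k t) = A.snd (2 * X t + P (k t) - (2 * X i + P (k i)))
      (2 * Y t + P (k t) - (2 * Y i + P (k i))) + (2 * Y j + P (k j))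
  uni : ∀ i j, k i = k j → ¬ (X j = X i + P (k i) ∧ Y j = Y i) ∧
    ¬ (X j = X i ∧ Y j = Y i + P (k i))

/-- A unilateral equitransitive tiling in coordinates with its group of translations; `Q` is the set
of orbits of the tiles. -/
structure Per (ι Q : Type) (r : ℕ) where
  k : ι → Fin r
  P : Fin r → ℝ
  X : ι → ℝ
  Y : ι → ℝ
  Λ : AddSubgroup (ℝ × ℝ)
  pos : ∀ i, 0 < P i
  surj : Function.Surjective k
  cov : ∀ x y : ℝ, ∃ i, X i ≤ x ∧ x ≤ X i + P (k i) ∧ Y i ≤ y ∧ y ≤ Y i + P (k i)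
  sep : ∀ i j, i ≠ j → X i + P (k i) ≤ X j ∨ X j + P (k j) ≤ X i ∨
    Y i + P (k i) ≤ Y j ∨ Y j + P (k j) ≤ Y i
  sym : ∀ i j, k i = k j → ∃ (A : Sg) (σ : ι → ι),
    (∀ v ∈ Λ, ((A.fst v.1 v.2, A.snd v.1 v.2) : ℝ × ℝ) ∈ Λ) ∧ ∀ t, k (σ t) = k t ∧
    2 * X (σ t) + P (k t) = A.fst (2 * X t + P (k t) - (2 * X i + P (k i)))
      (2 * Y t + P (k t) - (2 * Y i + P (k i))) + (2 * X j + P (k j)) ∧
    2 * Y (σ t) + P (k t) = A.snd (2 * X t + P (k t) - (2 * X i + P (k i)))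
      (2 * Y t + P (k t) - (2 * Y i + P (k i))) + (2 * Y j + P (k j))
  uni : ∀ i j, k i = k j → ¬ (X j = X i + P (k i) ∧ Y j = Y i) ∧
    ¬ (X j = X i ∧ Y j = Y i + P (k i))
  tr : ∀ v ∈ Λ, ∀ i, ∃ i', X i' = X i + v.1 ∧ Y i' = Y i + v.2 ∧ k i' = k i
  rep : Q → ι
  hrep : ∀ i, ∃ q, ∃ v ∈ Λ, X i = X (rep q) + v.1 ∧ Y i = Y (rep q) + v.2 ∧ k i = k (rep q)
  inj : ∀ q q', (∃ v ∈ Λ, X (rep q) = X (rep q') + v.1 ∧ Y (rep q) = Y (rep q') + v.2) → q = q'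

/-- A finite presentation. -/
structure Sys (Q : Type) (r : ℕ) where
  P : Fin r → ℝ
  X : Q → ℝ
  Y : Q → ℝ
  u : ℝ × ℝ
  v : ℝ × ℝ

/-- The finite presentation presents a tiling. -/
structure Good {Q : Type} {r : ℕ} (k : Q → Fin r) (top : Fin r) (c K : ℕ) (S : Sys Q r) :
    Prop where
  pos : ∀ i, 0 < S.P i
  top_le : ∀ i, S.P i ≤ S.P top
  u1 : |S.u.1| ≤ c * S.P top
  u2 : |S.u.2| ≤ c * S.P top
  v1 : |S.v.1| ≤ c * S.P top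
  v2 : |S.v.2| ≤ c * S.P top
  bx : ∀ q, |S.X q| ≤ c * S.P top
  by' : ∀ q, |S.Y q| ≤ c * S.P top
  far : ∀ m n : ℤ, |m| ≤ 2 * K → |n| ≤ 2 * K → ((K : ℤ) ≤ |m| ∨ (K : ℤ) ≤ |n|) →
    5 * c * S.P top < |(cmb S.u S.v m n).1| ∨ 5 * c * S.P top < |(cmb S.u S.v m n).2|
  cov : ∀ x y : ℝ, |x| ≤ c * S.P top → |y| ≤ c * S.P top → ∃ (q : Q) (m n : ℤ), |m| ≤ K ∧
    |n| ≤ K ∧ S.X q + (cmb S.u S.v m n).1 ≤ x ∧ x ≤ S.X q + (cmb S.u S.v m n).1 + S.P (k q) ∧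
    S.Y q + (cmb S.u S.v m n).2 ≤ y ∧ y ≤ S.Y q + (cmb S.u S.v m n).2 + S.P (k q)
  sep : ∀ (q q' : Q) (m n : ℤ), |m| ≤ K → |n| ≤ K → ¬ (q = q' ∧ m = 0 ∧ n = 0) →
    S.X q + (cmb S.u S.v m n).1 + S.P (k q) ≤ S.X q' ∨
    S.X q' + S.P (k q') ≤ S.X q + (cmb S.u S.v m n).1 ∨
    S.Y q + (cmb S.u S.v m n).2 + S.P (k q) ≤ S.Y q' ∨
    S.Y q' + S.P (k q') ≤ S.Y q + (cmb S.u S.v m n).2
  sym : ∀ q q' : Q, k q = k q' → ∃ A : Sg,
    (∃ m n : ℤ, |m| ≤ K ∧ |n| ≤ K ∧ A.fst S.u.1 S.u.2 = (cmb S.u S.v m n).1 ∧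
      A.snd S.u.1 S.u.2 = (cmb S.u S.v m n).2) ∧
    (∃ m n : ℤ, |m| ≤ K ∧ |n| ≤ K ∧ A.fst S.v.1 S.v.2 = (cmb S.u S.v m n).1 ∧
      A.snd S.v.1 S.v.2 = (cmb S.u S.v m n).2) ∧
    ∀ t : Q, ∃ (t' : Q) (m n : ℤ), |m| ≤ K ∧ |n| ≤ K ∧ k t' = k t ∧
      2 * (S.X t' + (cmb S.u S.v m n).1) + S.P (k t) =
        A.fst (2 * S.X t + S.P (k t) - (2 * S.X q + S.P (k q)))
          (2 * S.Y t + S.P (k t) - (2 * S.Y q + S.P (k q))) + (2 * S.X q' + S.P (k q')) ∧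
      2 * (S.Y t' + (cmb S.u S.v m n).2) + S.P (k t) =
        A.snd (2 * S.X t + S.P (k t) - (2 * S.X q + S.P (k q)))
          (2 * S.Y t + S.P (k t) - (2 * S.Y q + S.P (k q))) + (2 * S.Y q' + S.P (k q'))
  uni : ∀ (q q' : Q) (m n : ℤ), |m| ≤ K → |n| ≤ K → k q = k q' →
    ¬ (S.X q' = S.X q + (cmb S.u S.v m n).1 + S.P (k q) ∧
      S.Y q' = S.Y q + (cmb S.u S.v m n).2) ∧
    ¬ (S.X q' = S.X q + (cmb S.u S.v m n).1 ∧
      S.Y q' = S.Y q + (cmb S.u S.v m n).2 + S.P (k q))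

theorem cmb_sub (u v : ℝ × ℝ) (m n m' n' : ℤ) :
    (cmb u v (m - m') (n - n')).1 = (cmb u v m n).1 - (cmb u v m' n').1 ∧
    (cmb u v (m - m') (n - n')).2 = (cmb u v m n).2 - (cmb u v m' n').2 := by
  unfold cmb
  constructor
  · push_cast
    ring
  · push_cast
    ring

theorem cmb_add (u v : ℝ × ℝ) (m n m' n' : ℤ) :
    (cmb u v (m + m') (n + n')).1 = (cmb u v m n).1 + (cmb u v m' n').1 ∧
    (cmb u v (m + m') (n + n')).2 = (cmb u v m n).2 + (cmb u v m' n').2 := by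
  unfold cmb
  constructor
  · push_cast
    ring
  · push_cast
    ring

end Pool.Agent.Helper32.SQ
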