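import Pool.Agent.Helper32.SQ.Edge
import Pool.Agent.Helper32.SQ.Pic

/-!
# MP_309e91_co : from a unilateral equitransitive tiling to coordinates
-/

set_option autoImplicit false

namespace Pool.Agent.Helper32.SQ

open Complex Filter Topology

/-- the linear part of a symmetry in coordinates -/
theorem exists_Sg {a : ℂ} (ha : ‖a‖ = 1) (k : Bool) {α : ℂ}
    (hα : (k = false ∧ α ^ 4 = 1) ∨ (k = true ∧ α ^ 4 = a ^ 8)) :
    ∃ A : Sg, ∀ z : ℂ, co a (α * (if k then (starRingEnd ℂ) z else z)) =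
      (A.fst (co a z).re (co a z).im : ℝ) + (A.snd (co a z).re (co a z).im : ℝ) * I := by
  rcases hα with ⟨rfl, h⟩ | ⟨rfl, h⟩
  · have hco : ∀ z : ℂ, co a (α * z) = α * co a z := by
      intro z
      unfold co
      ring
    rcases pow_four_cases h with h | h | h | h
    · refine ⟨⟨false, 1, 1, Or.inl rfl, Or.inl rfl⟩, fun z => ?_⟩
      simp only [Bool.false_eq_true, if_false]
      rw [hco, h]
      apply Complex.ext <;> simp [Sg.fst, Sg.snd]
    · refine ⟨⟨false, -1, -1, Or.inr rfl, Or.inr rfl⟩, fun z => ?_⟩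
      simp only [Bool.false_eq_true, if_false]
      rw [hco, h]
      apply Complex.ext <;> simp [Sg.fst, Sg.snd]
    · refine ⟨⟨true, -1, 1, Or.inr rfl, Or.inl rfl⟩, fun z => ?_⟩
      simp only [Bool.false_eq_true, if_false]
      rw [hco, h]
      apply Complex.ext <;> simp [Sg.fst, Sg.snd]
    · refine ⟨⟨true, 1, -1, Or.inl rfl, Or.inr rfl⟩, fun z => ?_⟩
      simp only [Bool.false_eq_true, if_false]
      rw [hco, h]
      apply Complex.ext <;> simp [Sg.fst, Sg.snd]
  · set γ := α * (starRingEnd ℂ) a ^ 2 with hγ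
    have h1 := mul_conj_one ha
    have hγ4 : γ ^ 4 = 1 := by
      rw [hγ, mul_pow, h]
      calc a ^ 8 * ((starRingEnd ℂ) a ^ 2) ^ 4 = (a * (starRingEnd ℂ) a) ^ 8 := by ring
        _ = 1 := by rw [h1, one_pow]
    have hco : ∀ z : ℂ, co a (α * (starRingEnd ℂ) z) = γ * (starRingEnd ℂ) (co a z) := by
      intro z
      unfold co
      rw [map_mul, conj_conj, hγ]
      calc α * (starRingEnd ℂ) z * (starRingEnd ℂ) a
          = α * (starRingEnd ℂ) z * (starRingEnd ℂ) a * (a * (starRingEnd ℂ) a) := by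
            rw [h1, mul_one]
        _ = α * (starRingEnd ℂ) a ^ 2 * ((starRingEnd ℂ) z * a) := by ring
    rcases pow_four_cases hγ4 with h | h | h | h
    · refine ⟨⟨false, 1, -1, Or.inl rfl, Or.inr rfl⟩, fun z => ?_⟩
      simp only [if_true]
      rw [hco, h]
      apply Complex.ext <;> simp [Sg.fst, Sg.snd]
    · refine ⟨⟨false, -1, 1, Or.inr rfl, Or.inl rfl⟩, fun z => ?_⟩
      simp only [if_true]
      rw [hco, h]
      apply Complex.ext <;> simp [Sg.fst, Sg.snd]
    · refine ⟨⟨true, 1, 1, Or.inl rfl, Or.inl rfl⟩, fun z => ?_⟩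
      simp only [if_true]
      rw [hco, h]
      apply Complex.ext <;> simp [Sg.fst, Sg.snd]
    · refine ⟨⟨true, -1, -1, Or.inr rfl, Or.inr rfl⟩, fun z => ?_⟩
      simp only [if_true]
      rw [hco, h]
      apply Complex.ext <;> simp [Sg.fst, Sg.snd]

namespace Frm

variable {𝒯 : Set (Set ℂ)} (F : Frm 𝒯)

/-- normal form of the symmetries, with the linear part in coordinates -/
theorem sym_form' {g : ℂ ≃ᵢ ℂ} (hg : IsSym 𝒯 g) : ∃ (k : Bool) (α β : ℂ) (A : Sg),
    (∀ z, g z = α * (if k then (starRingEnd ℂ) z else z) + β) ∧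
    (∀ z : ℂ, co F.a (α * (if k then (starRingEnd ℂ) z else z)) =
      (A.fst (co F.a z).re (co F.a z).im : ℝ) + (A.snd (co F.a z).re (co F.a z).im : ℝ) * I) := by
  obtain ⟨T, hT, -⟩ := F.cov 0
  have hT' := (hg T).1 hT
  have h1 := F.eq T hT
  have h2 := F.eq _ hT'
  obtain ⟨α, β, hα, h | h⟩ := iso_form g
  · have h3 : g '' T = sq (α * F.b T + β) (α * F.a) (F.s T) := by
      conv_lhs => rw [h1]
      exact image_sq_rot h
    obtain ⟨-, h4⟩ := sq_inj (by rw [norm_mul, hα, F.ha, one_mul]) F.ha (F.pos hT) (F.pos hT')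
      (h3.symm.trans h2)
    rw [mul_pow] at h4
    have h5 : F.a ^ 4 ≠ 0 := pow_ne_zero 4 (a_ne_zero F.ha)
    have h6 : α ^ 4 = 1 := mul_right_cancel₀ h5 (by rw [h4, one_mul])
    obtain ⟨A, hA⟩ := exists_Sg F.ha false (Or.inl ⟨rfl, h6⟩)
    exact ⟨false, α, β, A, fun z => by simp [h z], hA⟩
  · have h3 : g '' T = sq (α * (starRingEnd ℂ) (F.b T) + β) (-I * (α * (starRingEnd ℂ) F.a))
        (F.s T) := by
      conv_lhs => rw [h1]
      exact image_sq_refl h
    have hn : ‖-I * (α * (starRingEnd ℂ) F.a)‖ = 1 := by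
      rw [norm_mul, norm_neg, norm_I, norm_mul, hα, RCLike.norm_conj, F.ha]
      norm_num
    obtain ⟨-, h4⟩ := sq_inj hn F.ha (F.pos hT) (F.pos hT') (h3.symm.trans h2)
    have h5 : (-I * (α * (starRingEnd ℂ) F.a)) ^ 4 = α ^ 4 * (starRingEnd ℂ) F.a ^ 4 := by
      have := I_pow_four
      rw [mul_pow, neg_pow, this, mul_pow]
      ring
    rw [h5] at h4
    have h6 := mul_conj_one F.ha
    have h7 : α ^ 4 = F.a ^ 8 := by
      calc α ^ 4 = α ^ 4 * (F.a * (starRingEnd ℂ) F.a) ^ 4 := by rw [h6]; ring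
        _ = (α ^ 4 * (starRingEnd ℂ) F.a ^ 4) * F.a ^ 4 := by ring
        _ = F.a ^ 8 := by rw [h4]; ring
    obtain ⟨A, hA⟩ := exists_Sg F.ha true (Or.inr ⟨rfl, h7⟩)
    exact ⟨true, α, β, A, fun z => by simp [h z], hA⟩

/-- the coordinates of the centre -/
theorem co_ctr' (T : Set ℂ) : (co F.a (ctr (F.b T) F.a (F.s T))).re =
      (co F.a (F.b T)).re + F.s T / 2 ∧
    (co F.a (ctr (F.b T) F.a (F.s T))).im = (co F.a (F.b T)).im + F.s T / 2 := by
  unfold ctr
  rw [co_add, co_a_mul F.ha]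
  constructor <;> simp

/-- A symmetry in coordinates -/
theorem sym_coord {g : ℂ ≃ᵢ ℂ} (hg : IsSym 𝒯 g) {i : Set ℂ} (hi : i ∈ 𝒯) : ∃ A : Sg,
    (∀ v ∈ F.Λ, ((A.fst v.1 v.2, A.snd v.1 v.2) : ℝ × ℝ) ∈ F.Λ) ∧ ∀ t ∈ 𝒯,
      F.s (g '' t) = F.s t ∧
      2 * (co F.a (F.b (g '' t))).re + F.s t =
        A.fst (2 * (co F.a (F.b t)).re + F.s t - (2 * (co F.a (F.b i)).re + F.s i))
          (2 * (co F.a (F.b t)).im + F.s t - (2 * (co F.a (F.b i)).im + F.s i)) +
          (2 * (co F.a (F.b (g '' i))).re + F.s i) ∧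
      2 * (co F.a (F.b (g '' t))).im + F.s t =
        A.snd (2 * (co F.a (F.b t)).re + F.s t - (2 * (co F.a (F.b i)).re + F.s i))
          (2 * (co F.a (F.b t)).im + F.s t - (2 * (co F.a (F.b i)).im + F.s i)) +
          (2 * (co F.a (F.b (g '' i))).im + F.s i) := by
  obtain ⟨k, α, β, A, hform, hA⟩ := F.sym_form' hg
  -- images of tiles
  have hsz : ∀ t ∈ 𝒯, F.s (g '' t) = F.s t := by
    intro t ht
    have ht' := (hg t).1 ht
    obtain ⟨α', β', hα', h | h⟩ := iso_form g
    · have h3 : g '' t = sq (α' * F.b t + β') (α' * F.a) (F.s t) := by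
        conv_lhs => rw [F.eq t ht]
        exact image_sq_rot h
      exact (sq_inj (by rw [norm_mul, hα', F.ha, one_mul]) F.ha (F.pos ht) (F.pos ht')
        (h3.symm.trans (F.eq _ ht'))).1.symm
    · have h3 : g '' t = sq (α' * (starRingEnd ℂ) (F.b t) + β')
          (-I * (α' * (starRingEnd ℂ) F.a)) (F.s t) := by
        conv_lhs => rw [F.eq t ht]
        exact image_sq_refl h
      have hn : ‖-I * (α' * (starRingEnd ℂ) F.a)‖ = 1 := by
        rw [norm_mul, norm_neg, norm_I, norm_mul, hα', RCLike.norm_conj, F.ha]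
        norm_num
      exact (sq_inj hn F.ha (F.pos ht) (F.pos ht') (h3.symm.trans (F.eq _ ht'))).1.symm
  have hctr : ∀ t ∈ 𝒯, g (ctr (F.b t) F.a (F.s t)) =
      ctr (F.b (g '' t)) F.a (F.s (g '' t)) := by
    intro t ht
    have ht' := (hg t).1 ht
    apply iso_ctr g F.ha F.ha (F.pos ht) (F.pos ht')
    rw [← F.eq t ht]
    exact F.eq _ ht'
  refine ⟨A, ?_, ?_⟩
  · intro v hv
    rw [F.mem_Λ]
    -- conjugation
    have hconj : ∀ z, F.tr (A.fst v.1 v.2, A.snd v.1 v.2) (g z) = g (F.tr v z) := by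
      intro z
      have h1 := hA (F.a * (v.1 + v.2 * I))
      rw [(F.co_pt v.1 v.2).1, (F.co_pt v.1 v.2).2] at h1
      have h2 := a_mul_co F.ha (α * (if k then (starRingEnd ℂ) (F.a * (v.1 + v.2 * I))
        else F.a * (v.1 + v.2 * I)))
      rw [h1] at h2
      unfold tr
      dsimp only
      rw [h2, hform, hform]
      cases k
      · simp only [Bool.false_eq_true, if_false]
        ring
      · simp only [if_true]
        rw [map_add]
        ring
    intro T
    have h3 : T = g '' (g.symm '' T) := by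
      rw [Set.image_image]
      simp
    have h5 : ∀ U : Set ℂ, F.tr (A.fst v.1 v.2, A.snd v.1 v.2) '' (g '' U) =
        g '' (F.tr v '' U) := by
      intro U
      rw [Set.image_image, Set.image_image]
      congr 1
      funext z
      exact hconj z
    have h4 : F.tr (A.fst v.1 v.2, A.snd v.1 v.2) '' T = g '' (F.tr v '' (g.symm '' T)) := by
      conv_lhs => rw [h3]
      exact h5 _
    rw [h4, ← hg, ← hv (g.symm '' T), hg (g.symm '' T), ← h3]
  · intro t ht
    refine ⟨hsz t ht, ?_⟩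
    have h1 : co F.a (ctr (F.b (g '' t)) F.a (F.s (g '' t))) =
        co F.a (ctr (F.b (g '' i)) F.a (F.s (g '' i))) +
        co F.a (α * (if k then (starRingEnd ℂ) (ctr (F.b t) F.a (F.s t) - ctr (F.b i) F.a (F.s i))
          else (ctr (F.b t) F.a (F.s t) - ctr (F.b i) F.a (F.s i)))) := by
      rw [← hctr t ht, ← hctr i hi, ← co_add, hform, hform]
      congr 1
      cases k
      · simp only [Bool.false_eq_true, if_false]
        ring
      · simp only [if_true]
        rw [map_sub]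
        ring
    rw [hA, co_sub, sub_re, sub_im, (F.co_ctr' t).1, (F.co_ctr' t).2, (F.co_ctr' i).1,
      (F.co_ctr' i).2] at h1
    have h2 := congrArg Complex.re h1
    have h3 := congrArg Complex.im h1
    rw [add_re, (F.co_ctr' (g '' t)).1, (F.co_ctr' (g '' i)).1, hsz t ht, hsz i hi] at h2
    rw [add_im, (F.co_ctr' (g '' t)).2, (F.co_ctr' (g '' i)).2, hsz t ht, hsz i hi] at h3
    simp only [add_re, add_im, mul_re, mul_im, ofReal_re, ofReal_im, I_re, I_im, mul_zero,
      mul_one, zero_add, add_zero, sub_self] at h2 h3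
    have e1 := A.fst_mul 2 ((co F.a (F.b t)).re + F.s t / 2 - ((co F.a (F.b i)).re + F.s i / 2))
      ((co F.a (F.b t)).im + F.s t / 2 - ((co F.a (F.b i)).im + F.s i / 2))
    have e2 := A.snd_mul 2 ((co F.a (F.b t)).re + F.s t / 2 - ((co F.a (F.b i)).re + F.s i / 2))
      ((co F.a (F.b t)).im + F.s t / 2 - ((co F.a (F.b i)).im + F.s i / 2))
    have e3 : 2 * ((co F.a (F.b t)).re + F.s t / 2 - ((co F.a (F.b i)).re + F.s i / 2)) =
        2 * (co F.a (F.b t)).re + F.s t - (2 * (co F.a (F.b i)).re + F.s i) := by ring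
    have e4 : 2 * ((co F.a (F.b t)).im + F.s t / 2 - ((co F.a (F.b i)).im + F.s i / 2)) =
        2 * (co F.a (F.b t)).im + F.s t - (2 * (co F.a (F.b i)).im + F.s i) := by ring
    rw [e3, e4] at e1 e2
    rw [e1, e2]
    constructor <;> linarith

/-- the tiling in coordinates -/
noncomputable def per {r : ℕ} (P : Fin r → ℝ) (hP : Function.Injective P)
    (hr : Set.range P = F.s '' 𝒯)
    (heq : ∀ T ∈ 𝒯, ∀ T' ∈ 𝒯, F.s T = F.s T' → ∃ g : ℂ ≃ᵢ ℂ, IsSym 𝒯 g ∧ g '' T = T')
    (hu : Uni 𝒯) : Per 𝒯 (Quotient (F.boxes.fam.orb F.Λ F.inv)) r :=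
  have hk : ∀ T : 𝒯, ∃ i, P i = F.s T := fun T => by
    have : F.s T ∈ Set.range P := by
      rw [hr]
      exact ⟨T, T.2, rfl⟩
    exact this
  let k : 𝒯 → Fin r := fun T => (hk T).choose
  have hk' : ∀ T : 𝒯, P (k T) = F.s T := fun T => (hk T).choose_spec
  have hkk : ∀ T T' : 𝒯, k T = k T' ↔ F.s T = F.s T' := fun T T' => by
    rw [← hk', ← hk', hP.eq_iff]
  { k := k
    P := P
    X := fun T => (co F.a (F.b T)).re
    Y := fun T => (co F.a (F.b T)).im
    Λ := F.Λ
    pos := by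
      intro i
      have : P i ∈ F.s '' 𝒯 := by
        rw [← hr]
        exact ⟨i, rfl⟩
      obtain ⟨T, hT, h⟩ := this
      rw [← h]
      exact F.pos hT
    surj := by
      intro i
      have : P i ∈ F.s '' 𝒯 := by
        rw [← hr]
        exact ⟨i, rfl⟩
      obtain ⟨T, hT, h⟩ := this
      refine ⟨⟨T, hT⟩, hP ?_⟩
      rw [hk']
      exact h
    cov := by
      intro x y
      obtain ⟨i, h⟩ := F.boxes.cov x y
      refine ⟨i, ?_⟩
      rw [hk']
      exact h
    sep := by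
      intro i j hij
      rw [hk', hk']
      by_contra hcon
      push Not at hcon
      obtain ⟨h1, h2, h3, h4⟩ := hcon
      have hi := F.pos i.2
      have hj := F.pos j.2
      obtain ⟨x, x1, x2⟩ := exists_between (show max (co F.a (F.b i)).re (co F.a (F.b j)).re <
        min ((co F.a (F.b i)).re + F.s i) ((co F.a (F.b j)).re + F.s j) by
          refine max_lt (lt_min ?_ ?_) (lt_min ?_ ?_) <;> linarith)
      obtain ⟨y, y1, y2⟩ := exists_between (show max (co F.a (F.b i)).im (co F.a (F.b j)).im <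
        min ((co F.a (F.b i)).im + F.s i) ((co F.a (F.b j)).im + F.s j) by
          refine max_lt (lt_min ?_ ?_) (lt_min ?_ ?_) <;> linarith)
      rw [max_lt_iff] at x1 y1
      rw [lt_min_iff] at x2 y2
      exact hij (F.boxes.dis x y i j x1.1 x2.1 y1.1 y2.1 x1.2 x2.2 y1.2 y2.2)
    sym := by
      intro i j hij
      obtain ⟨g, hg, hgi⟩ := heq i i.2 j j.2 ((hkk i j).1 hij)
      obtain ⟨A, hA1, hA2⟩ := F.sym_coord hg i.2
      refine ⟨A, fun t => ⟨g '' t, (hg t).1 t.2⟩, hA1, ?_⟩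
      intro t
      obtain ⟨h1, h2, h3⟩ := hA2 t t.2
      have hsj : F.s j = F.s i := ((hkk i j).1 hij).symm
      rw [hgi] at h2 h3
      refine ⟨(hkk _ _).2 h1, ?_, ?_⟩
      · rw [hk', hk', hk', hsj]
        exact h2
      · rw [hk', hk', hk', hsj]
        exact h3
    uni := by
      intro i j hij
      have hs : F.s j = F.s i := ((hkk i j).1 hij).symm
      constructor
      · rintro ⟨h1, h2⟩
        rw [hk'] at h1
        refine F.no_side hu i.2 j.2 hs (F.co_eq ?_ ?_)
        · rw [co_add, co_a_mul F.ha, h1]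
          simp
        · rw [co_add, co_a_mul F.ha, h2]
          simp
      · rintro ⟨h1, h2⟩
        rw [hk'] at h2
        refine F.no_side' hu i.2 j.2 hs (F.co_eq ?_ ?_)
        · rw [co_add, co_a_mul F.ha, h1]
          simp
        · rw [co_add, co_a_mul F.ha, h2]
          simp
    tr := by
      intro v hv i
      obtain ⟨i', h1, h2⟩ := F.inv v hv i
      exact ⟨i', h1.1, h1.2, (hkk i' i).2 h2⟩
    rep := Quotient.out
    hrep := by
      intro i
      obtain ⟨v, hv, h1⟩ := Quotient.exact (s := F.boxes.fam.orb F.Λ F.inv)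
        (Quotient.out_eq (Quotient.mk (F.boxes.fam.orb F.Λ F.inv) i))
      refine ⟨Quotient.mk (F.boxes.fam.orb F.Λ F.inv) i, v, hv, h1.1, h1.2, ?_⟩
      exact (hkk _ _).2 (Fam.Is.p_eq F.inv hv h1)
    inj := by
      rintro q q' ⟨v, hv, h1, h2⟩
      rw [← Quotient.out_eq q, ← Quotient.out_eq q']
      exact (Quotient.sound (s := F.boxes.fam.orb F.Λ F.inv) ⟨v, hv, h1, h2⟩).symm }

theorem per_P {r : ℕ} (P : Fin r → ℝ) (hP : Function.Injective P)
    (hr : Set.range P = F.s '' 𝒯)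
    (heq : ∀ T ∈ 𝒯, ∀ T' ∈ 𝒯, F.s T = F.s T' → ∃ g : ℂ ≃ᵢ ℂ, IsSym 𝒯 g ∧ g '' T = T')
    (hu : Uni 𝒯) : (F.per P hP hr heq hu).P = P := rfl

end Frm

end Pool.Agent.Helper32.SQ
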