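import Mathlib

/-!
# MP_309e91_co : squares in the plane
-/

set_option autoImplicit false

namespace Pool.Agent.Helper32.SQ

open Complex Filter Topology

/-- The closed square with side `s` and corner `b` whose sides at `b` have the directions `a`
and `I * a`. -/
def sq (b a : ℂ) (s : ℝ) : Set ℂ :=
  {z | ∃ x y : ℝ, (0 ≤ x ∧ x ≤ s) ∧ (0 ≤ y ∧ y ≤ s) ∧ z = b + a * (x + y * I)}

/-- `T` is a closed square of side `s` in the plane. -/
def IsSq (T : Set ℂ) (s : ℝ) : Prop := 0 < s ∧ ∃ b a : ℂ, ‖a‖ = 1 ∧ T = sq b a s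

/-- coordinates in the frame of `a` -/
noncomputable def co (a z : ℂ) : ℂ := z * (starRingEnd ℂ) a

theorem mul_conj_one {a : ℂ} (ha : ‖a‖ = 1) : a * (starRingEnd ℂ) a = 1 := by
  rw [mul_conj, normSq_eq_norm_sq, ha]
  norm_num

theorem a_ne_zero {a : ℂ} (ha : ‖a‖ = 1) : a ≠ 0 := by
  rintro rfl
  rw [norm_zero] at ha
  exact zero_ne_one ha

theorem a_mul_co {a : ℂ} (ha : ‖a‖ = 1) (z : ℂ) : a * co a z = z := by
  unfold co
  rw [mul_comm z, ← mul_assoc, mul_conj_one ha, one_mul]

theorem co_a_mul {a : ℂ} (ha : ‖a‖ = 1) (z : ℂ) : co a (a * z) = z := by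
  unfold co
  rw [mul_assoc, mul_comm z, ← mul_assoc, mul_conj_one ha, one_mul]

theorem co_add (a z w : ℂ) : co a (z + w) = co a z + co a w := by
  unfold co; ring

theorem co_sub (a z w : ℂ) : co a (z - w) = co a z - co a w := by
  unfold co; ring

theorem norm_co {a : ℂ} (ha : ‖a‖ = 1) (z : ℂ) : ‖co a z‖ = ‖z‖ := by
  unfold co
  rw [norm_mul, RCLike.norm_conj, ha, mul_one]

theorem continuous_co (a : ℂ) : Continuous (co a) := by
  unfold co
  fun_prop

/-- membership in a square -/
theorem mem_sq {b a : ℂ} (ha : ‖a‖ = 1) {s : ℝ} {z : ℂ} :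
    z ∈ sq b a s ↔ (0 ≤ (co a (z - b)).re ∧ (co a (z - b)).re ≤ s) ∧
      (0 ≤ (co a (z - b)).im ∧ (co a (z - b)).im ≤ s) := by
  constructor
  · rintro ⟨x, y, hx, hy, rfl⟩
    have h1 : co a (b + a * (x + y * I) - b) = x + y * I := by
      rw [add_sub_cancel_left, co_a_mul ha]
    rw [h1]
    simp only [add_re, ofReal_re, mul_re, I_re, mul_zero, ofReal_im, I_im, mul_one, sub_self,
      add_zero, add_im, mul_im, zero_add]
    exact ⟨hx, hy⟩
  · rintro ⟨hx, hy⟩
    refine ⟨_, _, hx, hy, ?_⟩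
    rw [re_add_im, a_mul_co ha]
    ring

/-- the centre -/
noncomputable def ctr (b a : ℂ) (s : ℝ) : ℂ := b + a * ((s / 2 : ℝ) + (s / 2 : ℝ) * I)

theorem co_ctr {b a : ℂ} (ha : ‖a‖ = 1) (s : ℝ) (z : ℂ) :
    co a (z - b) = co a (z - ctr b a s) + ((s / 2 : ℝ) + (s / 2 : ℝ) * I) := by
  have h1 : z - b = (z - ctr b a s) + a * ((s / 2 : ℝ) + (s / 2 : ℝ) * I) := by
    unfold ctr; ring
  rw [h1, co_add, co_a_mul ha]

/-- points with strict inequalities are in the interior -/
theorem mem_interior_sq {b a : ℂ} (ha : ‖a‖ = 1) {s : ℝ} {z : ℂ}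
    (hx : 0 < (co a (z - b)).re) (hx' : (co a (z - b)).re < s)
    (hy : 0 < (co a (z - b)).im) (hy' : (co a (z - b)).im < s) : z ∈ interior (sq b a s) := by
  have hc : Continuous fun z => co a (z - b) := (continuous_co a).comp (by fun_prop)
  have hre : Continuous fun z => (co a (z - b)).re := continuous_re.comp hc
  have him : Continuous fun z => (co a (z - b)).im := continuous_im.comp hc
  rw [mem_interior]
  refine ⟨{z | 0 < (co a (z - b)).re ∧ (co a (z - b)).re < s ∧ 0 < (co a (z - b)).im ∧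
    (co a (z - b)).im < s}, ?_, ?_, ⟨hx, hx', hy, hy'⟩⟩
  · rintro w ⟨h1, h2, h3, h4⟩
    exact (mem_sq ha).2 ⟨⟨h1.le, h2.le⟩, ⟨h3.le, h4.le⟩⟩
  · exact (isOpen_lt continuous_const hre).inter ((isOpen_lt hre continuous_const).inter
      ((isOpen_lt continuous_const him).inter (isOpen_lt him continuous_const)))

theorem isClosed_sq {b a : ℂ} (ha : ‖a‖ = 1) {s : ℝ} : IsClosed (sq b a s) := by
  have hc : Continuous fun z => co a (z - b) := (continuous_co a).comp (by fun_prop)
  have hre : Continuous fun z => (co a (z - b)).re := continuous_re.comp hc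
  have him : Continuous fun z => (co a (z - b)).im := continuous_im.comp hc
  have h1 : sq b a s = {z | (0 ≤ (co a (z - b)).re ∧ (co a (z - b)).re ≤ s) ∧
      (0 ≤ (co a (z - b)).im ∧ (co a (z - b)).im ≤ s)} := by
    ext z
    exact mem_sq ha
  rw [h1]
  exact ((isClosed_le continuous_const hre).inter (isClosed_le hre continuous_const)).inter
    ((isClosed_le continuous_const him).inter (isClosed_le him continuous_const))

/-- the inscribed disc -/
theorem ball_subset {b a : ℂ} (ha : ‖a‖ = 1) {s : ℝ} :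
    Metric.ball (ctr b a s) (s / 2) ⊆ interior (sq b a s) := by
  intro z hz
  rw [Metric.mem_ball, dist_eq_norm, ← norm_co ha] at hz
  have h1 := (abs_re_le_norm (co a (z - ctr b a s))).trans_lt hz
  have h2 := (abs_im_le_norm (co a (z - ctr b a s))).trans_lt hz
  rw [abs_lt] at h1 h2
  have h3 := co_ctr ha s z (b := b)
  have h4 : (co a (z - b)).re = (co a (z - ctr b a s)).re + s / 2 := by
    rw [h3]; simp
  have h5 : (co a (z - b)).im = (co a (z - ctr b a s)).im + s / 2 := by
    rw [h3]; simp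
  refine mem_interior_sq ha ?_ ?_ ?_ ?_
  · rw [h4]; linarith [h1.1]
  · rw [h4]; linarith [h1.2]
  · rw [h5]; linarith [h2.1]
  · rw [h5]; linarith [h2.2]

/-- the circumscribed disc -/
theorem subset_closedBall {b a : ℂ} (ha : ‖a‖ = 1) {s : ℝ} :
    sq b a s ⊆ Metric.closedBall (ctr b a s) s := by
  intro z hz
  rw [mem_sq ha] at hz
  have h3 := co_ctr ha s z (b := b)
  have h4 : (co a (z - b)).re = (co a (z - ctr b a s)).re + s / 2 := by
    rw [h3]; simp
  have h5 : (co a (z - b)).im = (co a (z - ctr b a s)).im + s / 2 := by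
    rw [h3]; simp
  rw [h4, h5] at hz
  rw [Metric.mem_closedBall, dist_eq_norm, ← norm_co ha]
  refine (norm_le_abs_re_add_abs_im _).trans ?_
  have h6 : |(co a (z - ctr b a s)).re| ≤ s / 2 := by
    rw [abs_le]
    constructor <;> linarith [hz.1.1, hz.1.2]
  have h7 : |(co a (z - ctr b a s)).im| ≤ s / 2 := by
    rw [abs_le]
    constructor <;> linarith [hz.2.1, hz.2.2]
  linarith

/-- the points of a square which are not corners have an inner normal -/
theorem exists_normal {b a : ℂ} (ha : ‖a‖ = 1) {s : ℝ} (hs : 0 < s) {z : ℂ} (hz : z ∈ sq b a s)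
    (hnc : ¬ (((co a (z - b)).re = 0 ∨ (co a (z - b)).re = s) ∧
      ((co a (z - b)).im = 0 ∨ (co a (z - b)).im = s))) :
    ∃ n : ℂ, ‖n‖ = 1 ∧ n ^ 4 = a ^ 4 ∧ ∃ ρ > 0, ∀ w : ℂ, ‖w‖ < ρ → 0 < (co n w).re →
      z + w ∈ interior (sq b a s) := by
  obtain ⟨⟨hx0, hx1⟩, ⟨hy0, hy1⟩⟩ := (mem_sq ha).1 hz
  have key : ∀ w : ℂ, co a (z + w - b) = co a (z - b) + co a w := fun w => by
    rw [← co_add]; congr 1; ring
  have hw : ∀ w : ℂ, |(co a w).re| ≤ ‖w‖ ∧ |(co a w).im| ≤ ‖w‖ := fun w => by
    rw [← norm_co ha w]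
    exact ⟨abs_re_le_norm _, abs_im_le_norm _⟩
  by_cases hx : (co a (z - b)).re = 0 ∨ (co a (z - b)).re = s
  · have hy : ¬ ((co a (z - b)).im = 0 ∨ (co a (z - b)).im = s) := fun h => hnc ⟨hx, h⟩
    push Not at hy
    have hy0' : 0 < (co a (z - b)).im := lt_of_le_of_ne hy0 (Ne.symm hy.1)
    have hy1' : (co a (z - b)).im < s := lt_of_le_of_ne hy1 hy.2
    have hρ : 0 < min s (min (co a (z - b)).im (s - (co a (z - b)).im)) :=
      lt_min hs (lt_min hy0' (by linarith))
    rcases hx with hx | hx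
    · refine ⟨a, ha, rfl, _, hρ, fun w hw1 hw2 => ?_⟩
      have h1 := lt_of_lt_of_le hw1 (min_le_left _ _)
      have h2 := lt_of_lt_of_le hw1 ((min_le_right _ _).trans (min_le_left _ _))
      have h3 := lt_of_lt_of_le hw1 ((min_le_right _ _).trans (min_le_right _ _))
      obtain ⟨h4, h5⟩ := hw w
      rw [abs_le] at h4 h5
      apply mem_interior_sq ha <;> rw [key w]
      · rw [add_re, hx]; linarith
      · rw [add_re, hx]; linarith [h4.2]
      · rw [add_im]; linarith [h5.1]
      · rw [add_im]; linarith [h5.2]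
    · refine ⟨-a, by rw [norm_neg, ha], by ring, _, hρ, fun w hw1 hw2 => ?_⟩
      have h1 := lt_of_lt_of_le hw1 (min_le_left _ _)
      have h2 := lt_of_lt_of_le hw1 ((min_le_right _ _).trans (min_le_left _ _))
      have h3 := lt_of_lt_of_le hw1 ((min_le_right _ _).trans (min_le_right _ _))
      obtain ⟨h4, h5⟩ := hw w
      rw [abs_le] at h4 h5
      have h6 : (co (-a) w).re = -(co a w).re := by
        unfold co
        rw [map_neg, mul_neg, neg_re]
      rw [h6] at hw2
      apply mem_interior_sq ha <;> rw [key w]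
      · rw [add_re, hx]; linarith [h4.1]
      · rw [add_re, hx]; linarith
      · rw [add_im]; linarith [h5.1]
      · rw [add_im]; linarith [h5.2]
  · push Not at hx
    have hx0' : 0 < (co a (z - b)).re := lt_of_le_of_ne hx0 (Ne.symm hx.1)
    have hx1' : (co a (z - b)).re < s := lt_of_le_of_ne hx1 hx.2
    by_cases hy : (co a (z - b)).im = 0 ∨ (co a (z - b)).im = s
    · have hρ : 0 < min s (min (co a (z - b)).re (s - (co a (z - b)).re)) :=
        lt_min hs (lt_min hx0' (by linarith))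
      have hI : ∀ w : ℂ, (co (I * a) w).re = (co a w).im := fun w => by
        unfold co
        rw [map_mul, conj_I]
        simp only [mul_re, mul_im, neg_re, neg_im, I_re, I_im]
        ring
      rcases hy with hy | hy
      · refine ⟨I * a, by rw [norm_mul, norm_I, one_mul, ha], by
          rw [mul_pow, I_pow_four, one_mul], _, hρ, fun w hw1 hw2 => ?_⟩
        have h1 := lt_of_lt_of_le hw1 (min_le_left _ _)
        have h2 := lt_of_lt_of_le hw1 ((min_le_right _ _).trans (min_le_left _ _))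
        have h3 := lt_of_lt_of_le hw1 ((min_le_right _ _).trans (min_le_right _ _))
        obtain ⟨h4, h5⟩ := hw w
        rw [abs_le] at h4 h5
        rw [hI] at hw2
        apply mem_interior_sq ha <;> rw [key w]
        · rw [add_re]; linarith [h4.1]
        · rw [add_re]; linarith [h4.2]
        · rw [add_im, hy]; linarith
        · rw [add_im, hy]; linarith [h5.2]
      · refine ⟨-(I * a), by rw [norm_neg, norm_mul, norm_I, one_mul, ha], by
          rw [neg_pow, mul_pow, I_pow_four]; ring, _, hρ, fun w hw1 hw2 => ?_⟩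
        have h1 := lt_of_lt_of_le hw1 (min_le_left _ _)
        have h2 := lt_of_lt_of_le hw1 ((min_le_right _ _).trans (min_le_left _ _))
        have h3 := lt_of_lt_of_le hw1 ((min_le_right _ _).trans (min_le_right _ _))
        obtain ⟨h4, h5⟩ := hw w
        rw [abs_le] at h4 h5
        have h6 : (co (-(I * a)) w).re = -(co a w).im := by
          have h7 := hI w
          unfold co at h7 ⊢
          rw [map_neg, mul_neg, neg_re, h7]
        rw [h6] at hw2
        apply mem_interior_sq ha <;> rw [key w]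
        · rw [add_re]; linarith [h4.1]
        · rw [add_re]; linarith [h4.2]
        · rw [add_im, hy]; linarith [h5.1]
        · rw [add_im, hy]; linarith
    · push Not at hy
      have hy0' : 0 < (co a (z - b)).im := lt_of_le_of_ne hy0 (Ne.symm hy.1)
      have hy1' : (co a (z - b)).im < s := lt_of_le_of_ne hy1 hy.2
      refine ⟨a, ha, rfl, min (min (co a (z - b)).re (s - (co a (z - b)).re))
        (min (co a (z - b)).im (s - (co a (z - b)).im)), lt_min (lt_min hx0' (by linarith))
          (lt_min hy0' (by linarith)), fun w hw1 hw2 => ?_⟩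
      have h1 := lt_of_lt_of_le hw1 ((min_le_left _ _).trans (min_le_left _ _))
      have h2 := lt_of_lt_of_le hw1 ((min_le_left _ _).trans (min_le_right _ _))
      have h3 := lt_of_lt_of_le hw1 ((min_le_right _ _).trans (min_le_left _ _))
      have h3' := lt_of_lt_of_le hw1 ((min_le_right _ _).trans (min_le_right _ _))
      obtain ⟨h4, h5⟩ := hw w
      rw [abs_le] at h4 h5
      apply mem_interior_sq ha <;> rw [key w]
      · rw [add_re]; linarith [h4.1]
      · rw [add_re]; linarith [h4.2]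
      · rw [add_im]; linarith [h5.1]
      · rw [add_im]; linarith [h5.2]

/-- two squares with disjoint interiors which share a point which is not a corner of them are
parallel -/
theorem parallel_of_common {b a b' a' : ℂ} (ha : ‖a‖ = 1) (ha' : ‖a'‖ = 1) {s s' : ℝ} (hs : 0 < s)
    (hs' : 0 < s') {z : ℂ} (hz : z ∈ sq b a s) (hz' : z ∈ sq b' a' s')
    (hdis : Disjoint (interior (sq b a s)) (interior (sq b' a' s')))
    (hnc : ¬ (((co a (z - b)).re = 0 ∨ (co a (z - b)).re = s) ∧
      ((co a (z - b)).im = 0 ∨ (co a (z - b)).im = s)))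
    (hnc' : ¬ (((co a' (z - b')).re = 0 ∨ (co a' (z - b')).re = s') ∧
      ((co a' (z - b')).im = 0 ∨ (co a' (z - b')).im = s'))) : a ^ 4 = a' ^ 4 := by
  obtain ⟨n, hn, hna, ρ, hρ, h1⟩ := exists_normal ha hs hz hnc
  obtain ⟨n', hn', hna', ρ', hρ', h2⟩ := exists_normal ha' hs' hz' hnc'
  by_cases hnn : n' = -n
  · rw [← hna, ← hna', hnn]
    ring
  · exfalso
    -- move in the direction `n + n'`
    have hne : n + n' ≠ 0 := fun h => hnn (eq_neg_of_add_eq_zero_right h)
    have hpos : 0 < ‖n + n'‖ ^ 2 := by positivity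
    have h3 : ‖n + n'‖ ^ 2 = 2 + 2 * (co n n').re := by
      rw [← normSq_eq_norm_sq, normSq_add, normSq_eq_norm_sq, normSq_eq_norm_sq, hn, hn']
      unfold co
      have h4 : (n * (starRingEnd ℂ) n').re = (n' * (starRingEnd ℂ) n).re := by
        simp only [mul_re, conj_re, conj_im]
        ring
      rw [h4]
      ring
    have h5 : (co n' n).re = (co n n').re := by
      unfold co
      simp only [mul_re, conj_re, conj_im]
      ring
    have h6 : (co n n).re = 1 := by
      unfold co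
      rw [mul_conj_one hn, one_re]
    have h7 : (co n' n').re = 1 := by
      unfold co
      rw [mul_conj_one hn', one_re]
    obtain ⟨ε, hε, hε1, hε2⟩ : ∃ ε : ℝ, 0 < ε ∧ ε * 2 < ρ ∧ ε * 2 < ρ' := by
      refine ⟨min ρ ρ' / 4, by positivity, ?_, ?_⟩
      · have := min_le_left ρ ρ'
        have h8 : 0 < min ρ ρ' := lt_min hρ hρ'
        linarith
      · have := min_le_right ρ ρ'
        have h8 : 0 < min ρ ρ' := lt_min hρ hρ'
        linarith
    have hnorm : ‖(ε : ℂ) * (n + n')‖ ≤ ε * 2 := by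
      rw [norm_mul, norm_real, Real.norm_eq_abs, abs_of_pos hε]
      have h8 : ‖n + n'‖ ≤ 2 := (norm_add_le _ _).trans (by rw [hn, hn']; norm_num)
      exact mul_le_mul_of_nonneg_left h8 hε.le
    have hco : ∀ m : ℂ, (co m ((ε : ℂ) * (n + n'))).re = ε * ((co m n).re + (co m n').re) := by
      intro m
      unfold co
      simp only [mul_re, mul_im, add_re, add_im, ofReal_re, ofReal_im]
      ring
    have h9 : z + (ε : ℂ) * (n + n') ∈ interior (sq b a s) := by
      refine h1 _ (hnorm.trans_lt hε1) ?_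
      rw [hco, h6]
      nlinarith
    have h10 : z + (ε : ℂ) * (n + n') ∈ interior (sq b' a' s') := by
      refine h2 _ (hnorm.trans_lt hε2) ?_
      rw [hco, h7, h5]
      nlinarith
    exact Set.disjoint_left.1 hdis h9 h10

/-- equal squares are parallel and have equal sides -/
theorem sq_inj {b a b' a' : ℂ} (ha : ‖a‖ = 1) (ha' : ‖a'‖ = 1) {s s' : ℝ} (hs : 0 < s)
    (hs' : 0 < s') (h : sq b a s = sq b' a' s') : s = s' ∧ a ^ 4 = a' ^ 4 := by
  -- the diagonal vector
  have key : ∀ {b a b' a' : ℂ} {s s' : ℝ}, ‖a‖ = 1 → ‖a'‖ = 1 → 0 < s → 0 < s' →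
      sq b a s = sq b' a' s' →
      |(co a' (a * ((s : ℂ) * (1 + I)))).re| ≤ s' ∧ |(co a' (a * ((s : ℂ) * (1 + I)))).im| ≤ s' := by
    intro b a b' a' s s' ha ha' hs hs' h
    have h1 : b ∈ sq b' a' s' := by
      rw [← h]
      exact ⟨0, 0, ⟨le_rfl, hs.le⟩, ⟨le_rfl, hs.le⟩, by simp⟩
    have h2 : b + a * ((s : ℂ) * (1 + I)) ∈ sq b' a' s' := by
      rw [← h]
      exact ⟨s, s, ⟨hs.le, le_rfl⟩, ⟨hs.le, le_rfl⟩, by ring⟩
    rw [mem_sq ha'] at h1 h2
    have h3 : co a' (b + a * ((s : ℂ) * (1 + I)) - b') =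
        co a' (b - b') + co a' (a * ((s : ℂ) * (1 + I))) := by
      rw [← co_add]
      congr 1
      ring
    rw [h3, add_re, add_im] at h2
    constructor
    · rw [abs_le]
      constructor <;> linarith [h1.1.1, h1.1.2, h2.1.1, h2.1.2]
    · rw [abs_le]
      constructor <;> linarith [h1.2.1, h1.2.2, h2.2.1, h2.2.2]
  have hnorm : ∀ {a a' : ℂ} {s : ℝ}, ‖a‖ = 1 → ‖a'‖ = 1 →
      (co a' (a * ((s : ℂ) * (1 + I)))).re ^ 2 + (co a' (a * ((s : ℂ) * (1 + I)))).im ^ 2 =
        2 * s ^ 2 := by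
    intro a a' s ha ha'
    have h1 : normSq (co a' (a * ((s : ℂ) * (1 + I)))) = 2 * s ^ 2 := by
      rw [normSq_eq_norm_sq, norm_co ha', norm_mul, ha, one_mul, ← normSq_eq_norm_sq, map_mul,
        normSq_ofReal]
      have h2 : normSq (1 + I) = 2 := by
        rw [normSq_apply]
        simp
        norm_num
      rw [h2]
      ring
    rw [normSq_apply] at h1
    rw [← h1]
    ring
  obtain ⟨h1, h2⟩ := key ha ha' hs hs' h
  obtain ⟨h3, h4⟩ := key ha' ha hs' hs h.symm
  have h5 := hnorm (s := s) ha ha'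
  have h6 := hnorm (s := s') ha' ha
  have hss : s = s' := by
    apply le_antisymm
    · have h7 := sq_le_sq' (abs_le.1 h1).1 (abs_le.1 h1).2
      have h8 := sq_le_sq' (abs_le.1 h2).1 (abs_le.1 h2).2
      nlinarith
    · have h7 := sq_le_sq' (abs_le.1 h3).1 (abs_le.1 h3).2
      have h8 := sq_le_sq' (abs_le.1 h4).1 (abs_le.1 h4).2
      nlinarith
  refine ⟨hss, ?_⟩
  subst hss
  -- `c = a * conj a'`
  set c : ℂ := co a' a with hc
  have h7 : co a' (a * ((s : ℂ) * (1 + I))) = (s : ℂ) * (c * (1 + I)) := by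
    rw [hc]
    unfold co
    ring
  have h8 : (co a' (a * ((s : ℂ) * (1 + I)))).re = s * (c.re - c.im) := by
    rw [h7]
    simp only [mul_re, mul_im, add_re, add_im, one_re, one_im, I_re, I_im, ofReal_re, ofReal_im]
    ring
  have h9 : (co a' (a * ((s : ℂ) * (1 + I)))).im = s * (c.re + c.im) := by
    rw [h7]
    simp only [mul_re, mul_im, add_re, add_im, one_re, one_im, I_re, I_im, ofReal_re, ofReal_im]
    ring
  rw [h8, h9] at h5
  rw [h8, abs_mul, abs_of_pos hs] at h1
  rw [h9, abs_mul, abs_of_pos hs] at h2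
  have h10 : |c.re - c.im| ≤ 1 := by
    by_contra hcon
    push Not at hcon
    nlinarith
  have h11 : |c.re + c.im| ≤ 1 := by
    by_contra hcon
    push Not at hcon
    nlinarith
  have h12 : (c.re - c.im) ^ 2 ≤ 1 := by
    have := sq_le_sq' (abs_le.1 h10).1 (abs_le.1 h10).2
    linarith
  have h13 : (c.re + c.im) ^ 2 ≤ 1 := by
    have := sq_le_sq' (abs_le.1 h11).1 (abs_le.1 h11).2
    linarith
  have h14 : (c.re - c.im) ^ 2 + (c.re + c.im) ^ 2 = 2 := by
    have h15 : s ^ 2 * ((c.re - c.im) ^ 2 + (c.re + c.im) ^ 2) = s ^ 2 * 2 := by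
      rw [← h8, ← h9] at h5
      rw [h8, h9] at h5
      nlinarith
    exact mul_left_cancel₀ (by positivity) h15
  have h16 : c.re * c.im = 0 := by nlinarith
  have h17 : c.re ^ 2 + c.im ^ 2 = 1 := by nlinarith
  have hc4 : c ^ 4 = 1 := by
    rcases mul_eq_zero.1 h16 with h | h
    · have h18 : c = (c.im : ℂ) * I := by
        apply Complex.ext <;> simp [h]
      rw [h18, mul_pow, I_pow_four, mul_one, ← ofReal_pow]
      have h19 : c.im ^ 4 = 1 := by
        rw [h] at h17
        have h20 : c.im ^ 2 = 1 := by linarith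
        calc c.im ^ 4 = (c.im ^ 2) ^ 2 := by ring
          _ = 1 := by rw [h20]; norm_num
      rw [h19, ofReal_one]
    · have h18 : c = (c.re : ℂ) := by
        apply Complex.ext <;> simp [h]
      rw [h18, ← ofReal_pow]
      have h19 : c.re ^ 4 = 1 := by
        rw [h] at h17
        have h20 : c.re ^ 2 = 1 := by linarith
        calc c.re ^ 4 = (c.re ^ 2) ^ 2 := by ring
          _ = 1 := by rw [h20]; norm_num
      rw [h19, ofReal_one]
  have h21 : a = a' * c := by rw [hc, a_mul_co ha']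
  rw [h21, mul_pow, hc4, mul_one]

end Pool.Agent.Helper32.SQ
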