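import Pool.Agent.Helper32.SQ.Edge
import Pool.Agent.Helper32.SQ.Pic

/-!
# MP_309e91_co : from coordinates to a unilateral equitransitive tiling
-/

set_option autoImplicit false

namespace Pool.Agent.Helper32.SQ

open Complex

theorem co_one (z : ℂ) : co 1 z = z := by
  unfold co
  rw [map_one, mul_one]

theorem norm_one' : ‖(1 : ℂ)‖ = 1 := norm_one

theorem sq_one_I (b : ℂ) (s : ℝ) : sq b I s = sq (b - s) 1 s := by
  have h := sq_I b 1 s
  rwa [mul_one, one_mul] at h

theorem sq_neg_one (b : ℂ) (s : ℝ) : sq b (-1) s = sq (b - s - I * s) 1 s := by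
  have h := sq_I b I s
  rw [I_mul_I, sq_one_I] at h
  rw [h]
  congr 1
  ring

theorem sq_neg_I (b : ℂ) (s : ℝ) : sq b (-I) s = sq (b - I * s) 1 s := by
  have h := sq_I b (-1) s
  rw [sq_neg_one] at h
  have h1 : I * (-1 : ℂ) = -I := by ring
  rw [h1] at h
  rw [h]
  congr 1
  ring

/-- the linear map of a signed permutation -/
theorem Sg.exists_form (A : Sg) : ∃ (α : ℂ) (k : Bool), ‖α‖ = 1 ∧ α ^ 4 = 1 ∧
    ∀ z : ℂ, α * (if k then (starRingEnd ℂ) z else z) =
      (A.fst z.re z.im : ℝ) + (A.snd z.re z.im : ℝ) * I := by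
  obtain ⟨sw, e, e', he, he'⟩ := A
  have hI4 := I_pow_four
  cases sw
  · rcases he with rfl | rfl <;> rcases he' with rfl | rfl
    · refine ⟨1, false, by simp, by norm_num, fun z => ?_⟩
      apply Complex.ext <;> simp [Sg.fst, Sg.snd]
    · refine ⟨1, true, by simp, by norm_num, fun z => ?_⟩
      apply Complex.ext <;> simp [Sg.fst, Sg.snd]
    · refine ⟨-1, true, by simp, by norm_num, fun z => ?_⟩
      apply Complex.ext <;> simp [Sg.fst, Sg.snd]
    · refine ⟨-1, false, by simp, by norm_num, fun z => ?_⟩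
      apply Complex.ext <;> simp [Sg.fst, Sg.snd]
  · rcases he with rfl | rfl <;> rcases he' with rfl | rfl
    · refine ⟨I, true, by simp, hI4, fun z => ?_⟩
      apply Complex.ext <;> simp [Sg.fst, Sg.snd]
    · refine ⟨-I, false, by simp, by rw [neg_pow, hI4]; norm_num, fun z => ?_⟩
      apply Complex.ext <;> simp [Sg.fst, Sg.snd]
    · refine ⟨I, false, by simp, hI4, fun z => ?_⟩
      apply Complex.ext <;> simp [Sg.fst, Sg.snd]
    · refine ⟨-I, true, by simp, by rw [neg_pow, hI4]; norm_num, fun z => ?_⟩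
      apply Complex.ext <;> simp [Sg.fst, Sg.snd]

/-- isometries in normal form -/
theorem exists_iso {α : ℂ} (hα : ‖α‖ = 1) (k : Bool) (c c' : ℂ) : ∃ g : ℂ ≃ᵢ ℂ, ∀ z,
    g z = α * (if k then (starRingEnd ℂ) (z - c) else (z - c)) + c' := by
  have h1 := mul_conj_one hα
  cases k
  · refine ⟨IsometryEquiv.mk' (fun z => α * (z - c) + c')
      (fun z => (starRingEnd ℂ) α * (z - c') + c) ?_ ?_, ?_⟩
    · intro z
      linear_combination (z - c') * h1
    · refine Isometry.of_dist_eq fun z w => ?_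
      rw [dist_eq_norm, dist_eq_norm]
      have : α * (z - c) + c' - (α * (w - c) + c') = α * (z - w) := by ring
      rw [this, norm_mul, hα, one_mul]
    · intro z
      rfl
  · refine ⟨IsometryEquiv.mk' (fun z => α * (starRingEnd ℂ) (z - c) + c')
      (fun z => α * (starRingEnd ℂ) (z - c') + c) ?_ ?_, ?_⟩
    · intro z
      rw [add_sub_cancel_right, map_mul, conj_conj]
      linear_combination (z - c') * h1
    · refine Isometry.of_dist_eq fun z w => ?_
      rw [dist_eq_norm, dist_eq_norm]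
      have : α * (starRingEnd ℂ) (z - c) + c' - (α * (starRingEnd ℂ) (w - c) + c') =
          α * (starRingEnd ℂ) (z - w) := by
        rw [map_sub, map_sub, map_sub]
        ring
      rw [this, norm_mul, hα, one_mul, RCLike.norm_conj]
    · intro z
      rfl

/-- the image of a square in the standard frame -/
theorem iso_image_sq {α : ℂ} (hα : ‖α‖ = 1) (hα4 : α ^ 4 = 1) (k : Bool) (c c' : ℂ) (g : ℂ ≃ᵢ ℂ)
    (hg : ∀ z, g z = α * (if k then (starRingEnd ℂ) (z - c) else (z - c)) + c') (b : ℂ) (s : ℝ) :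
    ∃ b', g '' sq b 1 s = sq b' 1 s := by
  cases k
  · have h : ∀ z, g z = α * z + (c' - α * c) := by
      intro z
      rw [hg]
      simp only [Bool.false_eq_true, if_false]
      ring
    obtain ⟨b', hb', -⟩ := sq_rot' norm_one' (a := α * 1) (by rw [mul_one, hα4, one_pow])
      (α * b + (c' - α * c)) s
    exact ⟨b', (image_sq_rot h).trans hb'⟩
  · have h : ∀ z, g z = α * (starRingEnd ℂ) z + (c' - α * (starRingEnd ℂ) c) := by
      intro z
      rw [hg]
      simp only [if_true]
      rw [map_sub]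
      ring
    have h4 : (-I * (α * (starRingEnd ℂ) 1)) ^ 4 = 1 ^ 4 := by
      rw [map_one, mul_one, mul_pow, hα4, neg_pow, I_pow_four]
      norm_num
    obtain ⟨b', hb', -⟩ := sq_rot' norm_one' h4
      (α * (starRingEnd ℂ) b + (c' - α * (starRingEnd ℂ) c)) s
    exact ⟨b', (image_sq_refl h).trans hb'⟩

namespace Pic

variable {ι : Type} {r : ℕ} (p : Pic ι r)

/-- the lower left corner -/
noncomputable def cor (i : ι) : ℂ := p.X i + p.Y i * I

/-- the tiles -/
noncomputable def tile (i : ι) : Set ℂ := sq (p.cor i) 1 (p.P (p.k i))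

theorem mem_tile {i : ι} {z : ℂ} : z ∈ p.tile i ↔
    (p.X i ≤ z.re ∧ z.re ≤ p.X i + p.P (p.k i)) ∧ (p.Y i ≤ z.im ∧ z.im ≤ p.Y i + p.P (p.k i)) := by
  unfold tile
  rw [mem_sq norm_one', co_one]
  unfold cor
  simp only [sub_re, add_re, ofReal_re, mul_re, ofReal_im, I_re, I_im, mul_zero, mul_one,
    sub_zero, add_zero, sub_im, add_im, mul_im, zero_add, sub_self]
  constructor
  · rintro ⟨⟨h1, h2⟩, h3, h4⟩
    exact ⟨⟨by linarith, by linarith⟩, by linarith, by linarith⟩
  · rintro ⟨⟨h1, h2⟩, h3, h4⟩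
    exact ⟨⟨by linarith, by linarith⟩, by linarith, by linarith⟩

theorem of_mem_interior_tile {i : ι} {z : ℂ} (h : z ∈ interior (p.tile i)) :
    (p.X i < z.re ∧ z.re < p.X i + p.P (p.k i)) ∧ (p.Y i < z.im ∧ z.im < p.Y i + p.P (p.k i)) := by
  unfold tile at h
  have h1 := of_mem_interior_sq norm_one' h
  rw [co_one] at h1
  unfold cor at h1
  simp only [sub_re, add_re, ofReal_re, mul_re, ofReal_im, I_re, I_im, mul_zero, mul_one,
    sub_zero, add_zero, sub_im, add_im, mul_im, zero_add, sub_self] at h1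
  obtain ⟨⟨h1, h2⟩, h3, h4⟩ := h1
  exact ⟨⟨by linarith, by linarith⟩, by linarith, by linarith⟩

theorem isSq_tile (i : ι) : IsSq (p.tile i) (p.P (p.k i)) :=
  ⟨p.pos _, p.cor i, 1, norm_one', rfl⟩

/-- a tile which contains an interior point of another tile -/
theorem eq_of_mem {i j : ι} {z : ℂ} (h : z ∈ p.tile i) (h1 : p.X j < z.re)
    (h2 : z.re < p.X j + p.P (p.k j)) (h3 : p.Y j < z.im) (h4 : z.im < p.Y j + p.P (p.k j)) :
    i = j := by
  by_contra hij
  obtain ⟨⟨g1, g2⟩, g3, g4⟩ := p.mem_tile.1 h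
  rcases p.sep i j hij with h5 | h5 | h5 | h5 <;> linarith

theorem til : Til (Set.range p.tile) where
  square := by
    rintro _ ⟨i, rfl⟩
    exact ⟨_, p.isSq_tile i⟩
  cover z := by
    obtain ⟨i, h1, h2, h3, h4⟩ := p.cov z.re z.im
    exact ⟨_, ⟨i, rfl⟩, p.mem_tile.2 ⟨⟨h1, h2⟩, h3, h4⟩⟩
  disjoint := by
    rintro _ ⟨i, rfl⟩ _ ⟨j, rfl⟩ hij
    rw [Set.disjoint_left]
    intro z hz hz'
    obtain ⟨⟨h1, h2⟩, h3, h4⟩ := p.of_mem_interior_tile hz'
    exact hij (by rw [p.eq_of_mem (interior_subset hz) h1 h2 h3 h4])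

theorem sz_eq : sz (Set.range p.tile) = Set.range p.P := by
  ext s
  constructor
  · rintro ⟨_, ⟨i, rfl⟩, h⟩
    exact ⟨p.k i, (p.isSq_tile i).unique h⟩
  · rintro ⟨j, rfl⟩
    obtain ⟨i, rfl⟩ := p.surj j
    exact ⟨_, ⟨i, rfl⟩, p.isSq_tile i⟩

theorem ctr_tile (i : ι) : ctr (p.cor i) 1 (p.P (p.k i)) =
    ((p.X i + p.P (p.k i) / 2 : ℝ) : ℂ) + ((p.Y i + p.P (p.k i) / 2 : ℝ) : ℂ) * I := by
  unfold ctr cor
  push_cast
  ring

theorem equi (hP : Function.Injective p.P) : ∀ s, ∀ T ∈ Set.range p.tile,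
    ∀ T' ∈ Set.range p.tile, IsSq T s → IsSq T' s →
      ∃ g : ℂ ≃ᵢ ℂ, (fun S : Set ℂ => g '' S) '' (Set.range p.tile) = Set.range p.tile ∧
        g '' T = T' := by
  rintro s _ ⟨i, rfl⟩ _ ⟨j, rfl⟩ hi hj
  have hk : p.k i = p.k j := by
    apply hP
    rw [(p.isSq_tile i).unique hi, (p.isSq_tile j).unique hj]
  obtain ⟨A, σ, hσ⟩ := p.sym i j hk
  obtain ⟨α, kk, hα, hα4, hA⟩ := A.exists_form
  obtain ⟨g, hg⟩ := exists_iso hα kk (ctr (p.cor i) 1 (p.P (p.k i)))
    (ctr (p.cor j) 1 (p.P (p.k j)))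
  -- images of the tiles
  have himg : ∀ t, g '' p.tile t = p.tile (σ t) := by
    intro t
    obtain ⟨h1, h2, h3⟩ := hσ t
    obtain ⟨b', hb'⟩ := iso_image_sq hα hα4 kk _ _ g hg (p.cor t) (p.P (p.k t))
    have h4 := iso_ctr g norm_one' norm_one' (p.pos _) (p.pos _) hb'
    have h5 : g (ctr (p.cor t) 1 (p.P (p.k t))) =
        ((p.X (σ t) + p.P (p.k t) / 2 : ℝ) : ℂ) + ((p.Y (σ t) + p.P (p.k t) / 2 : ℝ) : ℂ) * I := by
      rw [hg, hA, p.ctr_tile, p.ctr_tile, p.ctr_tile]
      simp only [sub_re, add_re, ofReal_re, mul_re, ofReal_im, I_re, I_im, mul_zero, mul_one,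
        sub_zero, add_zero, sub_im, add_im, mul_im, zero_add, sub_self]
      have e1 := A.fst_mul 2 (p.X t + p.P (p.k t) / 2 - (p.X i + p.P (p.k i) / 2))
        (p.Y t + p.P (p.k t) / 2 - (p.Y i + p.P (p.k i) / 2))
      have e2 := A.snd_mul 2 (p.X t + p.P (p.k t) / 2 - (p.X i + p.P (p.k i) / 2))
        (p.Y t + p.P (p.k t) / 2 - (p.Y i + p.P (p.k i) / 2))
      have e3 : 2 * (p.X t + p.P (p.k t) / 2 - (p.X i + p.P (p.k i) / 2)) =
        2 * p.X t + p.P (p.k t) - (2 * p.X i + p.P (p.k i)) := by ring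
      have e4 : 2 * (p.Y t + p.P (p.k t) / 2 - (p.Y i + p.P (p.k i) / 2)) =
        2 * p.Y t + p.P (p.k t) - (2 * p.Y i + p.P (p.k i)) := by ring
      rw [e3, e4] at e1 e2
      rw [e1] at h2
      rw [e2] at h3
      apply Complex.ext
      · simp only [add_re, ofReal_re, mul_re, ofReal_im, I_re, I_im, mul_zero, mul_one,
          sub_zero, add_zero, sub_self]
        linarith
      · simp only [add_im, ofReal_re, mul_im, ofReal_im, I_re, I_im, mul_zero, mul_one,
          add_zero, zero_add]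
        linarith
    rw [h5] at h4
    have h6 : b' = p.cor (σ t) := by
      unfold ctr at h4
      unfold cor
      push_cast at h4
      linear_combination -h4
    unfold tile
    rw [hb', h6, h1]
  refine ⟨g, ?_, ?_⟩
  · ext T
    constructor
    · rintro ⟨_, ⟨t, rfl⟩, rfl⟩
      exact ⟨σ t, (himg t).symm⟩
    · rintro ⟨u, rfl⟩
      obtain ⟨t, t1, t2, t3, t4⟩ := p.cov (g.symm (ctr (p.cor u) 1 (p.P (p.k u)))).re
        (g.symm (ctr (p.cor u) 1 (p.P (p.k u)))).im
      have hm : ctr (p.cor u) 1 (p.P (p.k u)) ∈ g '' p.tile t :=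
        ⟨g.symm (ctr (p.cor u) 1 (p.P (p.k u))), p.mem_tile.2 ⟨⟨t1, t2⟩, t3, t4⟩, by simp⟩
      rw [himg] at hm
      have hpos := p.pos (p.k u)
      have hu : σ t = u := by
        apply p.eq_of_mem hm
        · rw [p.ctr_tile]
          simp
          linarith
        · rw [p.ctr_tile]
          simp
          linarith
        · rw [p.ctr_tile]
          simp
          linarith
        · rw [p.ctr_tile]
          simp
          linarith
      exact ⟨p.tile t, ⟨t, rfl⟩, by rw [← hu]; exact himg t⟩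
  · rw [himg]
    obtain ⟨h1, h2, h3⟩ := hσ i
    rw [sub_self, sub_self] at h2 h3
    have e1 : A.fst 0 0 = 0 := by
      unfold Sg.fst
      split_ifs <;> ring
    have e2 : A.snd 0 0 = 0 := by
      unfold Sg.snd
      split_ifs <;> ring
    rw [e1, zero_add, ← hk] at h2
    rw [e2, zero_add, ← hk] at h3
    have e3 : p.X (σ i) = p.X j := by linarith
    have e4 : p.Y (σ i) = p.Y j := by linarith
    unfold tile cor
    rw [e3, e4, h1, hk]

theorem uni' (hP : Function.Injective p.P) : Uni (Set.range p.tile) := by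
  rintro e - _ ⟨i, rfl⟩ _ ⟨j, rfl⟩ ⟨s, b, a, hs, ha, hT, he⟩ ⟨s', b', a', hs', ha', hT', he'⟩
  have hane := a_ne_zero ha
  have hne : b ≠ b + a * s := by
    intro h
    have h1 : a * (s : ℂ) = 0 := by linear_combination -h
    rcases mul_eq_zero.1 h1 with h2 | h2
    · exact hane h2
    · exact hs.ne' (by exact_mod_cast h2)
  rcases segment_ends hne (he.symm.trans he') with ⟨h1, h2⟩ | ⟨h1, h2⟩
  · -- the same square
    rw [← h1] at h2
    have h3 : a * (s : ℂ) = a' * s' := by linear_combination h2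
    have h4 : s = s' := by
      have h5 := congrArg norm h3
      rw [norm_mul, norm_mul, ha, ha', norm_real, norm_real, Real.norm_eq_abs, Real.norm_eq_abs,
        abs_of_pos hs, abs_of_pos hs'] at h5
      linarith
    rw [← h4] at h3
    have h5 : a = a' := mul_right_cancel₀ (by exact_mod_cast hs.ne') h3
    rw [hT, hT', ← h1, ← h4, ← h5]
  · exfalso
    have h3 : a' * (s' : ℂ) = -(a * s) := by linear_combination -h1 + h2
    have h4 : s' = s := by
      have h5 := congrArg norm h3
      rw [norm_neg, norm_mul, norm_mul, ha, ha', norm_real, norm_real, Real.norm_eq_abs,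
        Real.norm_eq_abs, abs_of_pos hs, abs_of_pos hs'] at h5
      linarith
    rw [h4] at h3 hT'
    have h5 : a' = -a := by
      apply mul_right_cancel₀ (b := (s : ℂ)) (by exact_mod_cast hs.ne')
      rw [h3]
      ring
    rw [h5, ← h2] at hT'
    -- the sizes
    obtain ⟨e1, e2⟩ := sq_inj norm_one' ha (p.pos _) hs hT
    obtain ⟨e3, -⟩ := sq_inj norm_one' (by rw [norm_neg, ha]) (p.pos _) hs hT'
    have hk : p.k i = p.k j := hP (e1.trans e3.symm)
    rw [one_pow] at e2
    unfold tile at hT hT'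
    rw [e1] at hT
    rw [e3] at hT'
    have hre : ∀ t, (p.cor t).re = p.X t ∧ (p.cor t).im = p.Y t := by
      intro t
      unfold cor
      constructor <;> simp
    rcases pow_four_cases e2.symm with h | h | h | h
    · -- `a = 1`
      rw [h] at hT hT'
      rw [sq_neg_one] at hT'
      have g1 := (sq_b_inj norm_one' hs hs hT).1
      have g2 := (sq_b_inj norm_one' hs hs hT').1
      have g3 : p.cor i = p.cor j + s * I := by
        rw [g1, g2]
        ring
      refine (p.uni j i hk.symm).2 ⟨?_, ?_⟩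
      · have := congrArg Complex.re g3
        rw [(hre i).1, add_re, (hre j).1] at this
        rw [this]
        simp
      · have := congrArg Complex.im g3
        rw [(hre i).2, add_im, (hre j).2] at this
        rw [this, e3]
        simp
    · -- `a = -1`
      rw [h] at hT hT'
      rw [sq_neg_one] at hT
      rw [neg_neg] at hT'
      have g1 := (sq_b_inj norm_one' hs hs hT).1
      have g2 := (sq_b_inj norm_one' hs hs hT').1
      have g3 : p.cor j = p.cor i + s * I := by
        rw [g1, g2]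
        ring
      refine (p.uni i j hk).2 ⟨?_, ?_⟩
      · have := congrArg Complex.re g3
        rw [(hre j).1, add_re, (hre i).1] at this
        rw [this]
        simp
      · have := congrArg Complex.im g3
        rw [(hre j).2, add_im, (hre i).2] at this
        rw [this, e1]
        simp
    · -- `a = I`
      rw [h] at hT hT'
      rw [sq_one_I] at hT
      rw [sq_neg_I] at hT'
      have g1 := (sq_b_inj norm_one' hs hs hT).1
      have g2 := (sq_b_inj norm_one' hs hs hT').1
      have g3 : p.cor j = p.cor i + s := by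
        rw [g1, g2]
        ring
      refine (p.uni i j hk).1 ⟨?_, ?_⟩
      · have := congrArg Complex.re g3
        rw [(hre j).1, add_re, (hre i).1] at this
        rw [this, e1]
        simp
      · have := congrArg Complex.im g3
        rw [(hre j).2, add_im, (hre i).2] at this
        rw [this]
        simp
    · -- `a = -I`
      rw [h] at hT hT'
      rw [sq_neg_I] at hT
      rw [neg_neg, sq_one_I] at hT'
      have g1 := (sq_b_inj norm_one' hs hs hT).1
      have g2 := (sq_b_inj norm_one' hs hs hT').1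
      have g3 : p.cor i = p.cor j + s := by
        rw [g1, g2]
        ring
      refine (p.uni j i hk.symm).1 ⟨?_, ?_⟩
      · have := congrArg Complex.re g3
        rw [(hre i).1, add_re, (hre j).1] at this
        rw [this, e3]
        simp
      · have := congrArg Complex.im g3
        rw [(hre i).2, add_im, (hre j).2] at this
        rw [this]
        simp

end Pic

end Pool.Agent.Helper32.SQ
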