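import Pool.Agent.Helper32.SQ.Pic

/-!
# MP_309e91_co : a good finite presentation gives a tiling
-/

set_option autoImplicit false

namespace Pool.Agent.Helper32.SQ

namespace Good

variable {Q : Type} {r : ℕ} {k : Q → Fin r} {top : Fin r} {c K : ℕ} {S : Sys Q r}

theorem near (h : Good k top c K S) {s t : ℝ} (hs : |s| ≤ 1 / 2) (ht : |t| ≤ 1 / 2) :
    |s * S.u.1 + t * S.v.1| ≤ c * S.P top ∧ |s * S.u.2 + t * S.v.2| ≤ c * S.P top := by
  have g1 := abs_half hs h.u1
  have g2 := abs_half ht h.v1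
  have g3 := abs_add_le (s * S.u.1) (t * S.v.1)
  have g4 := abs_half hs h.u2
  have g5 := abs_half ht h.v2
  have g6 := abs_add_le (s * S.u.2) (t * S.v.2)
  constructor <;> linarith

/-- long combinations -/
theorem far' (h : Good k top c K S) (hc : 1 ≤ c) (hK : 1 ≤ K) {m n : ℤ}
    (hmn : (K : ℤ) ≤ |m| ∨ (K : ℤ) ≤ |n|) :
    4 * c * S.P top < |(cmb S.u S.v m n).1| ∨ 4 * c * S.P top < |(cmb S.u S.v m n).2| := by
  have hM := h.pos top
  have hc1 : (1 : ℝ) ≤ c := by exact_mod_cast hc
  have hK1 : (1 : ℝ) ≤ K := by exact_mod_cast hK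
  have hcM : 0 < c * S.P top := by positivity
  set t : ℤ := max |m| |n| with ht
  rcases le_or_gt t (2 * K) with h1 | h1
  · rcases h.far m n ((le_max_left _ _).trans h1) ((le_max_right _ _).trans h1) hmn with h2 | h2
    · left
      linarith
    · right
      linarith
  · have ht0 : (0 : ℝ) < t := by
      have : (0 : ℤ) < t := by omega
      exact_mod_cast this
    have ht2 : (2 * K : ℝ) < t := by exact_mod_cast h1
    set θ : ℝ := 3 * K / (2 * t) with hθ
    have hθ0 : 0 < θ := by positivity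
    have hθ1 : θ ≤ 1 := by
      rw [hθ, div_le_one (by positivity)]
      linarith
    have hθt : θ * t = 3 * K / 2 := by
      rw [hθ]
      field_simp
    have bd : ∀ x : ℤ, |x| ≤ t → |θ * x| ≤ 3 * K / 2 := by
      intro x hx
      rw [abs_mul, abs_of_pos hθ0, ← hθt]
      have : |(x : ℝ)| ≤ t := by exact_mod_cast hx
      exact mul_le_mul_of_nonneg_left this hθ0.le
    have bd2 : ∀ x : ℤ, |x| ≤ t → |round (θ * x)| ≤ 2 * (K : ℤ) := by
      intro x hx
      have g1 := bd x hx
      have g2 := abs_sub_round (θ * x)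
      have g3 := abs_sub_abs_le_abs_sub ((round (θ * x) : ℤ) : ℝ) (θ * x)
      rw [abs_sub_comm] at g3
      have g4 : |((round (θ * x) : ℤ) : ℝ)| ≤ 2 * K := by linarith
      exact_mod_cast g4
    have bd3 : ∀ x : ℤ, |x| = t → (K : ℤ) ≤ |round (θ * x)| := by
      intro x hx
      have g1 : |θ * x| = 3 * K / 2 := by
        rw [abs_mul, abs_of_pos hθ0, ← hθt, ← hx]
        push_cast
        rfl
      have g2 := abs_sub_round (θ * x)
      have g3 := abs_sub_abs_le_abs_sub (θ * x) ((round (θ * x) : ℤ) : ℝ)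
      have g4 : (K : ℝ) ≤ |((round (θ * x) : ℤ) : ℝ)| := by linarith
      exact_mod_cast g4
    have g0 : (K : ℤ) ≤ |round (θ * m)| ∨ (K : ℤ) ≤ |round (θ * n)| := by
      rcases max_choice |m| |n| with g | g
      · exact Or.inl (bd3 m (by rw [ht, g]))
      · exact Or.inr (bd3 n (by rw [ht, g]))
    have hr : ∀ x : ℤ, |(round (θ * x) : ℝ) - θ * x| ≤ 1 / 2 := by
      intro x
      rw [abs_sub_comm]
      exact abs_sub_round _
    obtain ⟨n1, n2⟩ := h.near (hr m) (hr n)
    have e1 : (cmb S.u S.v (round (θ * m)) (round (θ * n))).1 = θ * (cmb S.u S.v m n).1 +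
        (((round (θ * m) : ℝ) - θ * m) * S.u.1 + ((round (θ * n) : ℝ) - θ * n) * S.v.1) := by
      simp only [cmb]
      ring
    have e2 : (cmb S.u S.v (round (θ * m)) (round (θ * n))).2 = θ * (cmb S.u S.v m n).2 +
        (((round (θ * m) : ℝ) - θ * m) * S.u.2 + ((round (θ * n) : ℝ) - θ * n) * S.v.2) := by
      simp only [cmb]
      ring
    have hfin : ∀ z : ℝ, 4 * c * S.P top < |θ * z| → 4 * c * S.P top < |z| := by
      intro z hz
      rw [abs_mul, abs_of_pos hθ0] at hz
      have : θ * |z| ≤ 1 * |z| := mul_le_mul_of_nonneg_right hθ1 (abs_nonneg _)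
      linarith
    rcases h.far _ _ (bd2 m (le_max_left _ _)) (bd2 n (le_max_right _ _)) g0 with g | g
    · left
      rw [e1] at g
      have g1 := abs_add_le (θ * (cmb S.u S.v m n).1)
        (((round (θ * m) : ℝ) - θ * m) * S.u.1 + ((round (θ * n) : ℝ) - θ * n) * S.v.1)
      exact hfin _ (by linarith)
    · right
      rw [e2] at g
      have g1 := abs_add_le (θ * (cmb S.u S.v m n).2)
        (((round (θ * m) : ℝ) - θ * m) * S.u.2 + ((round (θ * n) : ℝ) - θ * n) * S.v.2)
      exact hfin _ (by linarith)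

/-- the two vectors are independent -/
theorem det_ne (h : Good k top c K S) (hc : 1 ≤ c) (hK : 1 ≤ K) : dt S.u S.v ≠ 0 := by
  intro h0
  have hM := h.pos top
  have hc1 : (1 : ℝ) ≤ c := by exact_mod_cast hc
  have hcM : 0 < c * S.P top := by positivity
  unfold dt at h0
  -- `v = τ u` or `u = 0`
  have key : (S.u.1 = 0 ∧ S.u.2 = 0) ∨ ∃ τ : ℝ, S.v.1 = τ * S.u.1 ∧ S.v.2 = τ * S.u.2 := by
    by_cases h1 : S.u.1 = 0
    · by_cases h2 : S.u.2 = 0
      · exact Or.inl ⟨h1, h2⟩
      · right
        refine ⟨S.v.2 / S.u.2, ?_, by field_simp⟩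
        rw [h1, zero_mul, zero_sub, neg_eq_zero] at h0
        rw [h1, mul_zero]
        exact (mul_eq_zero.1 h0).resolve_left h2
    · right
      refine ⟨S.v.1 / S.u.1, by field_simp, ?_⟩
      field_simp
      linarith
  rcases key with ⟨h1, h2⟩ | ⟨τ, h1, h2⟩
  · have h3 := h.far' hc hK (m := K) (n := 0) (Or.inl (by simp))
    simp only [cmb, h1, h2, Int.cast_zero, zero_mul, mul_zero, add_zero, abs_zero] at h3
    rcases h3 with h3 | h3 <;> linarith
  · have h3 := h.far' hc hK (m := -round (K * τ)) (n := K) (Or.inr (by simp))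
    have hr : |(K * τ : ℝ) - (round (K * τ : ℝ) : ℝ)| ≤ 1 / 2 := abs_sub_round _
    have e1 : (cmb S.u S.v (-round (K * τ : ℝ)) K).1 =
        ((K * τ : ℝ) - (round (K * τ : ℝ) : ℝ)) * S.u.1 := by
      simp only [cmb, h1]
      push_cast
      ring
    have e2 : (cmb S.u S.v (-round (K * τ : ℝ)) K).2 =
        ((K * τ : ℝ) - (round (K * τ : ℝ) : ℝ)) * S.u.2 := by
      simp only [cmb, h2]
      push_cast
      ring
    rw [e1, e2] at h3
    have g1 := abs_half hr h.u1
    have g2 := abs_half hr h.u2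
    rcases h3 with h3 | h3 <;> linarith

/-- the tiling of a good presentation -/
def pic (h : Good k top c K S) (hc : 1 ≤ c) (hK : 1 ≤ K) (hk : Function.Surjective k) :
    Pic (Q × ℤ × ℤ) r where
  k i := k i.1
  P := S.P
  X i := S.X i.1 + (cmb S.u S.v i.2.1 i.2.2).1
  Y i := S.Y i.1 + (cmb S.u S.v i.2.1 i.2.2).2
  pos := h.pos
  surj j := by
    obtain ⟨q, hq⟩ := hk j
    exact ⟨(q, 0, 0), hq⟩
  cov x y := by
    obtain ⟨s, t, hs, ht⟩ := dt_solve (h.det_ne hc hK) (x, y)
    dsimp only at hs ht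
    obtain ⟨n1, n2⟩ := h.near (abs_sub_round s) (abs_sub_round t)
    have e1 : (s - round s) * S.u.1 + (t - round t) * S.v.1 =
        x - (cmb S.u S.v (round s) (round t)).1 := by
      rw [hs]
      simp only [cmb]
      ring
    have e2 : (s - round s) * S.u.2 + (t - round t) * S.v.2 =
        y - (cmb S.u S.v (round s) (round t)).2 := by
      rw [ht]
      simp only [cmb]
      ring
    rw [e1] at n1
    rw [e2] at n2
    obtain ⟨q, m, n, -, -, h1, h2, h3, h4⟩ := h.cov _ _ n1 n2
    obtain ⟨f1, f2⟩ := cmb_add S.u S.v m n (round s) (round t)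
    refine ⟨(q, m + round s, n + round t), ?_, ?_, ?_, ?_⟩
    · show S.X q + (cmb S.u S.v (m + round s) (n + round t)).1 ≤ x
      rw [f1]
      linarith
    · show x ≤ S.X q + (cmb S.u S.v (m + round s) (n + round t)).1 + S.P (k q)
      rw [f1]
      linarith
    · show S.Y q + (cmb S.u S.v (m + round s) (n + round t)).2 ≤ y
      rw [f2]
      linarith
    · show y ≤ S.Y q + (cmb S.u S.v (m + round s) (n + round t)).2 + S.P (k q)
      rw [f2]
      linarith
  sep := by
    rintro ⟨q, m, n⟩ ⟨q', m', n'⟩ hne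
    dsimp only
    obtain ⟨f1, f2⟩ := cmb_sub S.u S.v m n m' n'
    have hM := h.pos top
    have hc1 : (1 : ℝ) ≤ c := by exact_mod_cast hc
    have hcM : S.P top ≤ c * S.P top := by nlinarith
    by_cases hmn : (K : ℤ) ≤ |m - m'| ∨ (K : ℤ) ≤ |n - n'|
    · have g1 := abs_le.1 (h.bx q)
      have g2 := abs_le.1 (h.bx q')
      have g3 := abs_le.1 (h.by' q)
      have g4 := abs_le.1 (h.by' q')
      have g5 := h.top_le (k q)
      have g6 := h.top_le (k q')
      rcases h.far' hc hK hmn with g | g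
      · rw [f1, lt_abs] at g
        rcases g with g | g
        · right; left
          linarith [g1.1, g2.2]
        · left
          linarith [g1.2, g2.1]
      · rw [f2, lt_abs] at g
        rcases g with g | g
        · right; right; right
          linarith [g3.1, g4.2]
        · right; right; left
          linarith [g3.2, g4.1]
    · push Not at hmn
      have h0 : ¬ (q = q' ∧ m - m' = 0 ∧ n - n' = 0) := by
        rintro ⟨rfl, h1, h2⟩
        apply hne
        rw [sub_eq_zero.1 h1, sub_eq_zero.1 h2]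
      rcases h.sep q q' _ _ hmn.1.le hmn.2.le h0 with g | g | g | g
      · rw [f1] at g
        left
        linarith
      · rw [f1] at g
        right; left
        linarith
      · rw [f2] at g
        right; right; left
        linarith
      · rw [f2] at g
        right; right; right
        linarith
  sym := by
    rintro ⟨q, m, n⟩ ⟨q', m', n'⟩ hkq
    dsimp only at hkq
    obtain ⟨A, ⟨α, β, -, -, a1, a2⟩, ⟨γ, δ, -, -, b1, b2⟩, hA⟩ := h.sym q q' hkq
    choose t' x y hx hy hkt h1 h2 using hA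
    refine ⟨A, fun i => (t' i.1, x i.1 + ((i.2.1 - m) * α + (i.2.2 - n) * γ) + m',
      y i.1 + ((i.2.1 - m) * β + (i.2.2 - n) * δ) + n'), ?_⟩
    rintro ⟨t, a, b⟩
    dsimp only
    have e1 := h1 t
    have e2 := h2 t
    -- the image of the difference of the lattice vectors
    have l1 : A.fst ((a - m : ℝ) * S.u.1 + (b - n : ℝ) * S.v.1)
        ((a - m : ℝ) * S.u.2 + (b - n : ℝ) * S.v.2) =
        (a - m : ℝ) * (cmb S.u S.v α β).1 + (b - n : ℝ) * (cmb S.u S.v γ δ).1 := by
      rw [A.fst_add, A.fst_mul, A.fst_mul, a1, b1]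
    have l2 : A.snd ((a - m : ℝ) * S.u.1 + (b - n : ℝ) * S.v.1)
        ((a - m : ℝ) * S.u.2 + (b - n : ℝ) * S.v.2) =
        (a - m : ℝ) * (cmb S.u S.v α β).2 + (b - n : ℝ) * (cmb S.u S.v γ δ).2 := by
      rw [A.snd_add, A.snd_mul, A.snd_mul, a2, b2]
    have d1 : 2 * (S.X t + (cmb S.u S.v a b).1) + S.P (k t) -
        (2 * (S.X q + (cmb S.u S.v m n).1) + S.P (k q)) =
        (2 * S.X t + S.P (k t) - (2 * S.X q + S.P (k q))) +
          2 * ((a - m : ℝ) * S.u.1 + (b - n : ℝ) * S.v.1) := by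
      simp only [cmb]
      ring
    have d2 : 2 * (S.Y t + (cmb S.u S.v a b).2) + S.P (k t) -
        (2 * (S.Y q + (cmb S.u S.v m n).2) + S.P (k q)) =
        (2 * S.Y t + S.P (k t) - (2 * S.Y q + S.P (k q))) +
          2 * ((a - m : ℝ) * S.u.2 + (b - n : ℝ) * S.v.2) := by
      simp only [cmb]
      ring
    refine ⟨hkt t, ?_, ?_⟩
    · rw [d1, d2, A.fst_add, A.fst_mul, l1]
      simp only [cmb] at e1 ⊢
      push_cast
      linear_combination e1
    · rw [d1, d2, A.snd_add, A.snd_mul, l2]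
      simp only [cmb] at e2 ⊢
      push_cast
      linear_combination e2
  uni := by
    rintro ⟨q, m, n⟩ ⟨q', m', n'⟩ hkq
    dsimp only at hkq ⊢
    obtain ⟨f1, f2⟩ := cmb_sub S.u S.v m n m' n'
    have hM := h.pos top
    have hc1 : (1 : ℝ) ≤ c := by exact_mod_cast hc
    have hcM : S.P top ≤ c * S.P top := by nlinarith
    have g1 := abs_le.1 (h.bx q)
    have g2 := abs_le.1 (h.bx q')
    have g3 := abs_le.1 (h.by' q)
    have g4 := abs_le.1 (h.by' q')
    have g5 := h.top_le (k q)
    have g6 := h.pos (k q)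
    have key : |(cmb S.u S.v (m - m') (n - n')).1| ≤ 4 * c * S.P top →
        |(cmb S.u S.v (m - m') (n - n')).2| ≤ 4 * c * S.P top → |m - m'| ≤ K ∧ |n - n'| ≤ K := by
      intro g g'
      by_contra hcon
      have hmn : (K : ℤ) ≤ |m - m'| ∨ (K : ℤ) ≤ |n - n'| := by
        by_contra hcon2
        push Not at hcon2
        exact hcon ⟨hcon2.1.le, hcon2.2.le⟩
      rcases h.far' hc hK hmn with g7 | g7 <;> linarith
    constructor
    · rintro ⟨e1, e2⟩
      obtain ⟨k1, k2⟩ := key (by
        rw [f1, abs_le]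
        constructor <;> linarith [g1.1, g1.2, g2.1, g2.2]) (by
        rw [f2, abs_le]
        constructor <;> linarith [g3.1, g3.2, g4.1, g4.2])
      refine (h.uni q q' _ _ k1 k2 hkq).1 ⟨?_, ?_⟩
      · rw [f1]
        linarith
      · rw [f2]
        linarith
    · rintro ⟨e1, e2⟩
      obtain ⟨k1, k2⟩ := key (by
        rw [f1, abs_le]
        constructor <;> linarith [g1.1, g1.2, g2.1, g2.2]) (by
        rw [f2, abs_le]
        constructor <;> linarith [g3.1, g3.2, g4.1, g4.2])
      refine (h.uni q q' _ _ k1 k2 hkq).2 ⟨?_, ?_⟩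
      · rw [f1]
        linarith
      · rw [f2]
        linarith

end Good

end Pool.Agent.Helper32.SQ
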