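import Mathlib

/-!
# MP_309e91_co : elimination of a real parameter (Fourier-Motzkin)

`Sim B x y` says that the real vectors `x` and `y` satisfy the same linear inequalities whose integer
coefficients have sum of absolute values at most `B`.
-/

set_option autoImplicit false

namespace Pool.Agent.Helper32.SQ

open Finset

section

variable {κ : Type*} [Fintype κ]

/-- value of a form -/
def fv (ρ : κ → ℤ) (x : κ → ℝ) : ℝ := ∑ k, (ρ k : ℝ) * x k

/-- size of a form -/
def fn (ρ : κ → ℤ) : ℤ := ∑ k, |ρ k|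

/-- the same linear conditions with coefficients bounded by `B` -/
def Sim (B : ℤ) (x y : κ → ℝ) : Prop := ∀ ρ : κ → ℤ, fn ρ ≤ B → (0 < fv ρ x ↔ 0 < fv ρ y)

theorem fn_nonneg (ρ : κ → ℤ) : 0 ≤ fn ρ := sum_nonneg fun _ _ => abs_nonneg _

theorem fv_add (ρ σ : κ → ℤ) (x : κ → ℝ) : fv (ρ + σ) x = fv ρ x + fv σ x := by
  unfold fv
  rw [← sum_add_distrib]
  refine sum_congr rfl fun k _ => ?_
  rw [Pi.add_apply]
  push_cast
  ring

theorem fv_smul (c : ℤ) (ρ : κ → ℤ) (x : κ → ℝ) : fv (c • ρ) x = c * fv ρ x := by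
  unfold fv
  rw [mul_sum]
  refine sum_congr rfl fun k _ => ?_
  rw [Pi.smul_apply, smul_eq_mul]
  push_cast
  ring

theorem fv_neg (ρ : κ → ℤ) (x : κ → ℝ) : fv (-ρ) x = -fv ρ x := by
  have h := fv_smul (-1) ρ x
  rw [neg_one_smul] at h
  rw [h]
  push_cast
  ring

theorem fv_zero (x : κ → ℝ) : fv (0 : κ → ℤ) x = 0 := by
  unfold fv
  simp

theorem fn_add (ρ σ : κ → ℤ) : fn (ρ + σ) ≤ fn ρ + fn σ := by
  unfold fn
  rw [← sum_add_distrib]
  exact sum_le_sum fun k _ => abs_add_le _ _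

theorem fn_smul (c : ℤ) (ρ : κ → ℤ) : fn (c • ρ) = |c| * fn ρ := by
  unfold fn
  rw [mul_sum]
  exact sum_congr rfl fun k _ => by rw [Pi.smul_apply, smul_eq_mul, abs_mul]

theorem fn_neg (ρ : κ → ℤ) : fn (-ρ) = fn ρ := by
  unfold fn
  exact sum_congr rfl fun k _ => by rw [Pi.neg_apply, abs_neg]

theorem le_fn (ρ : κ → ℤ) (k : κ) : |ρ k| ≤ fn ρ :=
  single_le_sum (f := fun k => |ρ k|) (fun _ _ => abs_nonneg _) (mem_univ k)

theorem finite_ball (κ : Type*) [Fintype κ] (B : ℤ) : {ρ : κ → ℤ | fn ρ ≤ B}.Finite := by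
  classical
  refine ((Fintype.piFinset fun _ : κ => Icc (-B) B).finite_toSet).subset ?_
  intro ρ hρ
  rw [mem_coe, Fintype.mem_piFinset]
  intro k
  rw [mem_Icc]
  exact abs_le.1 ((le_fn ρ k).trans hρ)

namespace Sim

variable {B : ℤ} {x y : κ → ℝ}

theorem symm (h : Sim B x y) : Sim B y x := fun ρ hρ => (h ρ hρ).symm

theorem refl (B : ℤ) (x : κ → ℝ) : Sim B x x := fun _ _ => Iff.rfl

theorem mono (h : Sim B x y) {A : ℤ} (hA : A ≤ B) : Sim A x y := fun ρ hρ => h ρ (hρ.trans hA)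

theorem reindex {κ' : Type*} [Fintype κ'] (h : Sim B x y) (e : κ' ≃ κ) :
    Sim B (x ∘ e) (y ∘ e) := by
  intro ρ hρ
  have h1 : ∀ z : κ → ℝ, fv ρ (z ∘ e) = fv (ρ ∘ e.symm) z := by
    intro z
    unfold fv
    rw [← e.sum_comp]
    refine sum_congr rfl fun k _ => ?_
    simp
  have h2 : fn (ρ ∘ e.symm) = fn ρ := by
    unfold fn
    rw [← e.sum_comp]
    refine sum_congr rfl fun k _ => ?_
    simp
  rw [h1, h1]
  exact h _ (by rw [h2]; exact hρ)

end Sim

/-- one more parameter -/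
def ext (x : κ → ℝ) (t : ℝ) (o : Option κ) : ℝ := o.elim t x

theorem fv_ext (ρ : Option κ → ℤ) (x : κ → ℝ) (t : ℝ) :
    fv ρ (ext x t) = ρ none * t + fv (fun k => ρ (some k)) x := by
  unfold fv
  rw [Fintype.sum_option]
  rfl

theorem fn_option (ρ : Option κ → ℤ) : fn ρ = |ρ none| + fn (fun k => ρ (some k)) := by
  unfold fn
  rw [Fintype.sum_option]

/-- the transfer of one parameter -/
theorem Sim.step {B : ℤ} {x y : κ → ℝ} (h : Sim (2 * B ^ 2) x y) (t : ℝ) :
    ∃ t' : ℝ, Sim B (ext x t) (ext y t') := by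
  classical
  set Φ : Finset (Option κ → ℤ) :=
    (finite_ball (Option κ) B).toFinset.filter fun ρ => 0 < ρ none with hΦ
  have hmem : ∀ ρ, ρ ∈ Φ ↔ fn ρ ≤ B ∧ 0 < ρ none := by
    intro ρ
    rw [hΦ, mem_filter, Set.Finite.mem_toFinset]
    exact Iff.rfl
  set θ : (κ → ℝ) → (Option κ → ℤ) → ℝ := fun z ρ => -fv (fun k => ρ (some k)) z / ρ none with hθ
  -- the order of the thresholds
  have hord : ∀ ρ ∈ Φ, ∀ σ ∈ Φ, (θ x ρ < θ x σ ↔ θ y ρ < θ y σ) := by
    intro ρ hρ σ hσ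
    obtain ⟨h1, h2⟩ := (hmem ρ).1 hρ
    obtain ⟨h3, h4⟩ := (hmem σ).1 hσ
    set τ : κ → ℤ := σ none • (fun k => ρ (some k)) + -(ρ none • fun k => σ (some k)) with hτ
    have hz : ∀ z : κ → ℝ, (θ z ρ < θ z σ ↔ 0 < fv τ z) := by
      intro z
      have h5 : (0 : ℝ) < ρ none := by exact_mod_cast h2
      have h6 : (0 : ℝ) < σ none := by exact_mod_cast h4
      rw [hθ]
      dsimp only
      rw [div_lt_div_iff₀ h5 h6, hτ, fv_add, fv_neg, fv_smul, fv_smul]
      constructor <;> intro h7 <;> linarith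
    have hn : fn τ ≤ 2 * B ^ 2 := by
      have e1 := fn_option ρ
      have e2 := fn_option σ
      have e3 := fn_nonneg (fun k => ρ (some k))
      have e4 := fn_nonneg (fun k => σ (some k))
      have e5 := abs_nonneg (ρ none)
      have e6 := abs_nonneg (σ none)
      have h5 : fn τ ≤ |σ none| * fn (fun k => ρ (some k)) + |ρ none| * fn fun k => σ (some k) := by
        rw [hτ]
        refine (fn_add _ _).trans ?_
        rw [fn_neg, fn_smul, fn_smul]
      have h6 : |σ none| * fn (fun k => ρ (some k)) ≤ B * B :=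
        mul_le_mul (by linarith) (by linarith) e3 (by linarith)
      have h7 : |ρ none| * fn (fun k => σ (some k)) ≤ B * B :=
        mul_le_mul (by linarith) (by linarith) e4 (by linarith)
      nlinarith
    rw [hz, hz]
    exact h τ hn
  -- the new parameter
  have key : ∃ t' : ℝ, ∀ ρ ∈ Φ, (θ x ρ < t ↔ θ y ρ < t') ∧ (t < θ x ρ ↔ t' < θ y ρ) := by
    by_cases hE : ∃ ε ∈ Φ, θ x ε = t
    · obtain ⟨ε, hε, rfl⟩ := hE
      exact ⟨θ y ε, fun ρ hρ => ⟨hord ρ hρ ε hε, hord ε hε ρ hρ⟩⟩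
    · push Not at hE
      obtain ⟨t', h1, h2⟩ := Order.exists_between_finsets
        ((Φ.filter fun ρ => θ x ρ < t).image (θ y)) ((Φ.filter fun ρ => t < θ x ρ).image (θ y)) (by
          intro a ha b hb
          obtain ⟨ρ, hρ, rfl⟩ := mem_image.1 ha
          obtain ⟨σ, hσ, rfl⟩ := mem_image.1 hb
          rw [mem_filter] at hρ hσ
          exact (hord ρ hρ.1 σ hσ.1).1 (hρ.2.trans hσ.2))
      refine ⟨t', fun ρ hρ => ?_⟩
      rcases lt_trichotomy (θ x ρ) t with h3 | h3 | h3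
      · have h4 := h1 _ (mem_image_of_mem _ (mem_filter.2 ⟨hρ, h3⟩))
        exact ⟨⟨fun _ => h4, fun _ => h3⟩, ⟨fun h5 => absurd h5 (not_lt.2 h3.le),
          fun h5 => absurd h5 (not_lt.2 h4.le)⟩⟩
      · exact absurd h3 (hE ρ hρ)
      · have h4 := h2 _ (mem_image_of_mem _ (mem_filter.2 ⟨hρ, h3⟩))
        exact ⟨⟨fun h5 => absurd h5 (not_lt.2 h3.le), fun h5 => absurd h5 (not_lt.2 h4.le)⟩,
          ⟨fun _ => h4, fun _ => h3⟩⟩
  obtain ⟨t', ht'⟩ := key
  refine ⟨t', fun ρ hρ => ?_⟩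
  rw [fv_ext, fv_ext]
  rcases lt_trichotomy (ρ none) 0 with h1 | h1 | h1
  · -- negative coefficient
    have h2 : -ρ ∈ Φ := (hmem _).2 ⟨by rw [fn_neg]; exact hρ, by rw [Pi.neg_apply]; omega⟩
    have h3 := (ht' _ h2).2
    have h4 : (ρ none : ℝ) < 0 := by exact_mod_cast h1
    have h5 : ∀ (z : κ → ℝ) (s : ℝ), (s < θ z (-ρ) ↔ 0 < ρ none * s +
        fv (fun k => ρ (some k)) z) := by
      intro z s
      have h6 : fv (fun k => (-ρ) (some k)) z = -fv (fun k => ρ (some k)) z :=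
        fv_neg (fun k => ρ (some k)) z
      rw [hθ]
      dsimp only
      rw [h6, Pi.neg_apply, lt_div_iff₀ (by push_cast; linarith)]
      push_cast
      constructor <;> intro h7 <;> linarith
    rw [← h5, ← h5]
    exact h3
  · rw [h1, Int.cast_zero, zero_mul, zero_mul, zero_add, zero_add]
    refine h _ ?_
    have h2 := fn_option ρ
    rw [h1, abs_zero, zero_add] at h2
    rw [← h2]
    have h3 := fn_nonneg ρ
    nlinarith
  · have h2 : ρ ∈ Φ := (hmem _).2 ⟨hρ, h1⟩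
    have h3 := (ht' _ h2).1
    have h4 : (0 : ℝ) < ρ none := by exact_mod_cast h1
    have h5 : ∀ (z : κ → ℝ) (s : ℝ), (θ z ρ < s ↔ 0 < ρ none * s +
        fv (fun k => ρ (some k)) z) := by
      intro z s
      rw [hθ]
      dsimp only
      rw [div_lt_iff₀ h4]
      constructor <;> intro h7 <;> linarith
    rw [← h5, ← h5]
    exact h3

end

/-- the bound for the transfer of `m` parameters -/
def tb : ℕ → ℤ → ℤ
  | 0, B => B
  | m + 1, B => 2 * tb m B ^ 2

/-- the transfer of several parameters -/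
theorem Sim.steps (m : ℕ) : ∀ {κ : Type} [Fintype κ] {B : ℤ} {x y : κ → ℝ}, Sim (tb m B) x y →
    ∀ w : Fin m → ℝ, ∃ w' : Fin m → ℝ, Sim B (Sum.elim x w) (Sum.elim y w') := by
  induction m with
  | zero =>
    intro κ _ B x y h w
    refine ⟨w, ?_⟩
    have h1 := Sim.reindex h (Equiv.sumEmpty κ (Fin 0))
    have h2 : ∀ z : κ → ℝ, z ∘ (Equiv.sumEmpty κ (Fin 0)) = Sum.elim z w := by
      intro z
      funext k
      rcases k with k | k
      · rfl
      · exact k.elim0
    rwa [h2, h2] at h1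
  | succ m ih =>
    intro κ _ B x y h w
    obtain ⟨t', ht'⟩ := Sim.step h (w 0)
    obtain ⟨w', hw'⟩ := ih ht' (fun i => w i.succ)
    refine ⟨Fin.cons t' w', ?_⟩
    -- reindexing
    let e : κ ⊕ Fin (m + 1) ≃ Option κ ⊕ Fin m :=
      { toFun := Sum.elim (fun k => Sum.inl (some k))
          (fun i => Fin.cases (Sum.inl none) (fun j => Sum.inr j) i)
        invFun := Sum.elim (fun o => o.elim (Sum.inr 0) Sum.inl) (fun j => Sum.inr j.succ)
        left_inv := by
          rintro (k | i)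
          · rfl
          · induction i using Fin.cases with
            | zero => rfl
            | succ j => rfl
        right_inv := by
          rintro ((_ | k) | j)
          · rfl
          · rfl
          · rfl }
    have h1 := Sim.reindex hw' e
    have h2 : ∀ (z : κ → ℝ) (s : ℝ) (v : Fin m → ℝ), Sum.elim (ext z s) v ∘ e =
        Sum.elim z (Fin.cons s v : Fin (m + 1) → ℝ) := by
      intro z s v
      funext k
      rcases k with k | i
      · rfl
      · induction i using Fin.cases with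
        | zero => rfl
        | succ j => rfl
    rw [h2, h2] at h1
    have h3 : (Fin.cons (w 0) (fun i : Fin m => w i.succ) : Fin (m + 1) → ℝ) = w := by
      funext i
      induction i using Fin.cases with
      | zero => rfl
      | succ j => rfl
    rwa [h3] at h1

/-- the transfer of parameters indexed by a finite type -/
theorem Sim.params {κ μ : Type} [Fintype κ] [Fintype μ] {B : ℤ} {x y : κ → ℝ}
    (h : Sim (tb (Fintype.card μ) B) x y) (w : μ → ℝ) :
    ∃ w' : μ → ℝ, Sim B (Sum.elim x w) (Sum.elim y w') := by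
  classical
  let e : μ ≃ Fin (Fintype.card μ) := Fintype.equivFin μ
  obtain ⟨w', hw'⟩ := Sim.steps (Fintype.card μ) h (w ∘ e.symm)
  refine ⟨w' ∘ e, ?_⟩
  have h1 := Sim.reindex hw' (Equiv.sumCongr (Equiv.refl κ) e)
  have h2 : ∀ (z : κ → ℝ) (v : Fin (Fintype.card μ) → ℝ),
      Sum.elim z v ∘ (Equiv.sumCongr (Equiv.refl κ) e) = Sum.elim z (v ∘ e) := by
    intro z v
    funext k
    rcases k with k | k <;> rfl
  rw [h2, h2] at h1
  have h3 : (w ∘ e.symm) ∘ e = w := by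
    funext i
    simp
  rwa [h3] at h1

/-! ### Linear functions -/

section

variable {κ : Type*} [Fintype κ]

/-- `f` is a form of size at most `A` -/
def IsLin (A : ℤ) (f : (κ → ℝ) → ℝ) : Prop := ∃ ρ : κ → ℤ, fn ρ ≤ A ∧ ∀ x, f x = fv ρ x

namespace IsLin

variable {A A' : ℤ} {f g : (κ → ℝ) → ℝ}

theorem mono (h : IsLin A f) (hA : A ≤ A') : IsLin A' f := by
  obtain ⟨ρ, h1, h2⟩ := h
  exact ⟨ρ, h1.trans hA, h2⟩

theorem proj (k : κ) : IsLin 1 (fun x : κ → ℝ => x k) := by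
  classical
  refine ⟨Pi.single k 1, ?_, fun x => ?_⟩
  · unfold fn
    rw [sum_eq_single k]
    · simp
    · intro b _ hb
      simp [hb]
    · intro h
      exact absurd (mem_univ k) h
  · unfold fv
    rw [sum_eq_single k]
    · simp
    · intro b _ hb
      simp [hb]
    · intro h
      exact absurd (mem_univ k) h

theorem zero : IsLin 0 (fun _ : κ → ℝ => (0 : ℝ)) := by
  refine ⟨0, ?_, fun x => (fv_zero x).symm⟩
  unfold fn
  simp

theorem add (hf : IsLin A f) (hg : IsLin A' g) : IsLin (A + A') (fun x => f x + g x) := by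
  obtain ⟨ρ, h1, h2⟩ := hf
  obtain ⟨σ, h3, h4⟩ := hg
  exact ⟨ρ + σ, (fn_add _ _).trans (add_le_add h1 h3), fun x => by rw [fv_add, ← h2, ← h4]⟩

theorem neg (hf : IsLin A f) : IsLin A (fun x => -f x) := by
  obtain ⟨ρ, h1, h2⟩ := hf
  exact ⟨-ρ, by rw [fn_neg]; exact h1, fun x => by rw [fv_neg, ← h2]⟩

theorem sub (hf : IsLin A f) (hg : IsLin A' g) : IsLin (A + A') (fun x => f x - g x) := by
  have h := hf.add hg.neg
  simpa only [sub_eq_add_neg] using h

theorem zmul (hf : IsLin A f) (c : ℤ) {C : ℤ} (hc : |c| ≤ C) :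
    IsLin (C * A) (fun x => (c : ℝ) * f x) := by
  obtain ⟨ρ, h1, h2⟩ := hf
  refine ⟨c • ρ, ?_, fun x => by rw [fv_smul, ← h2]⟩
  rw [fn_smul]
  exact mul_le_mul hc h1 (fn_nonneg _) ((abs_nonneg _).trans hc)

end IsLin

variable {A A' B : ℤ} {f g : (κ → ℝ) → ℝ} {x y : κ → ℝ}

theorem Sim.lt_iff (h : Sim B x y) (hf : IsLin A f) (hg : IsLin A' g) (hB : A + A' ≤ B) :
    f x < g x ↔ f y < g y := by
  obtain ⟨ρ, h1, h2⟩ := (hg.sub hf).mono (A' := B) (by linarith)
  have h3 := h ρ h1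
  rw [← h2, ← h2, sub_pos, sub_pos] at h3
  exact h3

theorem Sim.le_iff (h : Sim B x y) (hf : IsLin A f) (hg : IsLin A' g) (hB : A + A' ≤ B) :
    f x ≤ g x ↔ f y ≤ g y := by
  rw [← not_lt, ← not_lt, h.lt_iff hg hf (by linarith)]

theorem Sim.eq_iff (h : Sim B x y) (hf : IsLin A f) (hg : IsLin A' g) (hB : A + A' ≤ B) :
    f x = g x ↔ f y = g y := by
  rw [le_antisymm_iff, le_antisymm_iff, h.le_iff hf hg hB, h.le_iff hg hf (by linarith)]

end

end Pool.Agent.Helper32.SQ
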