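import Pool.Agent.Helper32.SQ.Pic
import Pool.Agent.Helper32.SQ.Sim

/-!
# MP_309e91_co : transfer of finite presentations
-/

set_option autoImplicit false

namespace Pool.Agent.Helper32.SQ

open Finset

/-! ### More linear functions -/

section

variable {κ μ : Type} [Fintype κ] [Fintype μ] {A A' : ℤ} {f g : (κ → ℝ) → ℝ}

theorem IsLin.inl (hf : IsLin A f) : IsLin A (fun w : κ ⊕ μ → ℝ => f (w ∘ Sum.inl)) := by
  obtain ⟨ρ, h1, h2⟩ := hf
  refine ⟨Sum.elim ρ 0, ?_, fun w => ?_⟩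
  · unfold fn at h1 ⊢
    rw [Fintype.sum_sum_type]
    simpa using h1
  · show f (w ∘ Sum.inl) = _
    rw [h2]
    unfold fv
    rw [Fintype.sum_sum_type]
    simp

theorem IsLin.two (hf : IsLin A f) : IsLin (2 * A) (fun x => 2 * f x) := by
  have h := hf.zmul 2 (C := 2) (by norm_num)
  simpa using h

theorem IsLin.nmul (hf : IsLin 1 f) (c : ℕ) : IsLin c (fun x => (c : ℝ) * f x) := by
  have h := hf.zmul (c : ℤ) (C := c) (by simp)
  simpa using h

theorem IsLin.nmul5 (hf : IsLin 1 f) (c : ℕ) : IsLin (5 * c) (fun x => 5 * (c : ℝ) * f x) := by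
  have h := hf.zmul (5 * c : ℤ) (C := 5 * c) (by rw [abs_of_nonneg (by positivity)])
  simpa using h

theorem IsLin.sgfst (G : Sg) (hf : IsLin A f) (hg : IsLin A g) :
    IsLin A (fun x => G.fst (f x) (g x)) := by
  have key : ∀ φ : (κ → ℝ) → ℝ, IsLin A φ → IsLin A (fun x => (G.e : ℝ) * φ x) := by
    intro φ hφ
    have h := hφ.zmul G.e (C := 1) (by rcases G.he with h | h <;> rw [h] <;> norm_num)
    rwa [one_mul] at h
  unfold Sg.fst
  rcases hs : G.sw with _ | _
  · simpa using key f hf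
  · simpa using key g hg

theorem IsLin.sgsnd (G : Sg) (hf : IsLin A f) (hg : IsLin A g) :
    IsLin A (fun x => G.snd (f x) (g x)) := by
  have key : ∀ φ : (κ → ℝ) → ℝ, IsLin A φ → IsLin A (fun x => (G.e' : ℝ) * φ x) := by
    intro φ hφ
    have h := hφ.zmul G.e' (C := 1) (by rcases G.he' with h | h <;> rw [h] <;> norm_num)
    rwa [one_mul] at h
  unfold Sg.snd
  rcases hs : G.sw with _ | _
  · simpa using key g hg
  · simpa using key f hf

end

variable {Q : Type} [Fintype Q] {r : ℕ}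

/-- the presentation with given real parameters -/
def toSys (x : Fin r ⊕ (Q ⊕ (Q ⊕ Fin 4)) → ℝ) : Sys Q r where
  P i := x (Sum.inl i)
  X q := x (Sum.inr (Sum.inl q))
  Y q := x (Sum.inr (Sum.inr (Sum.inl q)))
  u := (x (Sum.inr (Sum.inr (Sum.inr 0))), x (Sum.inr (Sum.inr (Sum.inr 1))))
  v := (x (Sum.inr (Sum.inr (Sum.inr 2))), x (Sum.inr (Sum.inr (Sum.inr 3))))

section

variable (Q r)

/-- type of the vectors of parameters -/
abbrev Vec : Type := Fin r ⊕ (Q ⊕ (Q ⊕ Fin 4)) → ℝ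

variable {Q r}

theorem lP (i : Fin r) : IsLin 1 (fun x : Vec Q r => (toSys x).P i) := IsLin.proj _

theorem lX (q : Q) : IsLin 1 (fun x : Vec Q r => (toSys x).X q) := IsLin.proj _

theorem lY (q : Q) : IsLin 1 (fun x : Vec Q r => (toSys x).Y q) := IsLin.proj _

theorem lu1 : IsLin 1 (fun x : Vec Q r => (toSys x).u.1) := IsLin.proj _
theorem lu2 : IsLin 1 (fun x : Vec Q r => (toSys x).u.2) := IsLin.proj _
theorem lv1 : IsLin 1 (fun x : Vec Q r => (toSys x).v.1) := IsLin.proj _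
theorem lv2 : IsLin 1 (fun x : Vec Q r => (toSys x).v.2) := IsLin.proj _

theorem lc1 {m n C : ℤ} (hm : |m| ≤ C) (hn : |n| ≤ C) :
    IsLin (2 * C) (fun x : Vec Q r => (cmb (toSys x).u (toSys x).v m n).1) :=
  ((lu1.zmul m hm).add (lv1.zmul n hn)).mono (by linarith)

theorem lc2 {m n C : ℤ} (hm : |m| ≤ C) (hn : |n| ≤ C) :
    IsLin (2 * C) (fun x : Vec Q r => (cmb (toSys x).u (toSys x).v m n).2) :=
  ((lu2.zmul m hm).add (lv2.zmul n hn)).mono (by linarith)

end

/-- the bound for the comparisons -/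
def cb (c K : ℕ) : ℤ := 5 * c + 8 * K + 20

theorem Sim.abs_le_iff {κ : Type*} [Fintype κ] {A A' B : ℤ} {f g : (κ → ℝ) → ℝ} {x y : κ → ℝ}
    (h : Sim B x y) (hf : IsLin A f) (hg : IsLin A' g) (hB : A + A' ≤ B) :
    |f x| ≤ g x ↔ |f y| ≤ g y := by
  rw [abs_le, abs_le]
  exact and_congr (h.le_iff hg.neg hf (by linarith)) (h.le_iff hf hg hB)

theorem Good.transfer {k : Q → Fin r} {top : Fin r} {c K : ℕ} {x y : Vec Q r}
    (h : Good k top c K (toSys x)) (hs : Sim (tb 2 (cb c K)) x y) :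
    Good k top c K (toSys y) := by
  have hcb : (20 : ℤ) ≤ cb c K := by
    unfold cb
    omega
  have hB : Sim (cb c K) x y := hs.mono (by
    show cb c K ≤ 2 * (2 * cb c K ^ 2) ^ 2
    have h1 : cb c K ≤ cb c K ^ 2 := by nlinarith
    have h2 : (2 * cb c K ^ 2) ≤ (2 * cb c K ^ 2) ^ 2 := by nlinarith
    nlinarith)
  have hK0 : (0 : ℤ) ≤ K := Int.natCast_nonneg K
  have hc0 : (0 : ℤ) ≤ c := Int.natCast_nonneg c
  refine { pos := ?_, top_le := ?_, u1 := ?_, u2 := ?_, v1 := ?_, v2 := ?_, bx := ?_, by' := ?_,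
           far := ?_, cov := ?_, sep := ?_, sym := ?_, uni := ?_ }
  · intro i
    exact (hB.lt_iff IsLin.zero (lP i) (by unfold cb; omega)).1 (h.pos i)
  · intro i
    exact (hB.le_iff (lP i) (lP top) (by unfold cb; omega)).1 (h.top_le i)
  · exact (hB.abs_le_iff lu1 ((lP top).nmul c) (by unfold cb; omega)).1 h.u1
  · exact (hB.abs_le_iff lu2 ((lP top).nmul c) (by unfold cb; omega)).1 h.u2
  · exact (hB.abs_le_iff lv1 ((lP top).nmul c) (by unfold cb; omega)).1 h.v1
  · exact (hB.abs_le_iff lv2 ((lP top).nmul c) (by unfold cb; omega)).1 h.v2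
  · intro q
    exact (hB.abs_le_iff (lX q) ((lP top).nmul c) (by unfold cb; omega)).1 (h.bx q)
  · intro q
    exact (hB.abs_le_iff (lY q) ((lP top).nmul c) (by unfold cb; omega)).1 (h.by' q)
  · intro m n hm hn hmn
    rcases h.far m n hm hn hmn with g | g
    · left
      rw [lt_abs] at g ⊢
      rcases g with g | g
      · left
        exact (hB.lt_iff ((lP top).nmul5 c) (lc1 hm hn) (by unfold cb; omega)).1 g
      · right
        exact (hB.lt_iff ((lP top).nmul5 c) (lc1 hm hn).neg (by unfold cb; omega)).1 g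
    · right
      rw [lt_abs] at g ⊢
      rcases g with g | g
      · left
        exact (hB.lt_iff ((lP top).nmul5 c) (lc2 hm hn) (by unfold cb; omega)).1 g
      · right
        exact (hB.lt_iff ((lP top).nmul5 c) (lc2 hm hn).neg (by unfold cb; omega)).1 g
  · intro z₁ z₂ hz₁ hz₂
    have hs' : Sim (tb (Fintype.card (Fin 2)) (cb c K)) y x := by
      rw [Fintype.card_fin]
      exact hs.symm
    obtain ⟨w, hw⟩ := hs'.params (![z₁, z₂] : Fin 2 → ℝ)
    have e1 : |w 0| ≤ c * (toSys x).P top :=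
      (hw.abs_le_iff (IsLin.proj (Sum.inr 0)) (((lP top).nmul c).inl) (by unfold cb; omega)).1 hz₁
    have e2 : |w 1| ≤ c * (toSys x).P top :=
      (hw.abs_le_iff (IsLin.proj (Sum.inr 1)) (((lP top).nmul c).inl) (by unfold cb; omega)).1 hz₂
    obtain ⟨q, m, n, hm, hn, g1, g2, g3, g4⟩ := h.cov _ _ e1 e2
    refine ⟨q, m, n, hm, hn, ?_, ?_, ?_, ?_⟩
    · exact (hw.le_iff ((lX q).add (lc1 hm hn)).inl (IsLin.proj (Sum.inr 0))
        (by unfold cb; omega)).2 g1
    · exact (hw.le_iff (IsLin.proj (Sum.inr 0)) (((lX q).add (lc1 hm hn)).add (lP (k q))).inl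
        (by unfold cb; omega)).2 g2
    · exact (hw.le_iff ((lY q).add (lc2 hm hn)).inl (IsLin.proj (Sum.inr 1))
        (by unfold cb; omega)).2 g3
    · exact (hw.le_iff (IsLin.proj (Sum.inr 1)) (((lY q).add (lc2 hm hn)).add (lP (k q))).inl
        (by unfold cb; omega)).2 g4
  · intro q q' m n hm hn hne
    rcases h.sep q q' m n hm hn hne with g | g | g | g
    · left
      exact (hB.le_iff (((lX q).add (lc1 hm hn)).add (lP (k q))) (lX q')
        (by unfold cb; omega)).1 g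
    · right; left
      exact (hB.le_iff ((lX q').add (lP (k q'))) ((lX q).add (lc1 hm hn))
        (by unfold cb; omega)).1 g
    · right; right; left
      exact (hB.le_iff (((lY q).add (lc2 hm hn)).add (lP (k q))) (lY q')
        (by unfold cb; omega)).1 g
    · right; right; right
      exact (hB.le_iff ((lY q').add (lP (k q'))) ((lY q).add (lc2 hm hn))
        (by unfold cb; omega)).1 g
  · intro q q' hkq
    obtain ⟨G, ⟨m₁, n₁, hm₁, hn₁, a1, a2⟩, ⟨m₂, n₂, hm₂, hn₂, b1, b2⟩, hG⟩ := h.sym q q' hkq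
    refine ⟨G, ⟨m₁, n₁, hm₁, hn₁, ?_, ?_⟩, ⟨m₂, n₂, hm₂, hn₂, ?_, ?_⟩, ?_⟩
    · exact (hB.eq_iff (lu1.sgfst G lu2) (lc1 hm₁ hn₁) (by unfold cb; omega)).1 a1
    · exact (hB.eq_iff (lu1.sgsnd G lu2) (lc2 hm₁ hn₁) (by unfold cb; omega)).1 a2
    · exact (hB.eq_iff (lv1.sgfst G lv2) (lc1 hm₂ hn₂) (by unfold cb; omega)).1 b1
    · exact (hB.eq_iff (lv1.sgsnd G lv2) (lc2 hm₂ hn₂) (by unfold cb; omega)).1 b2
    · intro t
      obtain ⟨t', m, n, hm, hn, hk, g1, g2⟩ := hG t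
      have l1 : ∀ s : Q, IsLin 3 (fun x : Vec Q r => 2 * (toSys x).X s + (toSys x).P (k s)) :=
        fun s => ((lX s).two.add (lP (k s))).mono (by norm_num)
      have l2 : ∀ s : Q, IsLin 3 (fun x : Vec Q r => 2 * (toSys x).Y s + (toSys x).P (k s)) :=
        fun s => ((lY s).two.add (lP (k s))).mono (by norm_num)
      have l3 := (l1 t).sub (l1 q)
      have l4 := (l2 t).sub (l2 q)
      refine ⟨t', m, n, hm, hn, hk, ?_, ?_⟩
      · exact (hB.eq_iff ((((lX t').add (lc1 hm hn)).two).add (lP (k t)))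
          ((l3.sgfst G l4).add (l1 q')) (by unfold cb; omega)).1 g1
      · exact (hB.eq_iff ((((lY t').add (lc2 hm hn)).two).add (lP (k t)))
          ((l3.sgsnd G l4).add (l2 q')) (by unfold cb; omega)).1 g2
  · intro q q' m n hm hn hkq
    obtain ⟨g1, g2⟩ := h.uni q q' m n hm hn hkq
    constructor
    · rintro ⟨e1, e2⟩
      exact g1 ⟨(hB.eq_iff (lX q') (((lX q).add (lc1 hm hn)).add (lP (k q)))
        (by unfold cb; omega)).2 e1, (hB.eq_iff (lY q') ((lY q).add (lc2 hm hn))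
        (by unfold cb; omega)).2 e2⟩
    · rintro ⟨e1, e2⟩
      exact g2 ⟨(hB.eq_iff (lX q') ((lX q).add (lc1 hm hn)) (by unfold cb; omega)).2 e1,
        (hB.eq_iff (lY q') (((lY q).add (lc2 hm hn)).add (lP (k q))) (by unfold cb; omega)).2 e2⟩

/-- THE TRANSFER -/
theorem Good.exists_transfer {k : Q → Fin r} {top : Fin r} {c K : ℕ} {S : Sys Q r}
    (h : Good k top c K S) {P' : Fin r → ℝ}
    (hs : Sim (tb (2 * Fintype.card Q + 4) (tb 2 (cb c K))) S.P P') :
    ∃ S' : Sys Q r, S'.P = P' ∧ Good k top c K S' := by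
  set w : Q ⊕ (Q ⊕ Fin 4) → ℝ := Sum.elim S.X (Sum.elim S.Y ![S.u.1, S.u.2, S.v.1, S.v.2]) with hw
  have hcard : Fintype.card (Q ⊕ (Q ⊕ Fin 4)) = 2 * Fintype.card Q + 4 := by
    rw [Fintype.card_sum, Fintype.card_sum, Fintype.card_fin]
    ring
  have hs' : Sim (tb (Fintype.card (Q ⊕ (Q ⊕ Fin 4))) (tb 2 (cb c K))) S.P P' := by
    rw [hcard]
    exact hs
  obtain ⟨w', hw'⟩ := hs'.params w
  have h1 : toSys (Sum.elim S.P w) = S := rfl
  refine ⟨toSys (Sum.elim P' w'), rfl, ?_⟩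
  exact Good.transfer (x := Sum.elim S.P w) (by rw [h1]; exact h) hw'

end Pool.Agent.Helper32.SQ
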