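import Pool.Agent.Helper32.SQ.FinFam
import Pool.Agent.Helper32.SQ.FrmPer
import Pool.Agent.Helper32.SQ.PicTil
import Pool.Agent.Helper32.SQ.Cone
import Pool.Agent.Helper32.SQ.Rec
import Pool.Agent.Helper32.SQ.Ext
import Pool.Agent.Helper32.SQ.Trans

/-!
# MP_309e91_co : the size vectors are exactly the points of finitely many cones
-/

set_option autoImplicit false

namespace Pool.Agent.Helper32.SQ

open Finset Module

/-- equitransitive -/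
def Equi (𝒯 : Set (Set ℂ)) : Prop := ∀ s, ∀ T ∈ 𝒯, ∀ T' ∈ 𝒯, IsSq T s → IsSq T' s →
  ∃ g : ℂ ≃ᵢ ℂ, (fun S : Set ℂ => g '' S) '' 𝒯 = 𝒯 ∧ g '' T = T'

/-- the size vectors of unilateral equitransitive tilings -/
def Real' (r : ℕ) : Set (Fin r → ℝ) :=
  {p | StrictMono p ∧ ∃ 𝒯 : Set (Set ℂ), Til 𝒯 ∧ Equi 𝒯 ∧ Uni 𝒯 ∧ Set.range p = sz 𝒯}

/-- the constants -/
def cr (r : ℕ) : ℕ := 64 * r + 1

/-- the bound -/
def Br (r : ℕ) : ℤ := (10 ^ 7 * ((r : ℤ) + 1) ^ 2) ^ (2 ^ (32 * r + 6))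

theorem two_tb (m : ℕ) (B : ℤ) : 2 * tb m B = (2 * B) ^ (2 ^ m) := by
  induction m with
  | zero => simp [tb]
  | succ m ih =>
    calc 2 * tb (m + 1) B = (2 * tb m B) ^ 2 := by
          rw [tb]
          ring
      _ = ((2 * B) ^ (2 ^ m)) ^ 2 := by rw [ih]
      _ = (2 * B) ^ (2 ^ (m + 1)) := by rw [← pow_mul, ← pow_succ]

theorem base_pos (r : ℕ) : (1 : ℤ) ≤ 10 ^ 7 * ((r : ℤ) + 1) ^ 2 := by
  have h1 : (0 : ℤ) ≤ r := Int.natCast_nonneg r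
  nlinarith

theorem sq_le_Br (r : ℕ) : (10 ^ 7 * ((r : ℤ) + 1) ^ 2) ^ 2 ≤ Br r := by
  unfold Br
  refine pow_le_pow_right₀ (base_pos r) ?_
  calc 2 = 2 ^ 1 := rfl
    _ ≤ 2 ^ (32 * r + 6) := Nat.pow_le_pow_right (by norm_num) (by omega)

theorem le_Br {r N : ℕ} (hN : N ≤ 16 * r) :
    tb (2 * N + 4) (tb 2 (cb (cr r) ((12 * cr r + 1) ^ 2))) ≤ Br r := by
  have h0 : (0 : ℤ) ≤ r := Int.natCast_nonneg r
  have h1 : 2 * tb (2 * N + 4) (tb 2 (cb (cr r) ((12 * cr r + 1) ^ 2))) =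
      (2 * cb (cr r) ((12 * cr r + 1) ^ 2)) ^ (2 ^ (2 * N + 6)) := by
    rw [two_tb, two_tb, ← pow_mul]
    congr 1
    ring
  have h2 : (0 : ℤ) ≤ 2 * cb (cr r) ((12 * cr r + 1) ^ 2) := by
    unfold cb
    positivity
  have h3 : 2 * cb (cr r) ((12 * cr r + 1) ^ 2) ≤ 10 ^ 7 * ((r : ℤ) + 1) ^ 2 := by
    unfold cb cr
    push_cast
    nlinarith
  have h4 : (2 * cb (cr r) ((12 * cr r + 1) ^ 2)) ^ (2 ^ (2 * N + 6)) ≤ Br r := by
    calc (2 * cb (cr r) ((12 * cr r + 1) ^ 2)) ^ (2 ^ (2 * N + 6))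
        ≤ (10 ^ 7 * ((r : ℤ) + 1) ^ 2) ^ (2 ^ (2 * N + 6)) := pow_le_pow_left₀ h2 h3 _
      _ ≤ Br r := by
        unfold Br
        refine pow_le_pow_right₀ (base_pos r) ?_
        exact Nat.pow_le_pow_right (by norm_num) (by omega)
  have h5 : (0 : ℤ) ≤ (2 * cb (cr r) ((12 * cr r + 1) ^ 2)) ^ (2 ^ (2 * N + 6)) :=
    pow_nonneg h2 _
  linarith

theorem rbnd_le_Br (r : ℕ) : (r : ℤ) * Frm.bnd r ≤ Br r := by
  refine le_trans ?_ (sq_le_Br r)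
  have h0 : (0 : ℤ) ≤ r := Int.natCast_nonneg r
  have h7 : (10 ^ 7 * ((r : ℤ) + 1) ^ 2) ^ 2 = 10 ^ 14 * ((r : ℤ) + 1) ^ 4 := by ring
  rw [h7]
  unfold Frm.bnd
  push_cast
  have h1 : (32 * (r : ℤ) + 1) ≤ 32 * (r + 1) := by linarith
  have h2 : (32 * (r : ℤ) + 1) ^ 3 ≤ (32 * (r + 1)) ^ 3 :=
    pow_le_pow_left₀ (by positivity) h1 3
  have h3 : (r : ℤ) * (3 * (36 * (32 * (r : ℤ) + 1) ^ 2) * (32 * (r : ℤ) + 1)) =
      108 * (r * (32 * (r : ℤ) + 1) ^ 3) := by ring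
  rw [h3]
  have h4 : (r : ℤ) * (32 * (r : ℤ) + 1) ^ 3 ≤ (r + 1) * (32 * (r + 1)) ^ 3 :=
    mul_le_mul (by linarith) h2 (by positivity) (by positivity)
  have h5 : (0 : ℤ) ≤ ((r : ℤ) + 1) ^ 4 := by positivity
  have h6 : ((r : ℤ) + 1) * (32 * (r + 1)) ^ 3 = 32768 * ((r : ℤ) + 1) ^ 4 := by ring
  rw [h6] at h4
  linarith

theorem two_le_Br (r : ℕ) : 2 ≤ Br r := by
  refine le_trans ?_ (sq_le_Br r)
  have h0 : (0 : ℤ) ≤ r := Int.natCast_nonneg r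
  have h5 : (1 : ℤ) ≤ ((r : ℤ) + 1) ^ 4 := one_le_pow₀ (by linarith)
  have h7 : (10 ^ 7 * ((r : ℤ) + 1) ^ 2) ^ 2 = 10 ^ 14 * ((r : ℤ) + 1) ^ 4 := by ring
  rw [h7]
  linarith

/-- a frame of a tiling -/
theorem exists_frm' {r : ℕ} {p : Fin r → ℝ} {𝒯 : Set (Set ℂ)}
    (h : Til 𝒯) (he : Equi 𝒯) (hr : Set.range p = sz 𝒯) :
    ∃ F : Frm 𝒯, Set.range p = F.s '' 𝒯 ∧
      ∀ T ∈ 𝒯, ∀ T' ∈ 𝒯, F.s T = F.s T' → ∃ g : ℂ ≃ᵢ ℂ, IsSym 𝒯 g ∧ g '' T = T' := by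
  have hf : (sz 𝒯).Finite := by rw [← hr]; exact Set.finite_range _
  obtain ⟨F, hF⟩ := h.exists_frm hf
  have h1 : F.s '' 𝒯 = sz 𝒯 := by
    ext x
    constructor
    · rintro ⟨T, hT, rfl⟩
      exact ⟨T, hT, hF T hT⟩
    · rintro ⟨T, hT, hx⟩
      exact ⟨T, hT, (hF T hT).unique hx⟩
  refine ⟨F, hr.trans h1.symm, ?_⟩
  intro T hT T' hT' hs
  obtain ⟨g, hg, hgT⟩ := he (F.s T) T hT T' hT' (hF T hT) (hs ▸ hF T' hT')
  exact ⟨g, isSym_of_image hg, hgT⟩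

theorem dim_Real {r : ℕ} {p : Fin r → ℝ} (hp : p ∈ Real' r) :
    finrank ℚ (Vr (rel1 (Br r) p)) ≤ 2 := by
  obtain ⟨hm, 𝒯, h, he, -, hr⟩ := hp
  obtain ⟨F, hF, heq⟩ := exists_frm' h he hr
  refine le_trans (Submodule.finrank_mono ?_) (F.dim_rel p hm.injective hF heq)
  intro f hf ρ hρ
  refine hf ρ ⟨?_, hρ.2⟩
  refine le_trans ?_ (rbnd_le_Br r)
  unfold fn
  calc ∑ k, |ρ k| ≤ ∑ _k : Fin r, (Frm.bnd r : ℤ) := sum_le_sum fun k _ => hρ.1 k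
    _ = r * Frm.bnd r := by simp

/-- realisability only depends on the signs of the forms of bounded size -/
theorem transfer_Real {r : ℕ} (hr0 : 1 ≤ r) {p p' : Fin r → ℝ} (hp : p ∈ Real' r)
    (hs : Sim (Br r) p p') : p' ∈ Real' r := by
  obtain ⟨hm, 𝒯, h, he, hu, hr⟩ := hp
  obtain ⟨F, hF, heq⟩ := exists_frm' h he hr
  have hfin : (F.s '' 𝒯).Finite := by rw [← hF]; exact Set.finite_range _
  have hQ := F.finite_orb hfin heq
  have hcard := F.card_orb hfin heq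
  have hcr : (F.s '' 𝒯).ncard = r := by
    rw [← hF, Set.ncard_range_of_injective hm.injective, Nat.card_eq_fintype_card,
      Fintype.card_fin]
  rw [hcr] at hcard
  let _ : Fintype (Quotient (F.boxes.fam.orb F.Λ F.inv)) := Fintype.ofFinite _
  rw [Nat.card_eq_fintype_card] at hcard
  obtain ⟨k', top, S, hSP, hk', hgood⟩ := (F.per p hm.injective hF heq hu).good
    (c := cr r) (by unfold cr; omega) (by unfold cr; omega)
  rw [F.per_P] at hSP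
  obtain ⟨S', hS'P, hgood'⟩ := hgood.exists_transfer (P' := p')
    (by rw [hSP]; exact hs.mono (le_Br hcard))
  have hm' : StrictMono p' := by
    intro i j hij
    exact (hs.lt_iff (IsLin.proj i) (IsLin.proj j) (by have := two_le_Br r; linarith)).1 (hm hij)
  set P := hgood'.pic (by unfold cr; omega) (Nat.one_le_pow _ _ (by omega)) hk' with hP
  have hPP : P.P = p' := hS'P
  refine ⟨hm', Set.range P.tile, P.til, P.equi ?_, P.uni' ?_, ?_⟩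
  · rw [hPP]
    exact hm'.injective
  · rw [hPP]
    exact hm'.injective
  · rw [P.sz_eq, hPP]

/-- there are no tilings without sizes -/
theorem Real_zero (p : Fin 0 → ℝ) : p ∉ Real' 0 := by
  rintro ⟨-, 𝒯, h, -, -, hr⟩
  obtain ⟨T, hT, -⟩ := h.cover 0
  obtain ⟨s, hs⟩ := h.square T hT
  have h1 : s ∈ Set.range p := by
    rw [hr]
    exact ⟨T, hT, hs⟩
  obtain ⟨i, -⟩ := h1
  exact i.elim0

/-- the transfer for all `r` -/
theorem transfer_Real' {r : ℕ} {p p' : Fin r → ℝ} (hp : p ∈ Real' r)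
    (hs : Sim (Br r) p p') : p' ∈ Real' r := by
  rcases Nat.eq_zero_or_pos r with rfl | hr
  · exact absurd hp (Real_zero p)
  · exact transfer_Real hr hp hs

/-- THE SIZE VECTORS ARE THE POINTS OF FINITELY MANY CONES -/
theorem cone_families (r : ℕ) : ∃ L : Finset ((Fin r → ℤ) × (Fin r → ℤ)),
    (∀ p : Fin r → ℝ, p ∈ Real' r ↔ ∃ ab ∈ L, p ∈ cone ab.1 ab.2) ∧
    ∀ ab ∈ L, ∀ p ∈ cone ab.1 ab.2, ∀ q, q ∈ cone ab.1 ab.2 ↔ Sim (Br r) p q := by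
  rcases Nat.eq_zero_or_pos r with rfl | hr
  · refine ⟨∅, fun p => ?_, fun ab hab => by simp at hab⟩
    constructor
    · intro hp
      exact absurd hp (Real_zero p)
    · rintro ⟨ab, hab, -⟩
      simp at hab
  · refine cone_list ⟨0, hr⟩ (B := Br r) (by have := two_le_Br r; linarith) (Real' r) ?_ ?_ ?_
    · rintro p ⟨-, 𝒯, -, -, -, h⟩ k
      have h1 : p k ∈ sz 𝒯 := by
        rw [← h]
        exact ⟨k, rfl⟩
      obtain ⟨T, -, h2⟩ := h1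
      exact h2.1
    · exact fun p hp => dim_Real hp
    · exact fun p hp p' hs => transfer_Real hr hp hs

end Pool.Agent.Helper32.SQ
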