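import Mathlib

/-!
# MP_309e91_co : short bases of discrete groups of translations
-/

set_option autoImplicit false

namespace Pool.Agent.Helper32.SQ

open Finset

/-- the determinant -/
def dt (u v : ℝ × ℝ) : ℝ := u.1 * v.2 - u.2 * v.1

/-- integer combinations -/
def cmb (u v : ℝ × ℝ) (m n : ℤ) : ℝ × ℝ := (m * u.1 + n * v.1, m * u.2 + n * v.2)

theorem dt_indep {u v : ℝ × ℝ} (h : dt u v ≠ 0) {s t : ℝ} (h1 : s * u.1 + t * v.1 = 0)
    (h2 : s * u.2 + t * v.2 = 0) : s = 0 ∧ t = 0 := by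
  constructor
  · have h3 : s * dt u v = 0 := by
      unfold dt
      linear_combination v.2 * h1 - v.1 * h2
    exact (mul_eq_zero.1 h3).resolve_right h
  · have h3 : t * dt u v = 0 := by
      unfold dt
      linear_combination u.1 * h2 - u.2 * h1
    exact (mul_eq_zero.1 h3).resolve_right h

theorem dt_solve {u v : ℝ × ℝ} (h : dt u v ≠ 0) (w : ℝ × ℝ) : ∃ s t : ℝ,
    w.1 = s * u.1 + t * v.1 ∧ w.2 = s * u.2 + t * v.2 := by
  refine ⟨dt w v / dt u v, dt u w / dt u v, ?_, ?_⟩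
  · field_simp
    unfold dt
    ring
  · field_simp
    unfold dt
    ring

theorem abs_half {s c a M : ℝ} (hs : |s| ≤ 1 / 2) (ha : |a| ≤ c * M) : |s * a| ≤ c * M / 2 := by
  rw [abs_mul]
  calc |s| * |a| ≤ 1 / 2 * (c * M) := mul_le_mul hs ha (abs_nonneg _) (by norm_num)
    _ = c * M / 2 := by ring

variable {Λ : AddSubgroup (ℝ × ℝ)} {M : ℝ}

theorem cmb_mem {u v : ℝ × ℝ} (hu : u ∈ Λ) (hv : v ∈ Λ) (m n : ℤ) : cmb u v m n ∈ Λ := by
  have h : cmb u v m n = m • u + n • v := by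
    ext
    · simp [cmb]
    · simp [cmb]
  rw [h]
  exact Λ.add_mem (Λ.zsmul_mem hu _) (Λ.zsmul_mem hv _)

theorem floor_mem {M : ℝ} (hM : 0 < M) {C : ℕ} {x : ℝ} (hx : |x| ≤ C * M) :
    ⌊x / M⌋ ∈ Icc (-(C : ℤ)) C := by
  rw [abs_le] at hx
  rw [mem_Icc]
  constructor
  · rw [Int.le_floor, le_div_iff₀ hM]
    push_cast
    linarith [hx.1]
  · have h4 : x / M ≤ ((C : ℕ) : ℤ) := by
      rw [div_le_iff₀ hM]
      push_cast
      linarith [hx.2]
    exact_mod_cast (Int.floor_le _).trans h4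

theorem floor_inj (hM : 0 < M) (hsep : ∀ v ∈ Λ, |v.1| < M → |v.2| < M → v = 0) {v w : ℝ × ℝ}
    (hv : v ∈ Λ) (hw : w ∈ Λ) (h1 : ⌊v.1 / M⌋ = ⌊w.1 / M⌋) (h2 : ⌊v.2 / M⌋ = ⌊w.2 / M⌋) :
    v = w := by
  have h3 := Int.abs_sub_lt_one_of_floor_eq_floor h1
  have h4 := Int.abs_sub_lt_one_of_floor_eq_floor h2
  rw [← sub_div, abs_div, abs_of_pos hM, div_lt_one hM] at h3 h4
  exact sub_eq_zero.1 (hsep (v - w) (Λ.sub_mem hv hw) h3 h4)

/-- the number of short vectors -/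
theorem lat_card (hM : 0 < M) (hsep : ∀ v ∈ Λ, |v.1| < M → |v.2| < M → v = 0) {C : ℕ}
    {κ : Type*} (s : Finset κ) (f : κ → ℝ × ℝ) (hf : Set.InjOn f s)
    (hs : ∀ i ∈ s, f i ∈ Λ ∧ |(f i).1| ≤ C * M ∧ |(f i).2| ≤ C * M) :
    s.card ≤ (2 * C + 1) ^ 2 := by
  classical
  set I : Finset ℤ := Icc (-(C : ℤ)) C with hI
  have hcI : I.card = 2 * C + 1 := by
    rw [hI, Int.card_Icc]
    have : ((C : ℤ) + 1 - -(C : ℤ)) = ((2 * C + 1 : ℕ) : ℤ) := by
      push_cast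
      ring
    rw [this, Int.toNat_natCast]
  have h1 : s.card ≤ (I ×ˢ I).card := by
    refine card_le_card_of_injOn (fun i => (⌊(f i).1 / M⌋, ⌊(f i).2 / M⌋)) ?_ ?_
    · intro i hi
      rw [mem_coe, mem_product]
      obtain ⟨-, h2, h3⟩ := hs i hi
      exact ⟨floor_mem hM h2, floor_mem hM h3⟩
    · intro i hi j hj hij
      simp only [Prod.mk.injEq] at hij
      exact hf hi hj (floor_inj hM hsep (hs i hi).1 (hs j hj).1 hij.1 hij.2)
  rw [card_product, hcI] at h1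
  rw [sq]
  exact h1

theorem lat_finite (hM : 0 < M) (hsep : ∀ v ∈ Λ, |v.1| < M → |v.2| < M → v = 0) (C : ℕ) :
    {v : ℝ × ℝ | v ∈ Λ ∧ |v.1| ≤ C * M ∧ |v.2| ≤ C * M}.Finite := by
  refine Set.Finite.of_injOn (f := fun v : ℝ × ℝ => (⌊v.1 / M⌋, ⌊v.2 / M⌋))
    (t := ((Icc (-(C : ℤ)) C ×ˢ Icc (-(C : ℤ)) C : Finset (ℤ × ℤ)) : Set (ℤ × ℤ))) ?_ ?_
    (finite_toSet _)
  · rintro v ⟨-, h2, h3⟩
    rw [mem_coe, mem_product]
    exact ⟨floor_mem hM h2, floor_mem hM h3⟩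
  · intro v hv w hw hvw
    simp only [Prod.mk.injEq] at hvw
    exact floor_inj hM hsep hv.1 hw.1 hvw.1 hvw.2

/-- a short basis -/
theorem lat_basis (hM : 0 < M) (hsep : ∀ v ∈ Λ, |v.1| < M → |v.2| < M → v = 0) {c : ℕ}
    (hc : 1 ≤ c) {u₁ u₂ : ℝ × ℝ} (hu₁ : u₁ ∈ Λ) (hu₂ : u₂ ∈ Λ) (h1 : 3 * M ≤ u₁.1)
    (h1' : u₁.1 ≤ c * M) (h2 : |u₁.2| ≤ M) (h3 : 3 * M ≤ u₂.2) (h3' : u₂.2 ≤ c * M)
    (h4 : |u₂.1| ≤ M) : ∃ u v : ℝ × ℝ, u ∈ Λ ∧ v ∈ Λ ∧ dt u v ≠ 0 ∧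
      (|u.1| ≤ c * M ∧ |u.2| ≤ c * M) ∧ (|v.1| ≤ c * M ∧ |v.2| ≤ c * M) ∧
      ∀ w ∈ Λ, ∃ m n : ℤ, w = cmb u v m n := by
  classical
  have hc1 : (1 : ℝ) ≤ c := by exact_mod_cast hc
  have hcM : M ≤ c * M := by nlinarith
  set E : Finset (ℝ × ℝ) := (lat_finite hM hsep c).toFinset with hE
  have hmem : ∀ v, v ∈ E ↔ v ∈ Λ ∧ |v.1| ≤ c * M ∧ |v.2| ≤ c * M := by
    intro v
    rw [hE, Set.Finite.mem_toFinset]
    exact Iff.rfl
  set Pr : Finset ((ℝ × ℝ) × (ℝ × ℝ)) := (E ×ˢ E).filter fun x => dt x.1 x.2 ≠ 0 with hPr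
  have hne : Pr.Nonempty := by
    refine ⟨(u₁, u₂), ?_⟩
    rw [hPr, mem_filter, mem_product]
    refine ⟨⟨(hmem _).2 ⟨hu₁, ?_, h2.trans hcM⟩, (hmem _).2 ⟨hu₂, h4.trans hcM, ?_⟩⟩, ?_⟩
    · rw [abs_of_nonneg (by linarith)]
      exact h1'
    · rw [abs_of_nonneg (by linarith)]
      exact h3'
    · show dt u₁ u₂ ≠ 0
      have h5 : 9 * (M * M) ≤ u₁.1 * u₂.2 := by
        have := mul_le_mul h1 h3 (by linarith) (by linarith)
        linarith
      have h6 : u₁.2 * u₂.1 ≤ M * M := by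
        calc u₁.2 * u₂.1 ≤ |u₁.2 * u₂.1| := le_abs_self _
          _ = |u₁.2| * |u₂.1| := abs_mul _ _
          _ ≤ M * M := mul_le_mul h2 h4 (abs_nonneg _) hM.le
      have h7 : 0 < M * M := mul_pos hM hM
      have h8 : 0 < dt u₁ u₂ := by
        unfold dt
        linarith
      exact h8.ne'
  obtain ⟨⟨u, v⟩, huv, hmin⟩ := exists_min_image Pr (fun x => |dt x.1 x.2|) hne
  rw [hPr, mem_filter, mem_product] at huv
  obtain ⟨⟨hu, hv⟩, hd⟩ := huv
  dsimp only at hu hv hd hmin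
  obtain ⟨huΛ, hu1, hu2⟩ := (hmem u).1 hu
  obtain ⟨hvΛ, hv1, hv2⟩ := (hmem v).1 hv
  refine ⟨u, v, huΛ, hvΛ, hd, ⟨hu1, hu2⟩, ⟨hv1, hv2⟩, ?_⟩
  intro w hw
  obtain ⟨s, t, hs, ht⟩ := dt_solve hd w
  refine ⟨round s, round t, ?_⟩
  set w' : ℝ × ℝ := w - cmb u v (round s) (round t) with hw'
  have hw'Λ : w' ∈ Λ := Λ.sub_mem hw (cmb_mem huΛ hvΛ _ _)
  have e1 : w'.1 = (s - round s) * u.1 + (t - round t) * v.1 := by
    rw [hw', Prod.fst_sub, hs, cmb]
    ring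
  have e2 : w'.2 = (s - round s) * u.2 + (t - round t) * v.2 := by
    rw [hw', Prod.snd_sub, ht, cmb]
    ring
  have hs' := abs_sub_round s
  have ht' := abs_sub_round t
  have hw'E : w' ∈ E := by
    rw [hmem]
    refine ⟨hw'Λ, ?_, ?_⟩
    · rw [e1]
      have g1 := abs_half hs' hu1
      have g2 := abs_half ht' hv1
      have g3 := abs_add_le ((s - round s) * u.1) ((t - round t) * v.1)
      linarith
    · rw [e2]
      have g1 := abs_half hs' hu2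
      have g2 := abs_half ht' hv2
      have g3 := abs_add_le ((s - round s) * u.2) ((t - round t) * v.2)
      linarith
  have hdp : 0 < |dt u v| := abs_pos.2 hd
  have k1 : s - round s = 0 := by
    by_contra hne
    have g1 : dt w' v = (s - round s) * dt u v := by
      unfold dt
      rw [e1, e2]
      ring
    have g2 := hmin (w', v) (by
      rw [hPr, mem_filter, mem_product]
      exact ⟨⟨hw'E, hv⟩, by rw [g1]; exact mul_ne_zero hne hd⟩)
    dsimp only at g2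
    rw [g1, abs_mul] at g2
    nlinarith
  have k2 : t - round t = 0 := by
    by_contra hne
    have g1 : dt u w' = (t - round t) * dt u v := by
      unfold dt
      rw [e1, e2]
      ring
    have g2 := hmin (u, w') (by
      rw [hPr, mem_filter, mem_product]
      exact ⟨⟨hu, hw'E⟩, by rw [g1]; exact mul_ne_zero hne hd⟩)
    dsimp only at g2
    rw [g1, abs_mul] at g2
    nlinarith
  have k3 : w' = 0 := by
    refine Prod.ext ?_ ?_
    · rw [e1, k1, k2, zero_mul, zero_mul, add_zero, Prod.fst_zero]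
    · rw [e2, k1, k2, zero_mul, zero_mul, add_zero, Prod.snd_zero]
  exact sub_eq_zero.1 k3

/-- bounded coefficients -/
theorem lat_coef (hM : 0 < M) (hsep : ∀ v ∈ Λ, |v.1| < M → |v.2| < M → v = 0) {c C : ℕ}
    {u v : ℝ × ℝ} (hu : u ∈ Λ) (hv : v ∈ Λ) (hd : dt u v ≠ 0)
    (hv1 : |v.1| ≤ c * M) (hv2 : |v.2| ≤ c * M) {m n : ℤ}
    (h1 : |(cmb u v m n).1| ≤ C * M) (h2 : |(cmb u v m n).2| ≤ C * M) :
    |m| < (2 * (C + c) + 1) ^ 2 := by
  rcases eq_or_ne m 0 with rfl | hm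
  · rw [abs_zero]
    positivity
  have hm' : (0 : ℝ) < |(m : ℝ)| := abs_pos.2 (by exact_mod_cast hm)
  -- the vectors
  set t : ℕ → ℝ := fun j => (j : ℝ) / |(m : ℝ)| with ht
  set f : ℕ → ℝ × ℝ := fun j => cmb u v (j * m.sign) (round (t j * n)) with hf
  have hsign : ((m.sign : ℤ) : ℝ) * |(m : ℝ)| = m := by
    have := Int.sign_mul_abs m
    exact_mod_cast this
  have hjm : ∀ j : ℕ, (((j : ℤ) * m.sign : ℤ) : ℝ) = t j * m := by
    intro j
    rw [ht]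
    push_cast
    have : (m : ℝ) = ((m.sign : ℤ) : ℝ) * |(m : ℝ)| := hsign.symm
    calc (j : ℝ) * ((m.sign : ℤ) : ℝ) = (j : ℝ) / |(m : ℝ)| * (((m.sign : ℤ) : ℝ) * |(m : ℝ)|) := by
          field_simp
      _ = (j : ℝ) / |(m : ℝ)| * m := by rw [← this]
  have h3 := lat_card (κ := ℕ) hM hsep (C := C + c) (range (m.natAbs + 1)) f (by
    intro i _ j _ hij
    have g1 := congrArg Prod.fst hij
    have g2 := congrArg Prod.snd hij
    simp only [hf, cmb] at g1 g2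
    have g3 := (dt_indep hd (s := (((i : ℤ) * m.sign : ℤ) : ℝ) - (((j : ℤ) * m.sign : ℤ) : ℝ))
      (t := (round (t i * n) : ℝ) - (round (t j * n) : ℝ)) (by linarith) (by linarith)).1
    have g4 : ((i : ℤ) * m.sign : ℤ) = (j : ℤ) * m.sign := by
      have := sub_eq_zero.1 g3
      exact_mod_cast this
    have g5 : m.sign ≠ 0 := by
      rw [Ne, Int.sign_eq_zero_iff_zero]
      exact hm
    have g6 := mul_right_cancel₀ g5 g4
    exact_mod_cast g6) (by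
    intro j hj
    have hj' : j ≤ m.natAbs := by
      have := mem_range.1 hj
      omega
    have ht0 : 0 ≤ t j := div_nonneg (Nat.cast_nonneg _) hm'.le
    have ht1 : t j ≤ 1 := by
      rw [ht]
      dsimp only
      rw [div_le_one hm']
      have : ((m.natAbs : ℕ) : ℝ) = |(m : ℝ)| := by
        rw [Nat.cast_natAbs]
        push_cast
        rfl
      rw [← this]
      exact_mod_cast hj'
    have hr : |(round (t j * n) : ℝ) - t j * n| ≤ 1 / 2 := by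
      rw [abs_sub_comm]
      exact abs_sub_round _
    refine ⟨cmb_mem hu hv _ _, ?_, ?_⟩
    · have e1 : (f j).1 = t j * (cmb u v m n).1 + (round (t j * n) - t j * n) * v.1 := by
        simp only [hf, cmb]
        rw [hjm]
        ring
      rw [e1]
      have g1 := abs_add_le (t j * (cmb u v m n).1) ((round (t j * n) - t j * n) * v.1)
      have g2 := abs_half hr hv1
      have g3 : |t j * (cmb u v m n).1| ≤ 1 * (C * M) := by
        rw [abs_mul, abs_of_nonneg ht0]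
        exact mul_le_mul ht1 h1 (abs_nonneg _) zero_le_one
      have g4 : 0 ≤ c * M := (abs_nonneg _).trans hv1
      push_cast
      linarith
    · have e1 : (f j).2 = t j * (cmb u v m n).2 + (round (t j * n) - t j * n) * v.2 := by
        simp only [hf, cmb]
        rw [hjm]
        ring
      rw [e1]
      have g1 := abs_add_le (t j * (cmb u v m n).2) ((round (t j * n) - t j * n) * v.2)
      have g2 := abs_half hr hv2
      have g3 : |t j * (cmb u v m n).2| ≤ 1 * (C * M) := by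
        rw [abs_mul, abs_of_nonneg ht0]
        exact mul_le_mul ht1 h2 (abs_nonneg _) zero_le_one
      have g4 : 0 ≤ c * M := (abs_nonneg _).trans hv2
      push_cast
      linarith)
  rw [card_range] at h3
  have h4 : (m.natAbs : ℤ) + 1 ≤ (2 * (C + c) + 1) ^ 2 := by exact_mod_cast h3
  rw [Int.natCast_natAbs] at h4
  linarith

theorem cmb_swap (u v : ℝ × ℝ) (m n : ℤ) : cmb u v m n = cmb v u n m := by
  unfold cmb
  rw [add_comm, add_comm ((m : ℝ) * u.2)]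

theorem dt_swap (u v : ℝ × ℝ) : dt v u = -dt u v := by
  unfold dt
  ring

/-- both coefficients are bounded -/
theorem lat_coefs (hM : 0 < M) (hsep : ∀ v ∈ Λ, |v.1| < M → |v.2| < M → v = 0) {c C : ℕ}
    {u v : ℝ × ℝ} (hu : u ∈ Λ) (hv : v ∈ Λ) (hd : dt u v ≠ 0)
    (hu1 : |u.1| ≤ c * M) (hu2 : |u.2| ≤ c * M)
    (hv1 : |v.1| ≤ c * M) (hv2 : |v.2| ≤ c * M) {m n : ℤ}
    (h1 : |(cmb u v m n).1| ≤ C * M) (h2 : |(cmb u v m n).2| ≤ C * M) :
    |m| < (2 * (C + c) + 1) ^ 2 ∧ |n| < (2 * (C + c) + 1) ^ 2 := by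
  refine ⟨lat_coef hM hsep hu hv hd hv1 hv2 h1 h2, ?_⟩
  rw [cmb_swap] at h1 h2
  exact lat_coef hM hsep hv hu (by rw [dt_swap]; exact neg_ne_zero.2 hd) hu1 hu2 h1 h2

end Pool.Agent.Helper32.SQ
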