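import Mathlib

/-!
# MP_309e91_co : discrete groups of translations have rank at most 2
-/

set_option autoImplicit false

namespace Pool.Agent.Helper32.SQ

open Module

/-- the rational span of the second coordinates of a discrete group of translations -/
theorem rank_le {L : AddSubgroup (ℝ × ℝ)} {δ : ℝ} (hδ : 0 < δ)
    (hL : ∀ v ∈ L, v ≠ 0 → δ ≤ |v.1| + |v.2|) {W : Submodule ℚ ℝ}
    (hW : W ≤ Submodule.span ℚ ((fun v : ℝ × ℝ => v.2) '' (L : Set (ℝ × ℝ)))) :
    FiniteDimensional ℚ W ∧ finrank ℚ W ≤ 2 := by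
  set M : Submodule ℤ (ℝ × ℝ) := AddSubgroup.toIntSubmodule L with hM
  have hMmem : ∀ v : ℝ × ℝ, v ∈ M ↔ v ∈ L := fun v => Iff.rfl
  have hdisc : DiscreteTopology M := by
    refine DiscreteTopology.of_forall_le_dist (r := δ / 2) (half_pos hδ) ?_
    intro x y hxy
    have h1 : (x : ℝ × ℝ) - y ∈ L := L.sub_mem x.2 y.2
    have h2 : (x : ℝ × ℝ) - y ≠ 0 := fun h => hxy (Subtype.ext (sub_eq_zero.1 h))
    have h3 := hL _ h1 h2
    have h4 : |((x : ℝ × ℝ) - y).1| ≤ ‖(x : ℝ × ℝ) - y‖ := by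
      rw [← Real.norm_eq_abs]; exact norm_fst_le _
    have h5 : |((x : ℝ × ℝ) - y).2| ≤ ‖(x : ℝ × ℝ) - y‖ := by
      rw [← Real.norm_eq_abs]; exact norm_snd_le _
    show δ / 2 ≤ dist (x : ℝ × ℝ) y
    rw [dist_eq_norm]
    linarith
  have hspan : Submodule.span ℤ (M : Set (ℝ × ℝ)) = M := Submodule.span_eq M
  have hk : finrank ℤ M ≤ 2 := by
    have h1 := Real.finrank_eq_int_finrank_of_discrete (s := (M : Set (ℝ × ℝ)))
      (by rw [hspan]; exact hdisc)
    have h2 : Set.finrank ℤ (M : Set (ℝ × ℝ)) = finrank ℤ M := by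
      rw [Set.finrank, hspan]
    have h3 : Set.finrank ℝ (M : Set (ℝ × ℝ)) ≤ finrank ℝ (ℝ × ℝ) := Submodule.finrank_le _
    have h4 : finrank ℝ (ℝ × ℝ) = 2 := by
      rw [finrank_prod, finrank_self]
    omega
  let b := Module.finBasis ℤ M
  have hle : W ≤ Submodule.span ℚ (Set.range fun i => ((b i : ℝ × ℝ)).2) := by
    refine hW.trans (Submodule.span_le.2 ?_)
    rintro _ ⟨v, hv, rfl⟩
    have h1 := b.sum_repr ⟨v, hv⟩
    have h2 := congrArg (fun w : M => ((w : ℝ × ℝ)).2) h1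
    simp only [Submodule.coe_sum, Submodule.coe_smul, Prod.snd_sum, Prod.smul_snd] at h2
    show v.2 ∈ Submodule.span ℚ (Set.range fun i => ((b i : ℝ × ℝ)).2)
    rw [← h2]
    refine Submodule.sum_mem _ fun i _ => ?_
    rw [← Int.cast_smul_eq_zsmul ℚ]
    exact Submodule.smul_mem _ _ (Submodule.subset_span ⟨i, rfl⟩)
  have hfin : FiniteDimensional ℚ (Submodule.span ℚ (Set.range fun i => ((b i : ℝ × ℝ)).2)) :=
    FiniteDimensional.span_of_finite ℚ (Set.finite_range _)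
  refine ⟨Submodule.finiteDimensional_of_le hle, ?_⟩
  calc finrank ℚ W ≤ finrank ℚ (Submodule.span ℚ (Set.range fun i => ((b i : ℝ × ℝ)).2)) :=
        Submodule.finrank_mono hle
    _ ≤ Fintype.card (Fin (finrank ℤ M)) := finrank_range_le_card _
    _ ≤ 2 := by rw [Fintype.card_fin]; exact hk

end Pool.Agent.Helper32.SQ
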