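import Pool.Agent.Helper32.SQ.Frm
import Pool.Agent.Helper32.SQ.Rank

/-!
# MP_309e91_co : finitely many orbits of translations
-/

set_option autoImplicit false

namespace Pool.Agent.Helper32.SQ

open Complex Filter Topology

/-- normal form of an isometry of the plane -/
theorem iso_form (g : ℂ ≃ᵢ ℂ) : ∃ α β : ℂ, ‖α‖ = 1 ∧
    ((∀ z, g z = α * z + β) ∨ (∀ z, g z = α * (starRingEnd ℂ) z + β)) := by
  obtain ⟨u, hu⟩ := linear_isometry_complex g.toRealLinearIsometryEquiv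
  refine ⟨u, g 0, by simp, ?_⟩
  rcases hu with h | h
  · left
    intro z
    have h1 := congrArg (fun f : ℂ ≃ₗᵢ[ℝ] ℂ => f z) h
    simp only [IsometryEquiv.toRealLinearIsometryEquiv_apply, rotation_apply] at h1
    rw [← h1]
    ring
  · right
    intro z
    have h1 := congrArg (fun f : ℂ ≃ₗᵢ[ℝ] ℂ => f z) h
    simp only [IsometryEquiv.toRealLinearIsometryEquiv_apply, LinearIsometryEquiv.trans_apply,
      rotation_apply, conjLIE_apply] at h1
    rw [← h1]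
    ring

theorem image_sq_rot {α β b a : ℂ} {s : ℝ} {g : ℂ → ℂ} (hg : ∀ z, g z = α * z + β) :
    g '' sq b a s = sq (α * b + β) (α * a) s := by
  ext z
  constructor
  · rintro ⟨_, ⟨x, y, hx, hy, rfl⟩, rfl⟩
    exact ⟨x, y, hx, hy, by rw [hg]; ring⟩
  · rintro ⟨x, y, hx, hy, rfl⟩
    exact ⟨_, ⟨x, y, hx, hy, rfl⟩, by rw [hg]; ring⟩

theorem image_sq_refl {α β b a : ℂ} {s : ℝ} {g : ℂ → ℂ}
    (hg : ∀ z, g z = α * (starRingEnd ℂ) z + β) :
    g '' sq b a s = sq (α * (starRingEnd ℂ) b + β) (-I * (α * (starRingEnd ℂ) a)) s := by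
  have hI := I_sq
  ext z
  constructor
  · rintro ⟨_, ⟨x, y, hx, hy, rfl⟩, rfl⟩
    refine ⟨y, x, hy, hx, ?_⟩
    rw [hg, map_add, map_mul, map_add, map_mul, conj_ofReal, conj_ofReal, conj_I]
    linear_combination (α * (starRingEnd ℂ) a * x) * hI
  · rintro ⟨x, y, hx, hy, rfl⟩
    refine ⟨_, ⟨y, x, hy, hx, rfl⟩, ?_⟩
    rw [hg, map_add, map_mul, map_add, map_mul, conj_ofReal, conj_ofReal, conj_I]
    linear_combination (α * (starRingEnd ℂ) a * y) * hI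

theorem finite_pow_four (c : ℂ) : {z : ℂ | z ^ 4 = c}.Finite := by
  classical
  refine ((Polynomial.nthRoots 4 c).toFinset.finite_toSet).subset ?_
  intro z hz
  rw [Finset.mem_coe, Multiset.mem_toFinset, Polynomial.mem_nthRoots (by norm_num)]
  exact hz

/-- an isometry which maps the tiling onto itself -/
def IsSym (𝒯 : Set (Set ℂ)) (g : ℂ ≃ᵢ ℂ) : Prop := ∀ T : Set ℂ, T ∈ 𝒯 ↔ g '' T ∈ 𝒯

namespace Frm

variable {𝒯 : Set (Set ℂ)} (F : Frm 𝒯)

/-- the linear parts of the symmetries -/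
def lin : Set ℂ := {z | z ^ 4 = 1} ∪ {z | z ^ 4 = F.a ^ 8}

theorem lin_finite : F.lin.Finite := (finite_pow_four _).union (finite_pow_four _)

theorem sym_form {g : ℂ ≃ᵢ ℂ} (hg : IsSym 𝒯 g) : ∃ (k : Bool) (α β : ℂ), α ∈ F.lin ∧
    (∀ z, g z = α * (if k then (starRingEnd ℂ) z else z) + β) := by
  obtain ⟨T, hT, -⟩ := F.cov 0
  have hT' := (hg T).1 hT
  have h1 := F.eq T hT
  have h2 := F.eq _ hT'
  obtain ⟨α, β, hα, h | h⟩ := iso_form g
  · refine ⟨false, α, β, Or.inl ?_, fun z => by simp [h z]⟩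
    have h3 : g '' T = sq (α * F.b T + β) (α * F.a) (F.s T) := by
      conv_lhs => rw [h1]
      exact image_sq_rot h
    obtain ⟨-, h4⟩ := sq_inj (by rw [norm_mul, hα, F.ha, one_mul]) F.ha (F.pos hT) (F.pos hT')
      (h3.symm.trans h2)
    rw [mul_pow] at h4
    have h5 : F.a ^ 4 ≠ 0 := pow_ne_zero 4 (a_ne_zero F.ha)
    exact mul_right_cancel₀ h5 (by rw [h4, one_mul])
  · refine ⟨true, α, β, Or.inr ?_, fun z => by simp [h z]⟩
    have h3 : g '' T = sq (α * (starRingEnd ℂ) (F.b T) + β) (-I * (α * (starRingEnd ℂ) F.a))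
        (F.s T) := by
      conv_lhs => rw [h1]
      exact image_sq_refl h
    have hn : ‖-I * (α * (starRingEnd ℂ) F.a)‖ = 1 := by
      rw [norm_mul, norm_neg, norm_I, norm_mul, hα, RCLike.norm_conj, F.ha]
      norm_num
    obtain ⟨-, h4⟩ := sq_inj hn F.ha (F.pos hT) (F.pos hT') (h3.symm.trans h2)
    have h5 : (-I * (α * (starRingEnd ℂ) F.a)) ^ 4 = α ^ 4 * (starRingEnd ℂ) F.a ^ 4 := by
      have := I_pow_four
      rw [mul_pow, neg_pow, this, mul_pow]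
      ring
    rw [h5] at h4
    have h6 := mul_conj_one F.ha
    show α ^ 4 = F.a ^ 8
    calc α ^ 4 = α ^ 4 * (F.a * (starRingEnd ℂ) F.a) ^ 4 := by rw [h6]; ring
      _ = (α ^ 4 * (starRingEnd ℂ) F.a ^ 4) * F.a ^ 4 := by ring
      _ = F.a ^ 8 := by rw [h4]; ring

/-- the colour of an orbit of translations -/
theorem orb_inj
    (heq : ∀ T ∈ 𝒯, ∀ T' ∈ 𝒯, F.s T = F.s T' → ∃ g : ℂ ≃ᵢ ℂ, IsSym 𝒯 g ∧ g '' T = T') :
    ∃ φ : Quotient (F.boxes.fam.orb F.Λ F.inv) → ℝ × Bool × ℂ, Function.Injective φ ∧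
      ∀ q, φ q ∈ (F.s '' 𝒯) ×ˢ ((Set.univ : Set Bool) ×ˢ F.lin) := by
  classical
  -- representatives of the sizes
  have h1 : ∀ x ∈ F.s '' 𝒯, ∃ T ∈ 𝒯, F.s T = x := fun x hx => hx
  choose! rep hrep1 hrep2 using h1
  have h2 : ∀ T : 𝒯, ∃ g : ℂ ≃ᵢ ℂ, IsSym 𝒯 g ∧ g '' (rep (F.s T)) = T := fun T =>
    heq _ (hrep1 _ ⟨T, T.2, rfl⟩) T T.2 (hrep2 _ ⟨T, T.2, rfl⟩)
  choose g hg1 hg2 using h2
  choose k α β hα hform using fun T : 𝒯 => F.sym_form (hg1 T)
  have hrel : ∀ T T' : 𝒯, F.s T = F.s T' → k T = k T' → α T = α T' →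
      (F.boxes.fam.orb F.Λ F.inv).r T T' := by
    intro T T' hs hk ha
    set w : ℂ := co F.a (β T' - β T) with hw
    set v : ℝ × ℝ := (w.re, w.im) with hv
    have htr : ∀ z, F.tr v z = z + (β T' - β T) := by
      intro z
      unfold tr
      rw [hv]
      dsimp only
      rw [re_add_im, hw, a_mul_co F.ha]
    have hgg : ∀ z, g T' z = F.tr v (g T z) := by
      intro z
      rw [htr, hform T, hform T', ← hk, ← ha]
      ring
    have himg : ∀ S : Set ℂ, F.tr v '' (g T '' S) = g T' '' S := by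
      intro S
      rw [Set.image_image]
      congr 1
      funext z
      exact (hgg z).symm
    have hvΛ : v ∈ F.Λ := by
      rw [F.mem_Λ]
      intro T₁
      have h3 : T₁ = g T '' ((g T).symm '' T₁) := by
        rw [Set.image_image]
        simp
      rw [h3, himg, ← hg1 T, ← hg1 T']
    refine ⟨v, hvΛ, ?_⟩
    rw [F.is_iff]
    have h4 : (T' : Set ℂ) = F.tr v '' T := by
      rw [← hg2 T', ← hg2 T, himg, ← hs]
    rw [h4]
    exact (F.tr_b hvΛ T.2).1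
  -- the colour of a tile
  refine ⟨fun q => (F.s q.out, k q.out, α q.out), ?_, ?_⟩
  · intro q q' hqq
    simp only [Prod.mk.injEq] at hqq
    have h6 := hrel q.out q'.out hqq.1 hqq.2.1 hqq.2.2
    rw [← Quotient.out_eq q, ← Quotient.out_eq q']
    exact Quotient.sound h6
  · intro q
    exact ⟨⟨q.out, q.out.2, rfl⟩, Set.mem_univ _, hα q.out⟩

/-- finitely many orbits of translations -/
theorem finite_orb (hfin : (F.s '' 𝒯).Finite)
    (heq : ∀ T ∈ 𝒯, ∀ T' ∈ 𝒯, F.s T = F.s T' → ∃ g : ℂ ≃ᵢ ℂ, IsSym 𝒯 g ∧ g '' T = T') :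
    Finite (Quotient (F.boxes.fam.orb F.Λ F.inv)) := by
  obtain ⟨φ, hφ, hmem⟩ := F.orb_inj heq
  set A : Set (ℝ × Bool × ℂ) := (F.s '' 𝒯) ×ˢ ((Set.univ : Set Bool) ×ˢ F.lin) with hA
  have hAf : A.Finite := hfin.prod (Set.finite_univ.prod F.lin_finite)
  have : Finite A := hAf.to_subtype
  refine Finite.of_injective (fun q => (⟨φ q, hmem q⟩ : A)) ?_
  intro q q' h
  exact hφ (congrArg Subtype.val h)

theorem ncard_pow_four (c : ℂ) : {z : ℂ | z ^ 4 = c}.ncard ≤ 4 := by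
  classical
  have h1 : {z : ℂ | z ^ 4 = c} ⊆ ((Polynomial.nthRoots 4 c).toFinset : Set ℂ) := by
    intro z hz
    rw [Finset.mem_coe, Multiset.mem_toFinset, Polynomial.mem_nthRoots (by norm_num)]
    exact hz
  calc {z : ℂ | z ^ 4 = c}.ncard ≤ ((Polynomial.nthRoots 4 c).toFinset : Set ℂ).ncard :=
        Set.ncard_le_ncard h1 (Finset.finite_toSet _)
    _ = (Polynomial.nthRoots 4 c).toFinset.card := Set.ncard_coe_finset _
    _ ≤ Multiset.card (Polynomial.nthRoots 4 c) := Multiset.toFinset_card_le _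
    _ ≤ 4 := Polynomial.card_nthRoots 4 c

theorem ncard_lin : F.lin.ncard ≤ 8 := by
  have h1 := Set.ncard_union_le {z : ℂ | z ^ 4 = 1} {z : ℂ | z ^ 4 = F.a ^ 8}
  have h2 := ncard_pow_four 1
  have h3 := ncard_pow_four (F.a ^ 8)
  unfold lin
  omega

/-- the number of orbits of translations -/
theorem card_orb (hfin : (F.s '' 𝒯).Finite)
    (heq : ∀ T ∈ 𝒯, ∀ T' ∈ 𝒯, F.s T = F.s T' → ∃ g : ℂ ≃ᵢ ℂ, IsSym 𝒯 g ∧ g '' T = T') :
    Nat.card (Quotient (F.boxes.fam.orb F.Λ F.inv)) ≤ 16 * (F.s '' 𝒯).ncard := by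
  obtain ⟨φ, hφ, hmem⟩ := F.orb_inj heq
  set A : Set (ℝ × Bool × ℂ) := (F.s '' 𝒯) ×ˢ ((Set.univ : Set Bool) ×ˢ F.lin) with hA
  have hAf : A.Finite := hfin.prod (Set.finite_univ.prod F.lin_finite)
  have : Finite A := hAf.to_subtype
  have h1 : Nat.card (Quotient (F.boxes.fam.orb F.Λ F.inv)) ≤ Nat.card A :=
    Nat.card_le_card_of_injective (fun q => (⟨φ q, hmem q⟩ : A))
      (fun q q' h => hφ (congrArg Subtype.val h))
  have h2 : Nat.card A = (F.s '' 𝒯).ncard * (2 * F.lin.ncard) := by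
    rw [Nat.card_coe_set_eq, hA, Set.ncard_prod, Set.ncard_prod, Set.ncard_univ]
    simp
  have h3 := F.ncard_lin
  rw [h2] at h1
  refine h1.trans ?_
  nlinarith [Nat.zero_le (F.s '' 𝒯).ncard]

/-- the sizes span a space of dimension at most 2 over the rationals -/
theorem main (hfin : (F.s '' 𝒯).Finite)
    (heq : ∀ T ∈ 𝒯, ∀ T' ∈ 𝒯, F.s T = F.s T' → ∃ g : ℂ ≃ᵢ ℂ, IsSym 𝒯 g ∧ g '' T = T') :
    Module.finrank ℚ (Submodule.span ℚ (F.s '' 𝒯)) ≤ 2 := by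
  refine (rank_le F.hδ (fun v hv h0 => F.Λ_sep hv h0) (Submodule.span_le.2 ?_)).2
  rintro _ ⟨T, hT, rfl⟩
  exact F.boxes.p_mem F.inv (F.finite_orb hfin heq) ⟨T, hT⟩

end Frm

end Pool.Agent.Helper32.SQ
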