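import Pool.Agent.Helper32.SQ.Geo

/-!
# MP_309e91_co : local finiteness, and all squares of a tiling are parallel
-/

set_option autoImplicit false

namespace Pool.Agent.Helper32.SQ

open Complex Filter Topology

/-- A tiling of the plane by squares whose sides are between two positive constants. -/
structure Sqs (ι : Type*) where
  b : ι → ℂ
  a : ι → ℂ
  s : ι → ℝ
  δ : ℝ
  D : ℝ
  ha : ∀ i, ‖a i‖ = 1
  hδ : 0 < δ
  hs : ∀ i, δ ≤ s i
  hD : ∀ i, s i ≤ D
  cov : ∀ z, ∃ i, z ∈ sq (b i) (a i) (s i)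
  dis : ∀ i j, i ≠ j → Disjoint (interior (sq (b i) (a i) (s i))) (interior (sq (b j) (a j) (s j)))

namespace Sqs

variable {ι : Type*} (S : Sqs ι)

theorem pos (i : ι) : 0 < S.s i := S.hδ.trans_le (S.hs i)

/-- the centre of a tile -/
noncomputable def c (i : ι) : ℂ := ctr (S.b i) (S.a i) (S.s i)

theorem sep {i j : ι} (h : i ≠ j) : S.δ ≤ dist (S.c i) (S.c j) := by
  by_contra hcon
  push Not at hcon
  have h1 : dist (midpoint ℝ (S.c i) (S.c j)) (S.c i) < S.s i / 2 := by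
    rw [dist_midpoint_left, Real.norm_eq_abs, abs_of_pos (by norm_num)]
    have := S.hs i
    linarith
  have h2 : dist (midpoint ℝ (S.c i) (S.c j)) (S.c j) < S.s j / 2 := by
    rw [dist_midpoint_right, Real.norm_eq_abs, abs_of_pos (by norm_num)]
    have := S.hs j
    linarith
  exact Set.disjoint_left.1 (S.dis i j h) (ball_subset (S.ha i) h1) (ball_subset (S.ha j) h2)

theorem fin_c (R : ℝ) : {i | S.c i ∈ Metric.closedBall (0 : ℂ) R}.Finite := by
  obtain ⟨t, -, ht, hcov⟩ := (isCompact_closedBall (0 : ℂ) R).finite_cover_balls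
    (half_pos S.hδ)
  have h1 : {i | S.c i ∈ Metric.closedBall (0 : ℂ) R} ⊆
      ⋃ x ∈ t, {i | S.c i ∈ Metric.ball x (S.δ / 2)} := by
    intro i hi
    have h2 := hcov hi
    simp only [Set.mem_iUnion] at h2 ⊢
    obtain ⟨x, hx, h3⟩ := h2
    exact ⟨x, hx, h3⟩
  refine (ht.biUnion fun x _ => Set.Subsingleton.finite ?_).subset h1
  intro i hi j hj
  by_contra hij
  have h2 := S.sep hij
  have h3 : dist (S.c i) x < S.δ / 2 := hi
  have h4 : dist (S.c j) x < S.δ / 2 := hj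
  have h5 := dist_triangle_right (S.c i) (S.c j) x
  linarith

theorem fin_meet (R : ℝ) :
    {i | (sq (S.b i) (S.a i) (S.s i) ∩ Metric.closedBall (0 : ℂ) R).Nonempty}.Finite := by
  refine (S.fin_c (R + S.D)).subset ?_
  rintro i ⟨z, hz1, hz2⟩
  have h1 := subset_closedBall (S.ha i) hz1
  rw [Metric.mem_closedBall] at h1 hz2
  have h2 := S.hD i
  have h3 : dist (S.c i) 0 ≤ dist (S.c i) z + dist z 0 := dist_triangle _ _ _
  have h4 : dist z (S.c i) ≤ S.s i := h1
  rw [dist_comm] at h4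
  show dist (S.c i) 0 ≤ R + S.D
  linarith

theorem locallyFinite : LocallyFinite fun i => sq (S.b i) (S.a i) (S.s i) := by
  intro z
  refine ⟨Metric.ball z 1, Metric.ball_mem_nhds z one_pos, ?_⟩
  refine (S.fin_meet (dist z 0 + 1)).subset ?_
  rintro i ⟨w, hw1, hw2⟩
  refine ⟨w, hw1, ?_⟩
  rw [Metric.mem_ball] at hw2
  rw [Metric.mem_closedBall]
  have := dist_triangle w z 0
  linarith

include S in
theorem countable : Countable ι := by
  have h1 : (Set.univ : Set ι) ⊆ ⋃ n : ℕ, {i | S.c i ∈ Metric.closedBall (0 : ℂ) n} := by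
    intro i _
    obtain ⟨n, hn⟩ := exists_nat_ge (dist (S.c i) 0)
    exact Set.mem_iUnion.2 ⟨n, hn⟩
  exact Set.countable_univ_iff.1
    ((Set.countable_iUnion fun n : ℕ => (S.fin_c n).countable).mono h1)

/-- corners -/
def corner (i : ι) : Set ℂ := {z | ((co (S.a i) (z - S.b i)).re = 0 ∨
  (co (S.a i) (z - S.b i)).re = S.s i) ∧ ((co (S.a i) (z - S.b i)).im = 0 ∨
  (co (S.a i) (z - S.b i)).im = S.s i)}

theorem corner_finite (i : ι) : (S.corner i).Finite := by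
  have h1 : ((fun q : ℝ × ℝ => S.b i + S.a i * ((q.1 : ℂ) + q.2 * I)) ''
      (({0, S.s i} : Set ℝ) ×ˢ ({0, S.s i} : Set ℝ))).Finite :=
    ((Set.toFinite _).prod (Set.toFinite _)).image _
  refine h1.subset ?_
  rintro z ⟨hx, hy⟩
  refine ⟨((co (S.a i) (z - S.b i)).re, (co (S.a i) (z - S.b i)).im), ⟨hx, hy⟩, ?_⟩
  dsimp only
  rw [re_add_im, a_mul_co (S.ha i)]
  ring

theorem parallel (i j : ι) : S.a i ^ 4 = S.a j ^ 4 := by
  have := S.countable
  by_contra hij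
  -- the two classes
  have hA : IsClosed (⋃ k : {k // S.a k ^ 4 = S.a i ^ 4}, sq (S.b k) (S.a k) (S.s k)) :=
    (S.locallyFinite.comp_injective Subtype.coe_injective).isClosed_iUnion
      fun k => isClosed_sq (S.ha k)
  have hB : IsClosed (⋃ k : {k // ¬ S.a k ^ 4 = S.a i ^ 4}, sq (S.b k) (S.a k) (S.s k)) :=
    (S.locallyFinite.comp_injective Subtype.coe_injective).isClosed_iUnion
      fun k => isClosed_sq (S.ha k)
  have hC : (⋃ k, S.corner k).Countable := Set.countable_iUnion fun k => (S.corner_finite k).countable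
  have hconn : IsPreconnected (⋃ k, S.corner k)ᶜ :=
    (hC.isConnected_compl_of_one_lt_rank (by rw [Complex.rank_real_complex]; norm_num)).isPreconnected
  have hdense : Dense (⋃ k, S.corner k)ᶜ := hC.dense_compl ℝ
  have hne : ∀ k, ((⋃ k, S.corner k)ᶜ ∩ sq (S.b k) (S.a k) (S.s k)).Nonempty := by
    intro k
    have h1 : (interior (sq (S.b k) (S.a k) (S.s k))).Nonempty :=
      ⟨S.c k, ball_subset (S.ha k) (Metric.mem_ball_self (half_pos (S.pos k)))⟩
    obtain ⟨z, hz1, hz2⟩ := hdense.inter_open_nonempty _ isOpen_interior h1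
    exact ⟨z, hz2, interior_subset hz1⟩
  rw [isPreconnected_closed_iff] at hconn
  obtain ⟨z, hz, hz1, hz2⟩ := hconn _ _ hA hB (by
      intro z _
      obtain ⟨k, hk⟩ := S.cov z
      by_cases h : S.a k ^ 4 = S.a i ^ 4
      · exact Or.inl (Set.mem_iUnion.2 ⟨⟨k, h⟩, hk⟩)
      · exact Or.inr (Set.mem_iUnion.2 ⟨⟨k, h⟩, hk⟩))
    (by
      obtain ⟨z, hz1, hz2⟩ := hne i
      exact ⟨z, hz1, Set.mem_iUnion.2 ⟨⟨i, rfl⟩, hz2⟩⟩)
    (by
      obtain ⟨z, hz1, hz2⟩ := hne j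
      exact ⟨z, hz1, Set.mem_iUnion.2 ⟨⟨j, fun h => hij h.symm⟩, hz2⟩⟩)
  obtain ⟨⟨k, hk⟩, hk2⟩ := Set.mem_iUnion.1 hz1
  obtain ⟨⟨l, hl⟩, hl2⟩ := Set.mem_iUnion.1 hz2
  have hkl : k ≠ l := by
    rintro rfl
    exact hl hk
  have h1 := parallel_of_common (S.ha k) (S.ha l) (S.pos k) (S.pos l) hk2 hl2 (S.dis k l hkl)
    (fun h => hz (Set.mem_iUnion.2 ⟨k, h⟩)) (fun h => hz (Set.mem_iUnion.2 ⟨l, h⟩))
  exact hl (by rw [← h1, hk])

end Sqs

end Pool.Agent.Helper32.SQ
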