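import Pool.Agent.Helper32.SQ.Energy

/-!
# MP_309e91_co : three short vectors of the lattice have a short integer relation
-/

set_option autoImplicit false

namespace Pool.Agent.Helper32.SQ

open Finset

/-- the pigeonhole principle -/
theorem pigeon {M : ℝ} (hM : 0 < M) {n : ℕ} (hn : 1 ≤ n) (v : Fin 3 → ℝ × ℝ)
    (h1 : ∀ l, |(v l).1| ≤ n * M) (h2 : ∀ l, |(v l).2| ≤ n * M) :
    ∃ c : Fin 3 → ℤ, c ≠ 0 ∧ (∀ l, |c l| ≤ 36 * (n : ℤ) ^ 2) ∧
      |∑ l, (c l : ℝ) * (v l).1| < M ∧ |∑ l, (c l : ℝ) * (v l).2| < M := by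
  classical
  set K : ℕ := 36 * n ^ 2 with hK
  set A : Finset (Fin 3 → ℕ) := Fintype.piFinset fun _ => range (K + 1) with hA
  set I : Finset ℤ := Icc (-(3 * K * n : ℕ) : ℤ) ((3 * K * n : ℕ) : ℤ) with hI
  have hcA : A.card = (K + 1) ^ 3 := by
    rw [hA, Fintype.card_piFinset]
    simp
  have hcI : I.card = 6 * K * n + 1 := by
    rw [hI, Int.card_Icc]
    push_cast
    have : (3 * (K : ℤ) * n + 1 - -(3 * (K : ℤ) * n)) = ((6 * K * n + 1 : ℕ) : ℤ) := by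
      push_cast
      ring
    rw [this, Int.toNat_natCast]
  set φ : (Fin 3 → ℕ) → ℤ × ℤ := fun c =>
    (⌊(∑ l, (c l : ℝ) * (v l).1) / M⌋, ⌊(∑ l, (c l : ℝ) * (v l).2) / M⌋) with hφ
  -- a bound for the sums
  have hbd : ∀ (x : Fin 3 → ℝ), (∀ l, |x l| ≤ n * M) → ∀ c ∈ A,
      ⌊(∑ l, (c l : ℝ) * x l) / M⌋ ∈ I := by
    intro x hx c hc
    have hc' : ∀ l, (c l : ℝ) ≤ K := by
      intro l
      rw [hA, Fintype.mem_piFinset] at hc
      have := hc l
      rw [mem_range] at this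
      exact_mod_cast (by omega : c l ≤ K)
    have h3 : |∑ l, (c l : ℝ) * x l| ≤ (3 * K * n : ℕ) * M := by
      refine (abs_sum_le_sum_abs _ _).trans ?_
      have h4 : ∀ l ∈ (univ : Finset (Fin 3)), |(c l : ℝ) * x l| ≤ K * (n * M) := by
        intro l _
        rw [abs_mul, Nat.abs_cast]
        exact mul_le_mul (hc' l) (hx l) (abs_nonneg _) (Nat.cast_nonneg _)
      refine (sum_le_sum h4).trans (le_of_eq ?_)
      rw [sum_const, card_univ, Fintype.card_fin, nsmul_eq_mul]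
      push_cast
      ring
    rw [abs_le] at h3
    rw [hI, mem_Icc]
    constructor
    · rw [Int.le_floor]
      rw [le_div_iff₀ hM]
      push_cast at h3 ⊢
      linarith [h3.1]
    · have h4 : (∑ l, (c l : ℝ) * x l) / M ≤ ((3 * K * n : ℕ) : ℤ) := by
        rw [div_le_iff₀ hM]
        push_cast at h3 ⊢
        linarith [h3.2]
      have h5 := (Int.floor_le _).trans h4
      exact_mod_cast h5
  have hmaps : ∀ c ∈ A, φ c ∈ I ×ˢ I := by
    intro c hc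
    rw [mem_product]
    exact ⟨hbd _ h1 c hc, hbd _ h2 c hc⟩
  have hcard : (I ×ˢ I).card < A.card := by
    rw [card_product, hcI, hcA, hK]
    have h3 : 1 ≤ n := hn
    have h4 : n ^ 3 ≤ n ^ 4 := Nat.pow_le_pow_right h3 (by norm_num)
    have h5 : 1 ≤ n ^ 2 := Nat.one_le_pow _ _ h3
    nlinarith
  obtain ⟨c, hc, c', hc', hne, heq⟩ := exists_ne_map_eq_of_card_lt_of_maps_to hcard hmaps
  rw [hφ] at heq
  simp only [Prod.mk.injEq] at heq
  have hfl : ∀ x : Fin 3 → ℝ, ⌊(∑ l, (c l : ℝ) * x l) / M⌋ = ⌊(∑ l, (c' l : ℝ) * x l) / M⌋ →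
      |∑ l, (((c l : ℤ) - (c' l : ℤ) : ℤ) : ℝ) * x l| < M := by
    intro x hx
    have h3 := Int.abs_sub_lt_one_of_floor_eq_floor hx
    rw [← sub_div, abs_div, abs_of_pos hM, div_lt_one hM] at h3
    have h4 : ∑ l, (((c l : ℤ) - (c' l : ℤ) : ℤ) : ℝ) * x l =
        ∑ l, (c l : ℝ) * x l - ∑ l, (c' l : ℝ) * x l := by
      rw [← sum_sub_distrib]
      refine sum_congr rfl fun l _ => ?_
      push_cast
      ring
    rw [h4]
    exact h3
  refine ⟨fun l => (c l : ℤ) - (c' l : ℤ), ?_, ?_, hfl _ heq.1, hfl _ heq.2⟩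
  · intro h
    apply hne
    funext l
    have h3 := congrFun h l
    rw [Pi.zero_apply] at h3
    omega
  · intro l
    rw [hA, Fintype.mem_piFinset] at hc hc'
    have h3 := hc l
    have h4 := hc' l
    rw [mem_range] at h3 h4
    have h5 : (36 : ℤ) * (n : ℤ) ^ 2 = (K : ℤ) := by
      rw [hK]
      push_cast
      ring
    show |(c l : ℤ) - (c' l : ℤ)| ≤ _
    rw [h5, abs_le]
    constructor <;> omega

namespace Dat

variable {ι : Type*} {r : ℕ} (D : Dat ι r)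

/-- short translations are trivial -/
theorem sep {v : ℝ × ℝ} (hv : v ∈ D.Λ) (i : ι) (h1 : |v.1| < D.F.p i) (h2 : |v.2| < D.F.p i) :
    v = 0 := by
  obtain ⟨i', hi, hp⟩ := D.inv v hv i
  have h3 := hi.1
  have h4 := hi.2
  rw [abs_lt] at h1 h2
  have h5 := D.F.pos i
  have h6 : i = i' := by
    refine D.F.un1 (max (D.F.X i) (D.F.X i')) (max (D.F.Y i) (D.F.Y i')) i i'
      (le_max_left _ _) (max_lt ?_ ?_) (le_max_left _ _) (max_lt ?_ ?_)
      (le_max_right _ _) (max_lt ?_ ?_) (le_max_right _ _) (max_lt ?_ ?_) <;> linarith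
  rw [← h6] at h3 h4
  exact Prod.ext (by rw [Prod.fst_zero]; linarith) (by rw [Prod.snd_zero]; linarith)

variable {D}

/-- three short closed walks -/
theorem three {n : ℕ} (hn : 1 ≤ n) (i₀ : ι) (hmax : ∀ i, D.F.p i ≤ D.F.p i₀)
    (o j : Fin 3 → ι) (ρ : Fin 3 → Fin r → ℤ) (m : Fin 3 → ℕ) (hm : ∀ l, m l ≤ n)
    (hcl : ∀ l, D.cl (j l) = D.cl (o l)) (hw : ∀ l, D.Wk (m l) (o l) (j l) (ρ l)) :
    ∃ c : Fin 3 → ℤ, c ≠ 0 ∧ (∀ l, |c l| ≤ 36 * (n : ℤ) ^ 2) ∧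
      ev (∑ l, c l • ρ l) D.P = 0 := by
  have h1 : ∀ l, ∃ v ∈ D.Λ, D.F.Is v (o l) (j l) := fun l => cl_eq.1 (hcl l).symm
  choose v hv hv1 using h1
  have hM := D.F.pos i₀
  have h2 : ∀ l, |(v l).1| ≤ n * D.F.p i₀ ∧ |(v l).2| ≤ n * D.F.p i₀ := by
    intro l
    obtain ⟨h3, h4⟩ := (hw l).near hmax
    have h5 : (v l).1 = D.F.X (j l) - D.F.X (o l) := by rw [(hv1 l).1]; ring
    have h6 : (v l).2 = D.F.Y (j l) - D.F.Y (o l) := by rw [(hv1 l).2]; ring
    have h7 : (m l : ℝ) * D.F.p i₀ ≤ n * D.F.p i₀ :=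
      mul_le_mul_of_nonneg_right (by exact_mod_cast hm l) hM.le
    rw [h5, h6]
    exact ⟨h3.trans h7, h4.trans h7⟩
  obtain ⟨c, hc0, hcb, hc1, hc2⟩ := pigeon hM hn v (fun l => (h2 l).1) (fun l => (h2 l).2)
  refine ⟨c, hc0, hcb, ?_⟩
  have h3 : ∑ l, c l • v l ∈ D.Λ := D.Λ.sum_mem fun l _ => D.Λ.zsmul_mem (hv l) _
  have h4 : (∑ l, c l • v l).1 = ∑ l, (c l : ℝ) * (v l).1 := by
    rw [Prod.fst_sum]
    refine sum_congr rfl fun l _ => ?_
    rw [Prod.smul_fst, zsmul_eq_mul]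
  have h5 : (∑ l, c l • v l).2 = ∑ l, (c l : ℝ) * (v l).2 := by
    rw [Prod.snd_sum]
    refine sum_congr rfl fun l _ => ?_
    rw [Prod.smul_snd, zsmul_eq_mul]
  have h6 := D.sep h3 i₀ (by rw [h4]; exact hc1) (by rw [h5]; exact hc2)
  have h7 := congrArg Prod.snd h6
  rw [h5, Prod.snd_zero] at h7
  rw [← h7]
  have h8 : ∀ s : Finset (Fin 3), ev (∑ l ∈ s, c l • ρ l) D.P = ∑ l ∈ s, (c l : ℝ) * (v l).2 := by
    classical
    intro s
    induction s using Finset.induction_on with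
    | empty => simp [ev_zero]
    | insert a s ha ih =>
      rw [sum_insert ha, sum_insert ha, ev_add, ev_smul, ih]
      have h9 : (v a).2 = ev (ρ a) D.P := by
        have h10 := (hw a).y_eq
        have h11 := (hv1 a).2
        linarith
      rw [h9]
  exact h8 univ

end Dat

end Pool.Agent.Helper32.SQ
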