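import Pool.Agent.Helper32.SQ.Til

/-!
# MP_309e91_co : more on squares in the plane
-/

set_option autoImplicit false

namespace Pool.Agent.Helper32.SQ

open Complex Filter Topology

/-- points of the interior of a square -/
theorem of_mem_interior_sq {b a : ℂ} (ha : ‖a‖ = 1) {s : ℝ} {z : ℂ}
    (hz : z ∈ interior (sq b a s)) :
    (0 < (co a (z - b)).re ∧ (co a (z - b)).re < s) ∧
      (0 < (co a (z - b)).im ∧ (co a (z - b)).im < s) := by
  obtain ⟨ε, hε, hball⟩ := Metric.isOpen_iff.1 isOpen_interior z hz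
  have hsub : ∀ w : ℂ, ‖w‖ < ε → z + w ∈ sq b a s := by
    intro w hw
    apply interior_subset
    apply hball
    rw [Metric.mem_ball, dist_eq_norm, add_sub_cancel_left]
    exact hw
  have hn : ∀ t : ℂ, ‖t‖ = 1 → ‖((ε / 2 : ℝ) : ℂ) * (a * t)‖ < ε := by
    intro t ht
    rw [norm_mul, norm_mul, ha, ht, norm_real, Real.norm_eq_abs, abs_of_pos (half_pos hε)]
    linarith
  have hco : ∀ t : ℂ, co a (z + ((ε / 2 : ℝ) : ℂ) * (a * t) - b) =
      co a (z - b) + ((ε / 2 : ℝ) : ℂ) * t := by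
    intro t
    have h1 : z + ((ε / 2 : ℝ) : ℂ) * (a * t) - b = (z - b) + a * (((ε / 2 : ℝ) : ℂ) * t) := by
      ring
    rw [h1, co_add, co_a_mul ha]
  have h1 := (mem_sq ha).1 (hsub _ (hn 1 (by simp)))
  have h2 := (mem_sq ha).1 (hsub _ (hn (-1) (by simp)))
  have h3 := (mem_sq ha).1 (hsub _ (hn I (by simp)))
  have h4 := (mem_sq ha).1 (hsub _ (hn (-I) (by simp)))
  rw [hco] at h1 h2 h3 h4
  simp only [add_re, add_im, mul_re, mul_im, ofReal_re, ofReal_im, one_re, one_im, neg_re, neg_im,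
    I_re, I_im] at h1 h2 h3 h4
  refine ⟨⟨?_, ?_⟩, ?_, ?_⟩
  · linarith [h2.1.1]
  · linarith [h1.1.2]
  · linarith [h4.2.1]
  · linarith [h3.2.2]

/-- the square from another corner -/
theorem sq_I (b a : ℂ) (s : ℝ) : sq b (I * a) s = sq (b - a * s) a s := by
  have hI := I_sq
  ext z
  constructor
  · rintro ⟨x, y, hx, hy, rfl⟩
    refine ⟨s - y, x, ⟨by linarith, by linarith⟩, ⟨by linarith, by linarith⟩, ?_⟩
    push_cast
    linear_combination (a * y) * hI
  · rintro ⟨x, y, hx, hy, rfl⟩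
    refine ⟨y, s - x, ⟨by linarith, by linarith⟩, ⟨by linarith, by linarith⟩, ?_⟩
    push_cast
    linear_combination -(a * (s - x)) * hI

theorem ctr_I (b a : ℂ) (s : ℝ) : ctr b (I * a) s = ctr (b - a * s) a s := by
  have hI := I_sq
  unfold ctr
  push_cast
  linear_combination (a * s / 2) * hI

/-- a square in a parallel frame, with the same centre -/
theorem sq_rot' {a a₀ : ℂ} (ha₀ : ‖a₀‖ = 1) (h4 : a ^ 4 = a₀ ^ 4) (b : ℂ) (s : ℝ) :
    ∃ b', sq b a s = sq b' a₀ s ∧ ctr b' a₀ s = ctr b a s := by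
  have h0 := a_ne_zero ha₀
  have hu : (a / a₀) ^ 4 = 1 := by
    rw [div_pow, h4, div_self (pow_ne_zero 4 h0)]
  have hII : ∀ x : ℂ, I * (I * x) = -x := by
    intro x
    rw [← mul_assoc, I_mul_I, neg_one_mul]
  rcases pow_four_cases hu with h | h | h | h
  · refine ⟨b, ?_⟩
    rw [div_eq_iff h0, one_mul] at h
    rw [h]
    exact ⟨rfl, rfl⟩
  · rw [div_eq_iff h0] at h
    refine ⟨b - I * a₀ * s - a₀ * s, ?_⟩
    rw [h, neg_one_mul, ← hII, sq_I, sq_I, ctr_I, ctr_I]
    exact ⟨rfl, rfl⟩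
  · rw [div_eq_iff h0] at h
    refine ⟨b - a₀ * s, ?_⟩
    rw [h, sq_I, ctr_I]
    exact ⟨rfl, rfl⟩
  · rw [div_eq_iff h0] at h
    refine ⟨b - I * (I * a₀) * s - I * a₀ * s - a₀ * s, ?_⟩
    have h5 : a = I * (I * (I * a₀)) := by
      rw [h, hII]
      ring
    rw [h5, sq_I, sq_I, sq_I, ctr_I, ctr_I, ctr_I]
    exact ⟨rfl, rfl⟩

/-- the centre of a square is determined by the square -/
theorem ctr_unique {b a b' a' : ℂ} (ha : ‖a‖ = 1) (ha' : ‖a'‖ = 1) {s s' : ℝ} (hs : 0 < s)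
    (hs' : 0 < s') (h : sq b a s = sq b' a' s') : ctr b a s = ctr b' a' s' := by
  obtain ⟨h1, h2⟩ := sq_inj ha ha' hs hs' h
  obtain ⟨b'', h3, h4⟩ := sq_rot' ha' h2 b s
  obtain ⟨h5, h6⟩ := sq_b_inj ha' hs hs' (h3.symm.trans h)
  rw [← h4, h5, h6]

/-- isometries map centres to centres -/
theorem iso_ctr (g : ℂ ≃ᵢ ℂ) {b a b' a' : ℂ} (ha : ‖a‖ = 1) (ha' : ‖a'‖ = 1) {s s' : ℝ}
    (hs : 0 < s) (hs' : 0 < s') (h : g '' sq b a s = sq b' a' s') :
    g (ctr b a s) = ctr b' a' s' := by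
  have hI := I_sq
  obtain ⟨α, β, hα, h1 | h1⟩ := iso_form g
  · rw [image_sq_rot h1] at h
    have h2 := ctr_unique (by rw [norm_mul, hα, ha, one_mul]) ha' hs hs' h
    rw [← h2, h1]
    unfold ctr
    ring
  · rw [image_sq_refl h1] at h
    have hn : ‖-I * (α * (starRingEnd ℂ) a)‖ = 1 := by
      rw [norm_mul, norm_neg, norm_I, norm_mul, hα, RCLike.norm_conj, ha]
      norm_num
    have h2 := ctr_unique hn ha' hs hs' h
    rw [← h2, h1]
    unfold ctr
    rw [map_add, map_mul, map_add, map_mul, conj_ofReal, conj_I]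
    linear_combination (α * (starRingEnd ℂ) a * (s / 2 : ℝ)) * hI

/-- the end points of a segment -/
theorem segment_ends {z w z' w' : ℂ} (hzw : z ≠ w) (h : segment ℝ z w = segment ℝ z' w') :
    (z = z' ∧ w = w') ∨ (z = w' ∧ w = z') := by
  have hd : w - z ≠ 0 := sub_ne_zero.2 hzw.symm
  have par : ∀ x ∈ segment ℝ z w, ∃ t : ℝ, 0 ≤ t ∧ t ≤ 1 ∧ x = z + t * (w - z) := by
    rintro x ⟨p, q, hp, hq, hpq, rfl⟩
    refine ⟨q, hq, by linarith, ?_⟩
    have : (p : ℂ) = 1 - q := by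
      have h1 : p = 1 - q := by linarith
      rw [h1]
      push_cast
      ring
    rw [real_smul, real_smul, this]
    ring
  obtain ⟨t, ht0, ht1, hz'⟩ := par z' (by rw [h]; exact left_mem_segment ℝ z' w')
  obtain ⟨u, hu0, hu1, hw'⟩ := par w' (by rw [h]; exact right_mem_segment ℝ z' w')
  -- `z` and `w` are between `z'` and `w'`
  have btw : ∀ x ∈ segment ℝ z' w', ∀ c : ℝ, x = z + c * (w - z) →
      ∃ p q : ℝ, 0 ≤ p ∧ 0 ≤ q ∧ p + q = 1 ∧ c = p * t + q * u := by
    rintro x ⟨p, q, hp, hq, hpq, rfl⟩ c hc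
    refine ⟨p, q, hp, hq, hpq, ?_⟩
    rw [real_smul, real_smul, hz', hw'] at hc
    have h1 : (c : ℂ) * (w - z) = (p * t + q * u) * (w - z) := by
      have h2 : (p : ℂ) + q = 1 := by exact_mod_cast hpq
      linear_combination -hc + z * h2
    have h3 := mul_right_cancel₀ hd h1
    exact_mod_cast h3
  obtain ⟨p, q, hp, hq, hpq, h0⟩ := btw z (by rw [← h]; exact left_mem_segment ℝ z w) 0
    (by simp)
  obtain ⟨p', q', hp', hq', hpq', h1⟩ := btw w (by rw [← h]; exact right_mem_segment ℝ z w) 1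
    (by simp)
  have a1 := mul_nonneg hp ht0
  have a2 := mul_nonneg hq hu0
  have a3 : p * t = 0 := by linarith
  have a4 : q * u = 0 := by linarith
  have b1 := mul_nonneg hp' (by linarith : (0 : ℝ) ≤ 1 - t)
  have b2 := mul_nonneg hq' (by linarith : (0 : ℝ) ≤ 1 - u)
  have b3 : p' * (1 - t) = 0 := by nlinarith
  have b4 : q' * (1 - u) = 0 := by nlinarith
  have h2 : t = 0 ∨ u = 0 := by
    rcases mul_eq_zero.1 a3 with h | h
    · rcases mul_eq_zero.1 a4 with h' | h'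
      · linarith
      · exact Or.inr h'
    · exact Or.inl h
  have h3 : t = 1 ∨ u = 1 := by
    rcases mul_eq_zero.1 b3 with h | h
    · rcases mul_eq_zero.1 b4 with h' | h'
      · linarith
      · right; linarith
    · left; linarith
  rcases h2 with h2 | h2
  · rcases h3 with h3 | h3
    · linarith
    · left
      rw [hz', hw', h2, h3]
      constructor
      · simp
      · simp
  · rcases h3 with h3 | h3
    · right
      rw [hz', hw', h2, h3]
      constructor
      · simp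
      · simp
    · linarith

end Pool.Agent.Helper32.SQ
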