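import Pool.Agent.Helper32.SQ.Orb

/-!
# MP_309e91_co : tilings by squares, and the rank theorem
-/

set_option autoImplicit false

namespace Pool.Agent.Helper32.SQ

open Complex Filter Topology

/-- a tiling of the plane by closed squares -/
structure Til (𝒯 : Set (Set ℂ)) : Prop where
  square : ∀ T ∈ 𝒯, ∃ s, IsSq T s
  cover : ∀ z : ℂ, ∃ T ∈ 𝒯, z ∈ T
  disjoint : ∀ T ∈ 𝒯, ∀ T' ∈ 𝒯, T ≠ T' → Disjoint (interior T) (interior T')

/-- the sizes -/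
def sz (𝒯 : Set (Set ℂ)) : Set ℝ := {s | ∃ T ∈ 𝒯, IsSq T s}

theorem IsSq.unique {T : Set ℂ} {s s' : ℝ} (h : IsSq T s) (h' : IsSq T s') : s = s' := by
  obtain ⟨hs, b, a, ha, rfl⟩ := h
  obtain ⟨hs', b', a', ha', h2⟩ := h'
  exact (sq_inj ha ha' hs hs' h2).1

theorem Til.exists_frm {𝒯 : Set (Set ℂ)} (h : Til 𝒯) (hf : (sz 𝒯).Finite) :
    ∃ F : Frm 𝒯, ∀ T ∈ 𝒯, IsSq T (F.s T) := by
  classical
  -- data
  have h1 : ∀ T ∈ 𝒯, ∃ (s : ℝ) (b a : ℂ), 0 < s ∧ ‖a‖ = 1 ∧ T = sq b a s := by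
    intro T hT
    obtain ⟨s, hs, b, a, ha, hT'⟩ := h.square T hT
    exact ⟨s, b, a, hs, ha, hT'⟩
  choose! s b a hs ha heq using h1
  have hsq : ∀ T ∈ 𝒯, IsSq T (s T) := fun T hT => ⟨hs T hT, b T, a T, ha T hT, heq T hT⟩
  have hsz : ∀ T ∈ 𝒯, s T ∈ sz 𝒯 := fun T hT => ⟨T, hT, hsq T hT⟩
  obtain ⟨T₀, hT₀, -⟩ := h.cover 0
  -- bounds
  have hne : (sz 𝒯).Nonempty := ⟨_, hsz T₀ hT₀⟩
  obtain ⟨δ, hδ, hδ'⟩ := hf.exists_minimalFor id _ hne
  obtain ⟨D, hD, hD'⟩ := hf.exists_maximalFor id _ hne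
  have hlow : ∀ x ∈ sz 𝒯, δ ≤ x := by
    intro x hx
    rcases le_total δ x with h2 | h2
    · exact h2
    · exact hδ' hx h2
  have hup : ∀ x ∈ sz 𝒯, x ≤ D := by
    intro x hx
    rcases le_total x D with h2 | h2
    · exact h2
    · exact hD' hx h2
  have hδ0 : 0 < δ := by
    obtain ⟨T, -, hT⟩ := hδ
    exact hT.1
  let S : Sqs 𝒯 :=
    { b := fun T => b T
      a := fun T => a T
      s := fun T => s T
      δ := δ
      D := D
      ha := fun T => ha T T.2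
      hδ := hδ0
      hs := fun T => hlow _ (hsz T T.2)
      hD := fun T => hup _ (hsz T T.2)
      cov := by
        intro z
        obtain ⟨T, hT, hz⟩ := h.cover z
        refine ⟨⟨T, hT⟩, ?_⟩
        show z ∈ sq (b T) (a T) (s T)
        rw [← heq T hT]
        exact hz
      dis := by
        intro T T' hTT
        rw [← heq T T.2, ← heq T' T'.2]
        exact h.disjoint T T.2 T' T'.2 (fun h' => hTT (Subtype.ext h')) }
  have h2 : ∀ T ∈ 𝒯, ∃ b', T = sq b' (a T₀) (s T) := by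
    intro T hT
    obtain ⟨b', hb'⟩ := sq_rot (ha T₀ hT₀) (S.parallel ⟨T, hT⟩ ⟨T₀, hT₀⟩) (b T) (s T)
    refine ⟨b', ?_⟩
    rw [← hb']
    exact heq T hT
  choose! b' hb' using h2
  refine ⟨{ a := a T₀
            b := b'
            s := s
            δ := δ
            D := D
            ha := ha T₀ hT₀
            hδ := hδ0
            hs := fun T hT => hlow _ (hsz T hT)
            hD := fun T hT => hup _ (hsz T hT)
            eq := hb'
            cov := h.cover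
            dis := h.disjoint }, hsq⟩

theorem isSym_of_image {𝒯 : Set (Set ℂ)} {g : ℂ ≃ᵢ ℂ}
    (hg : (fun T : Set ℂ => g '' T) '' 𝒯 = 𝒯) : IsSym 𝒯 g := by
  intro T
  constructor
  · intro hT
    rw [← hg]
    exact ⟨T, hT, rfl⟩
  · intro hT
    rw [← hg] at hT
    obtain ⟨T', hT', h⟩ := hT
    have : T' = T := g.injective.image_injective h
    rwa [← this]

/-- THE RANK THEOREM -/
theorem Til.rank_le_two {𝒯 : Set (Set ℂ)} (h : Til 𝒯) (hf : (sz 𝒯).Finite)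
    (he : ∀ s, ∀ T ∈ 𝒯, ∀ T' ∈ 𝒯, IsSq T s → IsSq T' s →
      ∃ g : ℂ ≃ᵢ ℂ, (fun S : Set ℂ => g '' S) '' 𝒯 = 𝒯 ∧ g '' T = T') :
    Module.finrank ℚ (Submodule.span ℚ (sz 𝒯)) ≤ 2 := by
  obtain ⟨F, hF⟩ := h.exists_frm hf
  have h1 : F.s '' 𝒯 = sz 𝒯 := by
    ext x
    constructor
    · rintro ⟨T, hT, rfl⟩
      exact ⟨T, hT, hF T hT⟩
    · rintro ⟨T, hT, hx⟩
      exact ⟨T, hT, (hF T hT).unique hx⟩
  rw [← h1]
  refine F.main (by rw [h1]; exact hf) ?_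
  intro T hT T' hT' hs
  obtain ⟨g, hg, hgT⟩ := he (F.s T) T hT T' hT' (hF T hT) (hs ▸ hF T' hT')
  exact ⟨g, isSym_of_image hg, hgT⟩

end Pool.Agent.Helper32.SQ
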