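import Pool.Agent.Helper32.SQ.Core

/-!
# MP_309e91_co : the mass transport principle and the energy identity
-/

set_option autoImplicit false

namespace Pool.Agent.Helper32.SQ

open Finset

namespace Fam

variable {ι : Type*} (F : Fam ι)

/-- `i'` is the translate of `i` by `v`. -/
def Is (v : ℝ × ℝ) (i i' : ι) : Prop := F.X i' = F.X i + v.1 ∧ F.Y i' = F.Y i + v.2

/-- The family is invariant under the translations of `Λ`. -/
def Inv (Λ : AddSubgroup (ℝ × ℝ)) : Prop := ∀ v ∈ Λ, ∀ i, ∃ i', F.Is v i i' ∧ F.p i' = F.p i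

variable {F} {Λ : AddSubgroup (ℝ × ℝ)}

theorem Is.unique {v : ℝ × ℝ} {i i' i'' : ι} (h : F.Is v i i') (h' : F.Is v i i'') : i' = i'' :=
  F.inj _ _ (by rw [h.1, h'.1]) (by rw [h.2, h'.2])

theorem Is.symm {v : ℝ × ℝ} {i i' : ι} (h : F.Is v i i') : F.Is (-v) i' i := by
  constructor
  · rw [h.1, Prod.fst_neg]; ring
  · rw [h.2, Prod.snd_neg]; ring

theorem Is.trans {v w : ℝ × ℝ} {i j k : ι} (h : F.Is v i j) (h' : F.Is w j k) :
    F.Is (v + w) i k := by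
  constructor
  · rw [h'.1, h.1, Prod.fst_add]; ring
  · rw [h'.2, h.2, Prod.snd_add]; ring

theorem Is.p_eq (hΛ : F.Inv Λ) {v : ℝ × ℝ} (hv : v ∈ Λ) {i i' : ι} (h : F.Is v i i') :
    F.p i' = F.p i := by
  obtain ⟨j, hj, hp⟩ := hΛ v hv i
  rw [h.unique hj, hp]

theorem Tch.congr (hΛ : F.Inv Λ) {v : ℝ × ℝ} (hv : v ∈ Λ) {i i' j j' : ι} (hi : F.Is v i i')
    (hj : F.Is v j j') (h : F.Tch i j) : F.Tch i' j' := by
  obtain ⟨h1, h2, h3⟩ := h
  have h4 := Is.p_eq hΛ hv hi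
  have h5 := Is.p_eq hΛ hv hj
  refine ⟨?_, ?_, ?_⟩
  · rw [hj.2, h5, hi.2]; linarith
  · rw [hj.1, h4, hi.1]; linarith
  · rw [hj.1, h5, hi.1]; linarith

theorem ov_congr (hΛ : F.Inv Λ) {v : ℝ × ℝ} (hv : v ∈ Λ) {i i' j j' : ι} (hi : F.Is v i i')
    (hj : F.Is v j j') : F.ov i' j' = F.ov i j := by
  unfold ov
  rw [Is.p_eq hΛ hv hi, Is.p_eq hΛ hv hj, hi.1, hj.1]
  have h1 : F.X i + v.1 + F.p i = (F.X i + F.p i) + v.1 := by ring
  have h2 : F.X j + v.1 + F.p j = (F.X j + F.p j) + v.1 := by ring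
  rw [h1, h2, min_add_add_right, max_add_add_right]
  ring

variable (F Λ)

/-- The orbits of the translations. -/
def orb (_hΛ : F.Inv Λ) : Setoid ι where
  r i j := ∃ v ∈ Λ, F.Is v i j
  iseqv := by
    refine ⟨fun i => ⟨0, Λ.zero_mem, ?_, ?_⟩, ?_, ?_⟩
    · rw [Prod.fst_zero, add_zero]
    · rw [Prod.snd_zero, add_zero]
    · rintro i j ⟨v, hv, h⟩
      exact ⟨-v, Λ.neg_mem hv, h.symm⟩
    · rintro i j k ⟨v, hv, h⟩ ⟨w, hw, h'⟩
      exact ⟨v + w, Λ.add_mem hv hw, h.trans h'⟩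

variable {F Λ}

open Classical in
/-- The mass transport principle. -/
theorem transport (hΛ : F.Inv Λ) [Fintype (Quotient (F.orb Λ hΛ))] (B T : ι → Finset ι)
    (hB : ∀ i j, j ∈ B i ↔ F.Tch i j) (hT : ∀ i j, i ∈ T j ↔ F.Tch i j) (G : ι → ι → ℝ)
    (hG : ∀ v ∈ Λ, ∀ i j i' j', F.Is v i i' → F.Is v j j' → F.Tch i j → G i' j' = G i j) :
    ∑ q : Quotient (F.orb Λ hΛ), ∑ j ∈ B q.out, G q.out j =
      ∑ q : Quotient (F.orb Λ hΛ), ∑ i ∈ T q.out, G i q.out := by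
  -- the vector from the representative
  have hvec : ∀ i : ι, ∃ v ∈ Λ, F.Is v (Quotient.mk (F.orb Λ hΛ) i).out i := fun i => by
    exact Quotient.exact (s := F.orb Λ hΛ) (Quotient.out_eq (Quotient.mk (F.orb Λ hΛ) i))
  choose vec hvecΛ hvecI using hvec
  have htr : ∀ (j : ι) (i : ι), ∃ i', F.Is (-vec j) i i' := fun j i => by
    obtain ⟨i', h, _⟩ := hΛ _ (Λ.neg_mem (hvecΛ j)) i
    exact ⟨i', h⟩
  choose tr htr using htr
  have hmk : ∀ (j : ι) (q : Quotient (F.orb Λ hΛ)),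
      Quotient.mk (F.orb Λ hΛ) (tr j q.out) = q := by
    intro j q
    have h1 : Quotient.mk (F.orb Λ hΛ) (tr j q.out) = Quotient.mk (F.orb Λ hΛ) q.out := by
      apply Quotient.sound
      exact ⟨-(-vec j), Λ.neg_mem (Λ.neg_mem (hvecΛ j)), (htr j q.out).symm⟩
    rw [h1, Quotient.out_eq]
  have hback : ∀ (j : ι) (q : Quotient (F.orb Λ hΛ)),
      tr (tr j q.out) (Quotient.mk (F.orb Λ hΛ) j).out = j := by
    intro j q
    have h1 : F.Is (-vec j) q.out (tr j q.out) := htr j q.out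
    have h2 := hvecI (tr j q.out)
    rw [hmk] at h2
    have h3 := htr (tr j q.out) (Quotient.mk (F.orb Λ hΛ) j).out
    have h4 := hvecI j
    -- `vec (tr j q.out) = - vec j`
    have h5 : (vec (tr j q.out)).1 = -(vec j).1 := by
      have := h1.1
      have h6 := h2.1
      rw [Prod.fst_neg] at this
      linarith
    have h6 : (vec (tr j q.out)).2 = -(vec j).2 := by
      have := h1.2
      have h6 := h2.2
      rw [Prod.snd_neg] at this
      linarith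
    apply F.inj
    · rw [h3.1, h4.1, Prod.fst_neg, h5]; ring
    · rw [h3.2, h4.2, Prod.snd_neg, h6]; ring
  rw [Finset.sum_sigma', Finset.sum_sigma']
  refine Finset.sum_nbij' (fun x => ⟨Quotient.mk (F.orb Λ hΛ) x.2, tr x.2 x.1.out⟩)
    (fun x => ⟨Quotient.mk (F.orb Λ hΛ) x.2, tr x.2 x.1.out⟩) ?_ ?_ ?_ ?_ ?_
  · rintro ⟨q, j⟩ hx
    rw [Finset.mem_sigma] at hx ⊢
    refine ⟨Finset.mem_univ _, ?_⟩
    rw [hT]
    have h1 := (hB _ _).1 hx.2
    exact h1.congr hΛ (Λ.neg_mem (hvecΛ j)) (htr j _) (hvecI j).symm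
  · rintro ⟨q, i⟩ hx
    rw [Finset.mem_sigma] at hx ⊢
    refine ⟨Finset.mem_univ _, ?_⟩
    rw [hB]
    have h1 := (hT _ _).1 hx.2
    exact h1.congr hΛ (Λ.neg_mem (hvecΛ i)) (hvecI i).symm (htr i _)
  · rintro ⟨q, j⟩ hx
    simp only [hmk, hback]
  · rintro ⟨q, j⟩ hx
    simp only [hmk, hback]
  · rintro ⟨q, j⟩ hx
    rw [Finset.mem_sigma] at hx
    have h1 := (hB _ _).1 hx.2
    exact (hG _ (Λ.neg_mem (hvecΛ j)) _ _ _ _ (htr j _) (hvecI j).symm h1).symm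

/-- An additive function which vanishes on the second coordinates of the translations vanishes on
the sides. -/
theorem vanish (hΛ : F.Inv Λ) (hfin : Finite (Quotient (F.orb Λ hΛ)))
    (hlf : ∀ i, {j | F.Tch i j}.Finite) (hlf' : ∀ j, {i | F.Tch i j}.Finite) (f : ℝ →+ ℝ)
    (hf : ∀ v ∈ Λ, f v.2 = 0) (i : ι) : f (F.p i) = 0 := by
  classical
  haveI : Fintype (Quotient (F.orb Λ hΛ)) := Fintype.ofFinite _
  have hB : ∀ i j, j ∈ (hlf i).toFinset ↔ F.Tch i j := fun i j => by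
    rw [Set.Finite.mem_toFinset, Set.mem_ofPred_eq]
  have hT : ∀ i j, i ∈ (hlf' j).toFinset ↔ F.Tch i j := fun i j => by
    rw [Set.Finite.mem_toFinset, Set.mem_ofPred_eq]
  have h1 := transport hΛ (fun i => (hlf i).toFinset) (fun j => (hlf' j).toFinset) hB hT
    (fun i j => f (F.Y i) * f (F.ov i j)) (by
      intro v hv i j i' j' hi hj _
      rw [ov_congr hΛ hv hi hj, hi.2, map_add, hf v hv, add_zero])
  have h2 : ∀ q : Quotient (F.orb Λ hΛ),
      ∑ j ∈ (hlf q.out).toFinset, f (F.Y q.out) * f (F.ov q.out j) =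
        f (F.Y q.out) * f (F.p q.out) := by
    intro q
    rw [← Finset.mul_sum, F.sum_below f q.out _ (hB q.out)]
  have h3 : ∀ q : Quotient (F.orb Λ hΛ),
      ∑ i ∈ (hlf' q.out).toFinset, f (F.Y i) * f (F.ov i q.out) =
        (f (F.Y q.out) + f (F.p q.out)) * f (F.p q.out) := by
    intro q
    have h4 : ∀ i ∈ (hlf' q.out).toFinset, f (F.Y i) * f (F.ov i q.out) =
        (f (F.Y q.out) + f (F.p q.out)) * f (F.ov i q.out) := by
      intro i hi
      rw [← ((hT i _).1 hi).1, map_add]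
    rw [Finset.sum_congr rfl h4, ← Finset.mul_sum, F.sum_above f q.out _ (fun i => hT i _)]
  rw [Finset.sum_congr rfl fun q _ => h2 q, Finset.sum_congr rfl fun q _ => h3 q] at h1
  have h5 : ∑ q : Quotient (F.orb Λ hΛ), f (F.p q.out) * f (F.p q.out) = 0 := by
    have h6 : ∀ q : Quotient (F.orb Λ hΛ), (f (F.Y q.out) + f (F.p q.out)) * f (F.p q.out) =
        f (F.Y q.out) * f (F.p q.out) + f (F.p q.out) * f (F.p q.out) := fun q => by ring
    rw [Finset.sum_congr rfl fun q _ => h6 q, Finset.sum_add_distrib] at h1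
    linarith
  have h6 := (Finset.sum_eq_zero_iff_of_nonneg (fun q _ => mul_self_nonneg _)).1 h5
    (Quotient.mk (F.orb Λ hΛ) i) (Finset.mem_univ _)
  have h7 : f (F.p (Quotient.mk (F.orb Λ hΛ) i).out) = 0 := mul_self_eq_zero.1 h6
  obtain ⟨v, hv, h9⟩ :=
    Quotient.exact (s := F.orb Λ hΛ) (Quotient.out_eq (Quotient.mk (F.orb Λ hΛ) i))
  rw [Is.p_eq hΛ hv h9, h7]

end Fam

end Pool.Agent.Helper32.SQ
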