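import Pool.Agent.Helper32.SQ.Transport

/-!
# MP_309e91_co : walks along vertical contacts
-/

set_option autoImplicit false

namespace Pool.Agent.Helper32.SQ

open Finset

/-- A family of squares with finitely many orbits of translations, with the index of the size. -/
structure Dat (ι : Type*) (r : ℕ) where
  F : Fam ι
  Λ : AddSubgroup (ℝ × ℝ)
  inv : F.Inv Λ
  P : Fin r → ℝ
  k : ι → Fin r
  hp : ∀ i, F.p i = P (k i)
  kinv : ∀ v ∈ Λ, ∀ i i', F.Is v i i' → k i' = k i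
  lf : ∀ i, {j | F.Tch i j}.Finite
  lf' : ∀ j, {i | F.Tch i j}.Finite
  fin : Finite (Quotient (F.orb Λ inv))

namespace Dat

variable {ι : Type*} {r : ℕ} (D : Dat ι r)

/-- the formal sum evaluated at a vector -/
def ev {R : Type*} [Ring R] (ρ : Fin r → ℤ) (f : Fin r → R) : R := ∑ k, (ρ k : R) * f k

theorem ev_add {R : Type*} [Ring R] (ρ ρ' : Fin r → ℤ) (f : Fin r → R) :
    ev (ρ + ρ') f = ev ρ f + ev ρ' f := by
  unfold ev
  rw [← sum_add_distrib]
  refine sum_congr rfl fun k _ => ?_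
  rw [Pi.add_apply, Int.cast_add, add_mul]

theorem ev_neg {R : Type*} [Ring R] (ρ : Fin r → ℤ) (f : Fin r → R) : ev (-ρ) f = -ev ρ f := by
  unfold ev
  rw [← sum_neg_distrib]
  refine sum_congr rfl fun k _ => ?_
  rw [Pi.neg_apply, Int.cast_neg, neg_mul]

theorem ev_sub {R : Type*} [Ring R] (ρ ρ' : Fin r → ℤ) (f : Fin r → R) :
    ev (ρ - ρ') f = ev ρ f - ev ρ' f := by
  rw [sub_eq_add_neg, ev_add, ev_neg, sub_eq_add_neg]

theorem ev_zero {R : Type*} [Ring R] (f : Fin r → R) : ev (0 : Fin r → ℤ) f = 0 := by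
  unfold ev
  simp

theorem ev_smul {R : Type*} [CommRing R] (a : ℤ) (ρ : Fin r → ℤ) (f : Fin r → R) :
    ev (a • ρ) f = (a : R) * ev ρ f := by
  unfold ev
  rw [mul_sum]
  refine sum_congr rfl fun k _ => ?_
  rw [Pi.smul_apply, smul_eq_mul]
  push_cast
  ring

theorem ev_single {R : Type*} [Ring R] (k : Fin r) (f : Fin r → R) :
    ev (Pi.single k (1 : ℤ)) f = f k := by
  unfold ev
  rw [sum_eq_single k]
  · simp
  · intro b _ hb
    simp [hb]
  · intro h
    exact absurd (mem_univ k) h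

/-- walks of length `n` with vertical displacement `ρ` -/
inductive Wk (D : Dat ι r) : ℕ → ι → ι → (Fin r → ℤ) → Prop
  | nil (i : ι) : Wk D 0 i i 0
  | up {n : ℕ} {i j j' : ι} {ρ : Fin r → ℤ} : Wk D n i j ρ → D.F.Tch j' j →
      Wk D (n + 1) i j' (ρ + Pi.single (D.k j) 1)
  | down {n : ℕ} {i j j' : ι} {ρ : Fin r → ℤ} : Wk D n i j ρ → D.F.Tch j j' →
      Wk D (n + 1) i j' (ρ - Pi.single (D.k j') 1)

variable {D}

theorem Wk.y_eq {n : ℕ} {i j : ι} {ρ : Fin r → ℤ} (h : D.Wk n i j ρ) :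
    D.F.Y j = D.F.Y i + ev ρ D.P := by
  induction h with
  | nil => rw [ev_zero, add_zero]
  | up h ht ih =>
    rw [ev_add, ev_single, ← D.hp, ← ht.1, ih]
    ring
  | down h ht ih =>
    rw [ev_sub, ev_single, ← D.hp]
    linarith [ht.1]

theorem Wk.bd {n : ℕ} {i j : ι} {ρ : Fin r → ℤ} (h : D.Wk n i j ρ) (k : Fin r) :
    |ρ k| ≤ n := by
  induction h with
  | nil => simp
  | @up n i j j' ρ h ht ih =>
    rw [Pi.add_apply]
    have h1 : |(Pi.single (D.k j) (1 : ℤ) : Fin r → ℤ) k| ≤ 1 := by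
      rw [Pi.single_apply]
      split_ifs <;> simp
    have h2 := abs_add_le (ρ k) ((Pi.single (D.k j) (1 : ℤ) : Fin r → ℤ) k)
    push_cast
    linarith
  | @down n i j j' ρ h ht ih =>
    rw [Pi.sub_apply]
    have h1 : |(Pi.single (D.k j') (1 : ℤ) : Fin r → ℤ) k| ≤ 1 := by
      rw [Pi.single_apply]
      split_ifs <;> simp
    have h2 := abs_sub (ρ k) ((Pi.single (D.k j') (1 : ℤ) : Fin r → ℤ) k)
    push_cast
    linarith

theorem Wk.trans {n m : ℕ} {i j l : ι} {ρ ρ' : Fin r → ℤ} (h : D.Wk n i j ρ)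
    (h' : D.Wk m j l ρ') : D.Wk (n + m) i l (ρ + ρ') := by
  induction h' with
  | nil => simpa using h
  | @up n' i' j j' ρ' h1 ht ih =>
    have h2 := (ih h).up ht
    have h3 : ρ + ρ' + (Pi.single (D.k j) 1 : Fin r → ℤ) = ρ + (ρ' + Pi.single (D.k j) 1) :=
      add_assoc _ _ _
    rw [h3] at h2
    exact h2
  | @down n' i' j j' ρ' h1 ht ih =>
    have h2 := (ih h).down ht
    have h3 : ρ + ρ' - (Pi.single (D.k j') 1 : Fin r → ℤ) = ρ + (ρ' - Pi.single (D.k j') 1) :=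
      add_sub_assoc _ _ _
    rw [h3] at h2
    exact h2

theorem Wk.symm {n : ℕ} {i j : ι} {ρ : Fin r → ℤ} (h : D.Wk n i j ρ) : D.Wk n j i (-ρ) := by
  induction h with
  | nil i => simpa using Wk.nil (D := D) i
  | @up n i j j' ρ h ht ih =>
    have h1 : D.Wk 1 j' j (0 - Pi.single (D.k j) 1) := (Wk.nil j').down ht
    have h2 := h1.trans ih
    convert h2 using 1
    · ring
    · abel
  | @down n i j j' ρ h ht ih =>
    have h1 : D.Wk 1 j' j (0 + Pi.single (D.k j') 1) := (Wk.nil j').up ht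
    have h2 := h1.trans ih
    convert h2 using 1
    · ring
    · abel

theorem Wk.tr {n : ℕ} {i j : ι} {ρ : Fin r → ℤ} (h : D.Wk n i j ρ) {v : ℝ × ℝ} (hv : v ∈ D.Λ)
    {i' j' : ι} (hi : D.F.Is v i i') (hj : D.F.Is v j j') : D.Wk n i' j' ρ := by
  induction h generalizing j' with
  | nil =>
    rw [hi.unique hj]
    exact Wk.nil _
  | @up n i j l ρ h ht ih =>
    obtain ⟨m, hm, -⟩ := D.inv v hv j
    have h1 := (ih hi hm).up (ht.congr D.inv hv hj hm)
    rwa [D.kinv v hv j m hm] at h1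
  | @down n i j l ρ h ht ih =>
    obtain ⟨m, hm, -⟩ := D.inv v hv j
    have h1 := (ih hi hm).down (ht.congr D.inv hv hm hj)
    rwa [D.kinv v hv l j' hj] at h1

theorem Wk.near {n : ℕ} {i j : ι} {ρ : Fin r → ℤ} (h : D.Wk n i j ρ) {M : ℝ}
    (hM : ∀ i, D.F.p i ≤ M) : |D.F.X j - D.F.X i| ≤ n * M ∧ |D.F.Y j - D.F.Y i| ≤ n * M := by
  induction h with
  | nil => simp
  | @up n i j j' ρ h ht ih =>
    obtain ⟨h1, h2, h3⟩ := ht
    have h4 := D.F.pos j
    have h5 := D.F.pos j'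
    have h6 := hM j
    have h7 := hM j'
    obtain ⟨i1, i2⟩ := ih
    rw [abs_le] at i1 i2
    push_cast
    constructor
    · rw [abs_le]
      constructor <;> linarith [i1.1, i1.2]
    · rw [abs_le]
      constructor <;> linarith [i2.1, i2.2]
  | @down n i j j' ρ h ht ih =>
    obtain ⟨h1, h2, h3⟩ := ht
    have h4 := D.F.pos j
    have h5 := D.F.pos j'
    have h6 := hM j
    have h7 := hM j'
    obtain ⟨i1, i2⟩ := ih
    rw [abs_le] at i1 i2
    push_cast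
    constructor
    · rw [abs_le]
      constructor <;> linarith [i1.1, i1.2]
    · rw [abs_le]
      constructor <;> linarith [i2.1, i2.2]

variable (D)

/-- the classes of tiles -/
abbrev Q : Type _ := Quotient (D.F.orb D.Λ D.inv)

/-- class of a tile -/
def cl (i : ι) : D.Q := Quotient.mk (D.F.orb D.Λ D.inv) i

variable {D}

theorem cl_eq {i j : ι} : D.cl i = D.cl j ↔ ∃ v ∈ D.Λ, D.F.Is v i j := by
  constructor
  · intro h
    exact Quotient.exact (s := D.F.orb D.Λ D.inv) h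
  · intro h
    exact Quotient.sound (s := D.F.orb D.Λ D.inv) h

theorem cl_out (q : D.Q) : D.cl q.out = q := Quotient.out_eq q

theorem k_eq {i j : ι} (h : D.cl i = D.cl j) : D.k i = D.k j := by
  obtain ⟨v, hv, h1⟩ := cl_eq.1 h
  exact (D.kinv v hv i j h1).symm

variable (D)

/-- the contact graph of the classes -/
def G : SimpleGraph D.Q where
  Adj q q' := q ≠ q' ∧ ∃ i j, D.cl i = q ∧ D.cl j = q' ∧ (D.F.Tch i j ∨ D.F.Tch j i)
  symm := ⟨by
    rintro q q' ⟨h, i, j, hi, hj, h'⟩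
    exact ⟨h.symm, j, i, hj, hi, h'.symm⟩⟩
  loopless := ⟨fun q h => h.1 rfl⟩

variable {D}

theorem lift_walk {q q' : D.Q} (w : D.G.Walk q q') : ∀ i, D.cl i = q →
    ∃ (j : ι) (ρ : Fin r → ℤ), D.cl j = q' ∧ D.Wk w.length i j ρ := by
  induction w with
  | nil =>
    intro i hi
    exact ⟨i, 0, hi, Wk.nil i⟩
  | @cons a b c hadj w ih =>
    intro i hi
    obtain ⟨-, i₀, j₀, hi₀, hj₀, ht⟩ := hadj
    obtain ⟨v, hv, hiv⟩ := cl_eq.1 (hi₀.trans hi.symm)
    obtain ⟨j₁, hj₁, -⟩ := D.inv v hv j₀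
    have hclj : D.cl j₁ = b := by
      rw [← hj₀]
      exact (cl_eq.2 ⟨v, hv, hj₁⟩).symm
    obtain ⟨j, ρ, hj, hw⟩ := ih j₁ hclj
    have h1 : ∃ ρ' : Fin r → ℤ, D.Wk 1 i j₁ ρ' := by
      rcases ht with ht | ht
      · exact ⟨_, (Wk.nil i).down (ht.congr D.inv hv hiv hj₁)⟩
      · exact ⟨_, (Wk.nil i).up (ht.congr D.inv hv hj₁ hiv)⟩
    obtain ⟨ρ', h2⟩ := h1
    refine ⟨j, ρ' + ρ, hj, ?_⟩
    have h3 := h2.trans hw
    rw [add_comm 1 w.length] at h3
    exact h3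

/-- short walks inside a component -/
theorem short_walk {q q' : D.Q} (h : D.G.Reachable q q') (i : ι) (hi : D.cl i = q) :
    ∃ (n : ℕ) (j : ι) (ρ : Fin r → ℤ), n ≤ Nat.card D.Q ∧ D.cl j = q' ∧ D.Wk n i j ρ := by
  classical
  have := D.fin
  have : Fintype D.Q := Fintype.ofFinite _
  obtain ⟨p, hp⟩ := h.exists_isPath
  obtain ⟨j, ρ, hj, hw⟩ := lift_walk p i hi
  refine ⟨_, j, ρ, ?_, hj, hw⟩
  rw [Nat.card_eq_fintype_card]
  exact hp.length_lt.le

end Dat

end Pool.Agent.Helper32.SQ
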